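import Pool.Agent.H916R2.Indep

/-!
# The combinatorial consequence: `p` is a primitive root
-/

namespace Pool.Agent.H310.CH

open Finset Pool.Agent.H916R2

/-- an even nontrivial character mod `ℓ` trivial at `p`, if `p` is not a primitive root -/
lemma exists_even_char {ℓ p : ℕ} [Fact ℓ.Prime] (hℓ4 : ℓ % 4 = 1) (hp : (p : ZMod ℓ) ≠ 0)
    (hnot : orderOf (p : ZMod ℓ) ≠ ℓ - 1) :
    ∃ η : DirichletCharacter ℂ ℓ, η ≠ 1 ∧ η p = 1 ∧ η (-1) = 1 := by
  classical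
  have hℓ : ℓ.Prime := Fact.out
  have hℓ2 := hℓ.two_le
  have hd : orderOf (p : ZMod ℓ) ∣ ℓ - 1 :=
    orderOf_dvd_of_pow_eq_one (ZMod.pow_card_sub_one_eq_one hp)
  obtain ⟨k, hk0, hkl, hkev, hpk⟩ : ∃ k : ℕ, k ≠ 0 ∧ k < ℓ - 1 ∧ Even k ∧ (p : ZMod ℓ) ^ k = 1 := by
    set d := orderOf (p : ZMod ℓ) with hdd
    have hd0 : d ≠ 0 := by
      intro h0
      rw [h0, zero_dvd_iff] at hd
      omega
    have hdlt : d < ℓ - 1 := lt_of_le_of_ne (Nat.le_of_dvd (by omega) hd) hnot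
    rcases Nat.even_or_odd d with he | ho
    · exact ⟨d, hd0, hdlt, he, pow_orderOf_eq_one _⟩
    · refine ⟨2 * d, by omega, ?_, even_two_mul d, by rw [mul_comm, pow_mul, pow_orderOf_eq_one, one_pow]⟩
      have h4 : 4 ∣ ℓ - 1 := by omega
      obtain ⟨c, hc⟩ := hd
      have h4c : 4 ∣ c := by
        have h5 : Nat.Coprime 4 d := by
          have : Nat.Coprime 2 d := (Nat.coprime_two_left).mpr ho
          exact Nat.Coprime.pow_left 2 this
        rw [hc] at h4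
        exact h5.dvd_of_dvd_mul_left h4
      obtain ⟨e, rfl⟩ := h4c
      have he0 : 0 < e := by
        rcases Nat.eq_zero_or_pos e with h0 | h0
        · rw [h0] at hc; omega
        · exact h0
      have hd1 : 0 < d := Nat.pos_of_ne_zero hd0
      rw [hc]
      nlinarith [Nat.mul_le_mul hd1 he0]
  have hroot := Complex.isPrimitiveRoot_exp (ℓ - 1) (by omega)
  obtain ⟨η0, hη0⟩ := MulChar.exists_mulChar_orderOf (ZMod ℓ) (n := ℓ - 1)
    (by rw [ZMod.card]) hroot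
  refine ⟨η0 ^ k, ?_, ?_, ?_⟩
  · intro h1
    have h2 := orderOf_dvd_of_pow_eq_one h1
    rw [hη0] at h2
    have := Nat.le_of_dvd (Nat.pos_of_ne_zero hk0) h2
    omega
  · rw [MulChar.pow_apply' _ hk0, ← map_pow, hpk, map_one]
  · rw [MulChar.pow_apply' _ hk0, ← map_pow, hkev.neg_one_pow, map_one]

section

variable {ℓ p : ℕ} [Fact ℓ.Prime] (hℓ4 : ℓ % 4 = 1)

/-- the product character -/
noncomputable def chi' (ℓ : ℕ) (η : DirichletCharacter ℂ ℓ) : DirichletCharacter ℂ (4 * ℓ) :=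
  DirichletCharacter.changeLevel (Dvd.intro ℓ rfl : 4 ∣ 4 * ℓ)
      (ZMod.χ₄.ringHomComp (Int.castRingHom ℂ)) *
    DirichletCharacter.changeLevel (Dvd.intro_left 4 rfl : ℓ ∣ 4 * ℓ) η

lemma chi'_apply (η : DirichletCharacter ℂ ℓ) {a : ℤ} (ha : IsCoprime a ((4 * ℓ : ℕ) : ℤ)) :
    chi' ℓ η (a : ZMod (4 * ℓ)) = ((ZMod.χ₄ (a : ZMod 4) : ℤ) : ℂ) * η (a : ZMod ℓ) := by
  unfold chi'
  rw [MulChar.mul_apply, DirichletCharacter.changeLevel_eq_cast_of_dvd' _ _ ha,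
    DirichletCharacter.changeLevel_eq_cast_of_dvd' _ _ ha, MulChar.ringHomComp_apply]
  rfl

lemma coprime_iff (_hℓ4 : ℓ % 4 = 1) (a : ℤ) :
    IsCoprime a ((4 * ℓ : ℕ) : ℤ) ↔ ¬ (2 : ℤ) ∣ a ∧ ¬ (ℓ : ℤ) ∣ a := by
  have hℓ : ℓ.Prime := Fact.out
  have hℓi : Prime (ℓ : ℤ) := Nat.prime_iff_prime_int.mp hℓ
  have h4 : ((4 * ℓ : ℕ) : ℤ) = 2 ^ 2 * (ℓ : ℤ) := by push_cast; ring
  rw [h4, IsCoprime.mul_right_iff, IsCoprime.pow_right_iff (by norm_num)]
  rw [isCoprime_comm, Int.prime_two.coprime_iff_not_dvd, isCoprime_comm (x := a),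
    hℓi.coprime_iff_not_dvd]

end

open scoped Classical in
/-- The main combinatorial result. -/
theorem primitive_of_sums {ℓ p : ℕ} [Fact ℓ.Prime] (hℓ4 : ℓ % 4 = 1) (hp4 : p % 4 = 1)
    (hp : (p : ZMod ℓ) ≠ 0) {r : ℕ} (hr : r ≠ 0)
    (H : ∀ t s : ZMod (4 * ℓ), IsUnit t → s = t + 2 * (ℓ : ZMod (4 * ℓ)) →
      ∑ i ∈ range r, (p ^ i * t.val % (4 * ℓ)) = ∑ i ∈ range r, (p ^ i * s.val % (4 * ℓ))) :
    orderOf (p : ZMod ℓ) = ℓ - 1 := by
  have hℓ : ℓ.Prime := Fact.out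
  have hℓ2 := hℓ.two_le
  by_contra hnot
  obtain ⟨η, hη1, hηp, hηneg⟩ := exists_even_char hℓ4 hp hnot
  have hm0 : NeZero (4 * ℓ) := ⟨by omega⟩
  set m := 4 * ℓ with hm
  set χ := chi' ℓ η with hχ
  have hℓi : Prime (ℓ : ℤ) := Nat.prime_iff_prime_int.mp hℓ
  have hpℓ : ¬ (ℓ : ℤ) ∣ (p : ℤ) := by
    rw [Int.natCast_dvd_natCast]
    intro h
    exact hp ((ZMod.natCast_eq_zero_iff _ _).mpr h)
  have hcp : IsCoprime (p : ℤ) ((4 * ℓ : ℕ) : ℤ) := by
    rw [coprime_iff hℓ4]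
    exact ⟨by omega, hpℓ⟩
  have hcu : IsCoprime (1 + 2 * (ℓ : ℤ)) ((4 * ℓ : ℕ) : ℤ) := by
    rw [coprime_iff hℓ4]
    refine ⟨by omega, ?_⟩
    intro h
    have h1 : (ℓ : ℤ) ∣ 1 := by
      have := dvd_sub h (Dvd.intro_left 2 rfl : (ℓ : ℤ) ∣ 2 * (ℓ : ℤ))
      simpa using this
    exact hℓi.not_isUnit (isUnit_of_dvd_one h1)
  have hcn : IsCoprime (-1 : ℤ) ((4 * ℓ : ℕ) : ℤ) := by
    rw [coprime_iff hℓ4]
    refine ⟨by omega, ?_⟩
    intro h
    exact hℓi.not_isUnit (isUnit_of_dvd_one ((dvd_neg).mp h))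
  have hχp : χ (p : ZMod m) = 1 := by
    have h1 := chi'_apply (ℓ := ℓ) η hcp
    have h2 : ((p : ℤ) : ZMod 4) = ((p : ℕ) : ZMod 4) := by push_cast; rfl
    have h3 : ((p : ℤ) : ZMod ℓ) = ((p : ℕ) : ZMod ℓ) := by push_cast; rfl
    rw [h2, h3, ZMod.χ₄_nat_one_mod_four hp4, hηp] at h1
    have h4 : ((p : ℤ) : ZMod (4 * ℓ)) = ((p : ℕ) : ZMod m) := by push_cast; rfl
    rw [h4] at h1
    rw [hχ, h1]; norm_num
  have hχu : χ (1 + 2 * (ℓ : ZMod m)) = -1 := by
    have h1 := chi'_apply (ℓ := ℓ) η hcu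
    rw [ZMod.χ₄_int_three_mod_four (by omega)] at h1
    have h3 : ((1 + 2 * (ℓ : ℤ) : ℤ) : ZMod ℓ) = 1 := by push_cast; simp
    rw [h3, map_one] at h1
    have h4 : ((1 + 2 * (ℓ : ℤ) : ℤ) : ZMod (4 * ℓ)) = (1 + 2 * (ℓ : ZMod m)) := by push_cast; rfl
    rw [h4] at h1
    rw [hχ, h1]; norm_num
  have hχodd : χ.Odd := by
    have h1 := chi'_apply (ℓ := ℓ) η hcn
    rw [ZMod.χ₄_int_three_mod_four (by omega)] at h1
    have h3 : ((-1 : ℤ) : ZMod ℓ) = -1 := by push_cast; rfl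
    rw [h3, hηneg] at h1
    have h4 : ((-1 : ℤ) : ZMod (4 * ℓ)) = -1 := by push_cast; rfl
    rw [h4] at h1
    unfold DirichletCharacter.Odd
    rw [hχ, h1]; norm_num
  -- units
  have hup : IsUnit (p : ZMod m) := by
    rw [ZMod.isUnit_iff_coprime]
    exact Nat.isCoprime_iff_coprime.mp hcp
  have hunit2 : IsUnit (1 + 2 * (ℓ : ZMod m)) := by
    have h1 : (1 + 2 * (ℓ : ZMod m)) = ((1 + 2 * ℓ : ℕ) : ZMod m) := by push_cast; ring
    have h2 : (1 + 2 * (ℓ : ℤ)) = ((1 + 2 * ℓ : ℕ) : ℤ) := by push_cast; ring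
    rw [h2] at hcu
    rw [h1, ZMod.isUnit_iff_coprime]
    exact Nat.isCoprime_iff_coprime.mp hcu
  obtain ⟨P, hP⟩ := hup
  obtain ⟨U, hU⟩ := hunit2
  -- vanishing at one
  have hfour : (4 : ZMod m) * (ℓ : ZMod m) = 0 := by
    have h1 : ((4 * ℓ : ℕ) : ZMod m) = 0 := by rw [← hm]; exact ZMod.natCast_self m
    push_cast at h1
    exact h1
  have htU : ∀ t : (ZMod m)ˣ, (t : ZMod m) * (U : ZMod m) = t + 2 * (ℓ : ZMod m) := by
    intro t
    have hodd : (t : ZMod m).val % 2 = 1 := by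
      have h1 := ZMod.val_coe_unit_coprime t
      have h2 : Nat.Coprime (t : ZMod m).val 2 :=
        Nat.Coprime.coprime_dvd_right (by rw [hm]; omega) h1
      rw [Nat.coprime_comm, Nat.coprime_two_left] at h2
      exact Nat.odd_iff.mp h2
    obtain ⟨c, hc⟩ : ∃ c, (t : ZMod m).val = 2 * c + 1 := ⟨(t : ZMod m).val / 2, by omega⟩
    have ht : (t : ZMod m) = 2 * (c : ZMod m) + 1 := by
      rw [← ZMod.natCast_zmod_val (t : ZMod m), hc]; push_cast; ring
    rw [hU, ht]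
    linear_combination (c : ZMod m) * hfour
  have hone : SS χ 1 = 0 := by
    have hval : ∀ (t : ZMod m) (i : ℕ), p ^ i * t.val % m = ((p : ZMod m) ^ i * t).val := by
      intro t i
      have h1 : (p : ZMod m) ^ i * t = ((p ^ i * t.val : ℕ) : ZMod m) := by
        push_cast
        rw [ZMod.natCast_zmod_val]
      rw [h1, ZMod.val_natCast]
    have hne : ∀ (t : (ZMod m)ˣ), (t : ZMod m) ≠ 0 := by
      intro t
      have : Fact (1 < m) := ⟨by omega⟩
      exact t.ne_zero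
    have hH : ∀ t : (ZMod m)ˣ, ∑ i ∈ range r, (saw ((t : ZMod m) * ((P ^ i : (ZMod m)ˣ) : ZMod m)) : ℂ) =
        ∑ i ∈ range r, (saw ((t : ZMod m) * ((P ^ i * U : (ZMod m)ˣ) : ZMod m)) : ℂ) := by
      intro t
      have h1 := H (t : ZMod m) ((t : ZMod m) * (U : ZMod m)) t.isUnit (htU t)
      have h2 : ∀ s : (ZMod m)ˣ, (saw (s : ZMod m) : ℂ) = 2 * (((s : ZMod m).val : ℕ) : ℂ) - m := by
        intro s
        unfold saw
        rw [if_neg (hne s)]
        push_cast; ring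
      have h3 : ∀ i, (saw ((t : ZMod m) * ((P ^ i : (ZMod m)ˣ) : ZMod m)) : ℂ) =
          2 * (((p ^ i * (t : ZMod m).val % m) : ℕ) : ℂ) - m := by
        intro i
        have h4 := h2 (t * P ^ i)
        rw [hval]
        rw [Units.val_mul, Units.val_pow_eq_pow_val, hP] at h4
        rw [Units.val_pow_eq_pow_val, hP, h4, mul_comm (t : ZMod m)]
      have h5 : ∀ i, (saw ((t : ZMod m) * ((P ^ i * U : (ZMod m)ˣ) : ZMod m)) : ℂ) =
          2 * (((p ^ i * ((t : ZMod m) * (U : ZMod m)).val % m) : ℕ) : ℂ) - m := by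
        intro i
        have h4 := h2 (t * (P ^ i * U))
        rw [hval]
        rw [Units.val_mul, Units.val_mul, Units.val_pow_eq_pow_val, hP] at h4
        rw [Units.val_mul, Units.val_pow_eq_pow_val, hP, h4]
        have : (t : ZMod m) * ((p : ZMod m) ^ i * (U : ZMod m)) = (p : ZMod m) ^ i * ((t : ZMod m) * (U : ZMod m)) := by ring
        rw [this]
      rw [sum_congr rfl fun i _ => h3 i, sum_congr rfl fun i _ => h5 i, sum_sub_distrib,
        sum_sub_distrib, ← mul_sum, ← mul_sum, ← Nat.cast_sum, ← Nat.cast_sum, h1, Nat.cast_sum]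
    have h1 : ∑ i ∈ range r, SS χ ((P ^ i : (ZMod m)ˣ) : ZMod m) =
        ∑ i ∈ range r, SS χ ((P ^ i * U : (ZMod m)ˣ) : ZMod m) := by
      unfold SS
      rw [sum_comm, sum_comm (s := range r)]
      refine sum_congr rfl fun t _ => ?_
      rw [← mul_sum, ← mul_sum, hH t]
    have hP1 : χ (P : ZMod m) = 1 := by rw [hP, hχp]
    have hU1 : χ (U : ZMod m) = -1 := by rw [hU, hχu]
    have h2 : ∀ i, SS χ ((P ^ i : (ZMod m)ˣ) : ZMod m) = SS χ 1 := by
      intro i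
      have := SS_unit χ (P ^ i) 1
      rw [mul_one] at this
      rw [this, Units.val_pow_eq_pow_val, map_pow, hP1, one_pow, inv_one, one_mul]
    have h3 : ∀ i, SS χ ((P ^ i * U : (ZMod m)ˣ) : ZMod m) = - SS χ 1 := by
      intro i
      have := SS_unit χ (P ^ i * U) 1
      rw [mul_one] at this
      rw [this, Units.val_mul, map_mul, Units.val_pow_eq_pow_val, map_pow, hP1, hU1, one_pow]
      norm_num
    rw [sum_congr rfl fun i _ => h2 i, sum_congr rfl fun i _ => h3 i, sum_const, sum_const,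
      card_range, nsmul_eq_mul, nsmul_eq_mul] at h1
    have h4 : (r : ℂ) * (2 * SS χ 1) = 0 := by linear_combination h1
    have h5 : (r : ℂ) ≠ 0 := Nat.cast_ne_zero.mpr hr
    have h6 := (mul_eq_zero.mp h4).resolve_left h5
    exact (mul_eq_zero.mp h6).resolve_left two_ne_zero
  -- vanishing everywhere
  obtain ⟨a, ha⟩ := exists_SS_ne_zero χ hχodd
  apply ha
  have hfix : ∀ s : (ZMod m)ˣ, (s : ZMod m) * a = a → χ (s : ZMod m) ≠ 1 → SS χ a = 0 := by
    intro s hs hs1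
    have h1 := SS_unit χ s a
    rw [hs] at h1
    have h2 : (1 - (χ (s : ZMod m))⁻¹) * SS χ a = 0 := by linear_combination h1
    refine (mul_eq_zero.mp h2).resolve_left ?_
    intro h3
    apply hs1
    have h4 : (χ (s : ZMod m))⁻¹ = 1 := (sub_eq_zero.mp h3).symm
    exact inv_eq_one.mp h4
  by_cases hau : IsUnit a
  · obtain ⟨A, rfl⟩ := hau
    have := SS_unit χ A 1
    rw [mul_one, hone, mul_zero] at this
    exact this
  · by_cases h2 : 2 ∣ a.val
    · apply hfix U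
      · obtain ⟨c, hc⟩ := h2
        have ht : a = 2 * (c : ZMod m) := by
          rw [← ZMod.natCast_zmod_val a, hc]; push_cast; ring
        rw [hU, ht]
        linear_combination (c : ZMod m) * hfour
      · rw [hU, hχu]; norm_num
    · have hℓa : ℓ ∣ a.val := by
        by_contra hℓa
        apply hau
        rw [← ZMod.natCast_zmod_val a, ZMod.isUnit_iff_coprime]
        have h5 : IsCoprime ((a.val : ℕ) : ℤ) ((4 * ℓ : ℕ) : ℤ) := by
          rw [coprime_iff hℓ4]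
          refine ⟨?_, ?_⟩
          · intro h; apply h2; exact_mod_cast h
          · intro h; apply hℓa; exact_mod_cast h
        exact Nat.isCoprime_iff_coprime.mp h5
      -- a unit `s ≡ 1 (mod 4)` with `η s ≠ 1`
      obtain ⟨u0, hu0⟩ : ∃ u0 : (ZMod ℓ)ˣ, η (u0 : ZMod ℓ) ≠ 1 := by
        by_contra hcon
        push Not at hcon
        apply hη1
        ext u
        rw [hcon u, MulChar.one_apply_coe]
      have hc4 : Nat.Coprime 4 ℓ := by
        have : Nat.Coprime 2 ℓ := (Nat.coprime_two_left).mpr (Nat.odd_iff.mpr (by omega))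
        exact Nat.Coprime.pow_left 2 this
      obtain ⟨n, hn1, hn2⟩ := Nat.chineseRemainder hc4 1 (u0 : ZMod ℓ).val
      have hnℓ : (n : ZMod ℓ) = u0 := by
        rw [(ZMod.natCast_eq_natCast_iff _ _ _).mpr hn2, ZMod.natCast_zmod_val]
      have hn4 : n % 4 = 1 := hn1
      have hcn' : IsCoprime (n : ℤ) ((4 * ℓ : ℕ) : ℤ) := by
        rw [coprime_iff hℓ4]
        refine ⟨by omega, ?_⟩
        intro h
        have h6 : ℓ ∣ n := by exact_mod_cast h
        have h7 : (n : ZMod ℓ) = 0 := (ZMod.natCast_eq_zero_iff _ _).mpr h6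
        rw [hnℓ] at h7
        exact u0.ne_zero h7
      have hun : IsUnit (n : ZMod m) := by
        rw [ZMod.isUnit_iff_coprime]
        exact Nat.isCoprime_iff_coprime.mp hcn'
      obtain ⟨s, hs⟩ := hun
      apply hfix s
      · obtain ⟨c, hc⟩ := hℓa
        obtain ⟨d, hd⟩ : ∃ d, n = 4 * d + 1 := ⟨n / 4, by omega⟩
        have ht : a = (ℓ : ZMod m) * (c : ZMod m) := by
          rw [← ZMod.natCast_zmod_val a, hc]; push_cast; ring
        rw [hs, ht, hd]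
        push_cast
        linear_combination (d : ZMod m) * (c : ZMod m) * hfour
      · have h1 := chi'_apply (ℓ := ℓ) η hcn'
        have h2 : ((n : ℤ) : ZMod 4) = ((n : ℕ) : ZMod 4) := by push_cast; rfl
        have h3 : ((n : ℤ) : ZMod ℓ) = ((n : ℕ) : ZMod ℓ) := by push_cast; rfl
        rw [h2, h3, ZMod.χ₄_nat_one_mod_four hn4, hnℓ] at h1
        have h4 : ((n : ℤ) : ZMod (4 * ℓ)) = ((n : ℕ) : ZMod m) := by push_cast; rfl
        rw [h4] at h1
        rw [hs, hχ, h1]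
        intro h5
        apply hu0
        rw [← h5]; norm_num

end Pool.Agent.H310.CH
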