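import Pool.Agent.H310.CH.Digits
import Pool.Agent.H310.CH.Rel

/-!
# From Gauss sum relations to primitive roots
-/

set_option linter.unusedSectionVars false

namespace Pool.Agent.H310.CH

open Finset Pool.Agent.H916K

/-- existence of a valuation with a residue map to an algebraically closed field -/
theorem exists_val' {p : ℕ} (hp : p.Prime) :
    ∃ (k : Type) (_ : Field k) (_ : CharP k p) (_ : IsAlgClosed k) (φ : AI →+* k) (Γ : Type)
      (_ : LinearOrderedCommGroupWithZero Γ) (v : Valuation ℂ Γ), Above φ v := by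
  obtain ⟨k, _, _, φ, Γ, _, v, h1, h2, h3⟩ := exists_val hp
  refine ⟨AlgebraicClosure k, inferInstance,
    charP_of_injective_algebraMap (algebraMap k (AlgebraicClosure k)).injective p, inferInstance,
    (algebraMap k (AlgebraicClosure k)).comp φ, Γ, inferInstance, v, h1, ?_, ?_⟩
  · intro x hx
    apply h2
    rw [RingHom.comp_apply] at hx
    exact (map_eq_zero_iff _ (algebraMap k (AlgebraicClosure k)).injective).mp hx
  · intro x hx
    apply h3
    intro h0
    apply hx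
    rw [RingHom.comp_apply, h0, map_zero]

theorem primitive_of_gauss {ℓ p : ℕ} [Fact ℓ.Prime] [Fact p.Prime] (hℓ4 : ℓ % 4 = 1)
    (hp4 : p % 4 = 1) (hne : ℓ ≠ p) {L : Type} [Field L] [Fintype L] [Algebra (ZMod p) L]
    (hdvd : 4 * ℓ ∣ Fintype.card L - 1)
    (H : ∀ (ζ : ℂ) (hζ : IsPrimitiveRoot ζ p) (Ψ : MulChar L ℂ), orderOf Ψ = 4 * ℓ →
      gaussSum Ψ (psi hζ.pow_eq_one) ^ 2 = gaussSum (Ψ ^ (2 * ℓ + 1)) (psi hζ.pow_eq_one) ^ 2) :
    orderOf (p : ZMod ℓ) = ℓ - 1 := by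
  classical
  have hℓ : ℓ.Prime := Fact.out
  have hp : p.Prime := Fact.out
  have hℓ2 := hℓ.two_le
  have hp0 : (p : ZMod ℓ) ≠ 0 := by
    rw [Ne, ZMod.natCast_eq_zero_iff]
    intro h
    exact hne ((Nat.prime_dvd_prime_iff_eq hℓ hp).mp h)
  obtain ⟨k, _, _, _, φ, Γ, _, v, hv⟩ := exists_val' hp
  let _ : Algebra (ZMod p) k := ZMod.algebra k p
  let ι : L →ₐ[ZMod p] k := IsAlgClosed.lift
  have hL3 : 3 ≤ Fintype.card L := by
    have h1 := two_le_card (L := L)
    have := Nat.le_of_dvd (by omega) hdvd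
    omega
  obtain ⟨χ, hχ, hχφ⟩ := exists_teich (L := L) φ ι.toRingHom p
  obtain ⟨ζ, hζ⟩ := exists_root p hp.ne_zero
  have hinj : Function.Injective (algebraMap AI ℂ) := Subtype.val_injective
  have hζC : IsPrimitiveRoot (algebraMap AI ℂ ζ) p := hζ.map_of_injective hinj
  obtain ⟨M, hM⟩ := hdvd
  have hM0 : 0 < M := by
    rcases Nat.eq_zero_or_pos M with h0 | h0
    · rw [h0] at hM; omega
    · exact h0
  have hm0 : NeZero (4 * ℓ) := ⟨by omega⟩
  have hfour : (4 : ZMod (4 * ℓ)) * (ℓ : ZMod (4 * ℓ)) = 0 := by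
    have h1 : ((4 * ℓ : ℕ) : ZMod (4 * ℓ)) = 0 := ZMod.natCast_self _
    push_cast at h1
    exact h1
  -- gauss sums over `AI` and `ℂ`
  have hG : ∀ n : ℕ, gaussSum ((χ ^ n).ringHomComp (algebraMap AI ℂ)) (psi hζC.pow_eq_one) =
      ((gaussSum (χ ^ n) (psi hζ.pow_eq_one) : AI) : ℂ) := by
    intro n
    have : gaussSum ((χ ^ n).ringHomComp (algebraMap AI ℂ)) (psi hζC.pow_eq_one) =
        algebraMap AI ℂ (gaussSum (χ ^ n) (psi hζ.pow_eq_one)) := by
      unfold gaussSum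
      rw [map_sum]
      refine sum_congr rfl fun x _ => ?_
      rw [map_mul, MulChar.ringHomComp_apply, psi_apply, psi_apply, map_pow]
    rw [this]; rfl
  have hcM : orderOf (χ ^ M) = 4 * ℓ := by
    rw [orderOf_pow_of_dvd hM0.ne' (by rw [hχ, hM]; exact dvd_mul_left M _), hχ, hM,
      Nat.mul_div_cancel _ hM0]
  refine primitive_of_sums hℓ4 hp4 hp0 (r := Module.finrank (ZMod p) L)
    (finrank_ne (p := p) (L := L)) ?_
  intro t s ht hs
  have hcop : Nat.Coprime t.val (4 * ℓ) := by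
    obtain ⟨u, rfl⟩ := ht
    exact ZMod.val_coe_unit_coprime u
  have hodd : t.val % 2 = 1 := by
    have h2 : Nat.Coprime t.val 2 := Nat.Coprime.coprime_dvd_right (by omega) hcop
    rw [Nat.coprime_comm, Nat.coprime_two_left] at h2
    exact Nat.odd_iff.mp h2
  have ht1 : s = t * (2 * ℓ + 1) := by
    obtain ⟨c, hc⟩ : ∃ c, t.val = 2 * c + 1 := ⟨t.val / 2, by omega⟩
    have ht : t = 2 * (c : ZMod (4 * ℓ)) + 1 := by
      rw [← ZMod.natCast_zmod_val t, hc]; push_cast; ring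
    rw [hs, ht]
    linear_combination (-(c : ZMod (4 * ℓ))) * hfour
  have hsmod : t.val * (2 * ℓ + 1) ≡ s.val [MOD 4 * ℓ] := by
    rw [← ZMod.natCast_eq_natCast_iff]
    push_cast
    rw [ZMod.natCast_zmod_val, ZMod.natCast_zmod_val, ht1]
  have hs0 : 0 < s.val := by
    rw [Nat.pos_iff_ne_zero]
    intro h0
    rw [ZMod.val_eq_zero] at h0
    have h1 : s.val = 0 := by rw [h0]; simp
    rw [h1] at hsmod
    have h2 := (Nat.modEq_zero_iff_dvd).mp hsmod
    have h3 : 4 * ℓ ∣ 2 * ℓ + 1 := hcop.symm.dvd_of_dvd_mul_left h2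
    have h4 : 2 ∣ 2 * ℓ + 1 := dvd_trans (by omega) h3
    omega
  refine sum_eq_of_v_eq hv hζ hχ hχφ hL3 (M := M) (by rw [← hM]) (by omega) (ZMod.val_lt t) hs0
    (ZMod.val_lt s) ?_
  have hord : orderOf ((χ ^ (M * t.val)).ringHomComp (algebraMap AI ℂ)) = 4 * ℓ := by
    have h1 : orderOf ((χ ^ (M * t.val)).ringHomComp (algebraMap AI ℂ)) =
        orderOf (χ ^ (M * t.val)) :=
      orderOf_injective (MulChar.ringHomCompHom (algebraMap AI ℂ))
        (MulChar.injective_ringHomComp hinj) _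
    rw [h1, pow_mul, Nat.Coprime.orderOf_pow (by rw [hcM]; exact hcop.symm), hcM]
  have h1 := H _ hζC _ hord
  have h2 : ((χ ^ (M * t.val)).ringHomComp (algebraMap AI ℂ)) ^ (2 * ℓ + 1) =
      (χ ^ (M * s.val)).ringHomComp (algebraMap AI ℂ) := by
    rw [MulChar.ringHomComp_pow, ← pow_mul]
    congr 1
    rw [pow_eq_pow_iff_modEq, hχ, hM, mul_comm (4 * ℓ) M, mul_assoc M]
    exact Nat.ModEq.mul_left' M hsmod
  rw [h2, hG, hG] at h1
  have h3 := congrArg v h1
  rw [map_pow, map_pow] at h3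
  exact (pow_left_inj₀ zero_le zero_le (by norm_num)).mp h3

end Pool.Agent.H310.CH
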