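import Pool.Agent.H310.CH.Torus

/-!
# The split case `ℓ ∣ Q - 1`
-/

set_option linter.unusedSectionVars false

namespace Pool.Agent.H310.CH

open Finset

lemma eq_of_add_eq {a b c : ℂ} (ha : ‖a‖ ≤ ‖c‖) (hb : ‖b‖ ≤ ‖c‖) (hab : a + b = 2 * c) :
    a = c ∧ b = c := by
  have h := eq_of_sum_eq (univ : Finset (Fin 2)) (fun i => if i = 0 then a else b) c
    (by intro i _; split_ifs <;> assumption) (by simp [Fin.sum_univ_two, hab])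
  have h0 := h 0 (mem_univ _)
  have h1 := h 1 (mem_univ _)
  simp at h0 h1
  exact ⟨h0, h1⟩

section

variable {K : Type} [Field K] [Fintype K] [DecidableEq K]

lemma norm_gauss {ψ : AddChar K ℂ} (hψ : ψ.IsPrimitive) {χ : MulChar K ℂ} (hχ : χ ≠ 1) :
    ‖gaussSum χ ψ‖ ^ 2 = Fintype.card K := by
  have h1 := gaussSum_mul_gaussSum_eq_card hχ hψ
  rw [← star_gaussSum_eq] at h1
  have h2 : gaussSum χ ψ * star (gaussSum χ ψ) = ((‖gaussSum χ ψ‖ ^ 2 : ℝ) : ℂ) := by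
    rw [← starRingEnd_apply, Complex.mul_conj, Complex.normSq_eq_norm_sq]
  rw [h2] at h1
  exact_mod_cast h1

/-- the character sum `∑ χ(y) η(y + 1)` -/
noncomputable def KK (χ : MulChar K ℂ) : ℂ := ∑ y : K, χ y * qc K (y + 1)

lemma KK_eq (χ : MulChar K ℂ) : KK χ = χ (-1) * jacobiSum χ (qc K) := by
  unfold KK jacobiSum
  rw [mul_sum, ← Equiv.sum_comp (Equiv.neg K)]
  refine sum_congr rfl fun x _ => ?_
  rw [Equiv.neg_apply, ← mul_assoc, ← map_mul, neg_one_mul, neg_add_eq_sub]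

lemma KK_mul {ψ : AddChar K ℂ} {χ : MulChar K ℂ} (h : χ * qc K ≠ 1) :
    gaussSum (χ * qc K) ψ * KK χ = χ (-1) * (gaussSum χ ψ * gaussSum (qc K) ψ) := by
  rw [KK_eq, ← jacobiSum_mul_nontrivial h ψ]; ring

lemma norm_mulChar (χ : MulChar K ℂ) {x : K} (hx : x ≠ 0) : ‖χ x‖ = 1 := by
  have h2 : 0 < Fintype.card K - 1 := by
    have := two_le_card (L := K)
    omega
  have h1 : (χ x) ^ (Fintype.card K - 1) = 1 := by
    rw [← map_pow, FiniteField.pow_card_sub_one_eq_one _ hx, map_one]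
  exact Complex.norm_eq_one_of_pow_eq_one h1 h2.ne'

lemma norm_mulChar_le (χ : MulChar K ℂ) (x : K) : ‖χ x‖ ≤ 1 := by
  by_cases hx : x = 0
  · rw [hx, MulChar.map_zero, norm_zero]; norm_num
  · exact (norm_mulChar χ hx).le

lemma norm_KK (hK : ringChar K ≠ 2) {ψ : AddChar K ℂ} (hψ : ψ.IsPrimitive) {χ : MulChar K ℂ}
    (hχ : χ ≠ 1) (h : χ * qc K ≠ 1) : ‖KK χ‖ ^ 2 = Fintype.card K := by
  have h1 := congrArg (fun z : ℂ => ‖z‖ ^ 2) (KK_mul (ψ := ψ) h)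
  simp only [norm_mul, mul_pow] at h1
  rw [norm_gauss hψ h, norm_gauss hψ hχ, norm_gauss hψ (qc_ne_one hK),
    norm_mulChar χ (neg_ne_zero.mpr one_ne_zero), one_pow, one_mul] at h1
  have h2 : (Fintype.card K : ℝ) ≠ 0 := Nat.cast_ne_zero.mpr Fintype.card_ne_zero
  exact mul_left_cancel₀ h2 h1

end

section

variable {F : Type} [Field F] [Fintype F] [DecidableEq F]

lemma orderOf_theta {K : Type} [Field K] [Fintype K] [DecidableEq K] {ℓ : ℕ} (hℓ : ℓ.Prime)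
    (hℓ4 : ℓ % 4 = 1) {Ψ : MulChar K ℂ} (hΨ : orderOf Ψ = 4 * ℓ) :
    orderOf (Ψ ^ (2 * ℓ + 2)) = ℓ := by
  have : Fact ℓ.Prime := ⟨hℓ⟩
  have h2 := hℓ.two_le
  apply orderOf_eq_prime
  · rw [← pow_mul, ← orderOf_dvd_iff_pow_eq_one, hΨ]
    obtain ⟨c, hc⟩ : ∃ c, ℓ = 2 * c + 1 := ⟨ℓ / 2, by omega⟩
    refine ⟨c + 1, ?_⟩
    have : 2 * ℓ + 2 = 4 * (c + 1) := by omega
    rw [this]; ring
  · intro h
    rw [← orderOf_dvd_iff_pow_eq_one, hΨ] at h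
    have := Nat.le_of_dvd (by omega) h
    omega

lemma odd_pow_ne_one {K : Type} [Field K] [Fintype K] [DecidableEq K] {ℓ : ℕ}
    {Ψ : MulChar K ℂ} (hΨ : orderOf Ψ = 4 * ℓ) {n : ℕ} (hn : n % 2 = 1) : Ψ ^ n ≠ 1 := by
  intro h
  rw [← orderOf_dvd_iff_pow_eq_one, hΨ] at h
  obtain ⟨c, hc⟩ := h
  rw [hc, mul_assoc] at hn
  omega

/-- the twisted sums on the split torus -/
lemma twisted_one (hF : ringChar F ≠ 2) {ℓ : ℕ} (hℓ : ℓ.Prime) (hℓ4 : ℓ % 4 = 1)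
    {Ψ : MulChar F ℂ} (hΨ : orderOf Ψ = 4 * ℓ) (k : ℕ) :
    ∑ u : Fˣ, (Ψ ^ (2 * ℓ + 2)) (u : F) ^ (k + 1) * qc F ((u : F) + ((u⁻¹ : Fˣ) : F)) =
      KK (Ψ ^ ((ℓ + 1) * (k + 1) + ℓ)) + KK (Ψ ^ ((ℓ + 1) * (k + 1) + ℓ) * qc F) := by
  have hqc : Ψ ^ (2 * ℓ) = qc F := pow_eq_qc hF (by have := hℓ.pos; omega) (by rw [hΨ]; ring)
  set n := (ℓ + 1) * (k + 1) + ℓ with hn
  have h1 : ∀ u : Fˣ, (Ψ ^ (2 * ℓ + 2)) (u : F) ^ (k + 1) * qc F ((u : F) + ((u⁻¹ : Fˣ) : F)) =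
      (Ψ ^ n) ((u : F) ^ 2) * qc F ((u : F) ^ 2 + 1) := by
    intro u
    have hu0 : (u : F) ≠ 0 := u.ne_zero
    have h2 : qc F ((u : F) ^ 2 + 1) = qc F (u : F) * qc F ((u : F) + ((u⁻¹ : Fˣ) : F)) := by
      rw [← map_mul]
      congr 1
      rw [Units.val_inv_eq_inv_val]
      field_simp
    have h3 : (Ψ ^ n) ((u : F) ^ 2) = (Ψ ^ (2 * ℓ + 2)) (u : F) ^ (k + 1) * qc F (u : F) := by
      rw [← hqc, MulChar.pow_apply_coe, MulChar.pow_apply_coe, ← Units.val_pow_eq_pow_val,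
        MulChar.pow_apply_coe, Units.val_pow_eq_pow_val, map_pow, ← pow_mul, ← pow_mul, ← pow_add]
      congr 1
      rw [hn]; ring
    rw [h2, h3]
    linear_combination (-(Ψ ^ (2 * ℓ + 2)) (u : F) ^ (k + 1) *
      qc F ((u : F) + ((u⁻¹ : Fˣ) : F))) * qc_mul_self hu0
  rw [sum_congr rfl fun u _ => h1 u]
  have h2 := sum_units (fun y : F => (Ψ ^ n) (y ^ 2) * qc F (y ^ 2 + 1)) (by
    simp [MulChar.map_zero])
  rw [← h2]
  have h3 := sum_sq hF (fun y : F => (Ψ ^ n) y * qc F (y + 1))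
  rw [h3]
  unfold KK
  rw [← sum_add_distrib]
  refine sum_congr rfl fun y _ => ?_
  rw [MulChar.mul_apply]; ring

/-- the difference of the two sums on the split torus -/
lemma split_sum (hF : ringChar F ≠ 2) {ℓ : ℕ} (hℓ : ℓ.Prime) (hℓ4 : ℓ % 4 = 1)
    {Ψ : MulChar F ℂ} (hΨ : orderOf Ψ = 4 * ℓ) :
    ∑ u : Fˣ, qc F ((((u ^ ℓ : Fˣ)) : F) + (((u ^ ℓ)⁻¹ : Fˣ) : F)) -
      ∑ u : Fˣ, qc F ((u : F) + ((u⁻¹ : Fˣ) : F)) =
      ∑ k ∈ range (ℓ - 1), (KK (Ψ ^ ((ℓ + 1) * (k + 1) + ℓ)) +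
        KK (Ψ ^ ((ℓ + 1) * (k + 1) + ℓ) * qc F)) := by
  have h1 := fold (orderOf_theta hℓ hℓ4 hΨ) (fun u : Fˣ => qc F ((u : F) + ((u⁻¹ : Fˣ) : F)))
  rw [h1, show ℓ = ℓ - 1 + 1 by have := hℓ.pos; omega, sum_range_succ']
  simp only [pow_zero, one_mul, add_sub_cancel_right]
  rw [show ℓ - 1 + 1 = ℓ by have := hℓ.pos; omega]
  exact sum_congr rfl fun k _ => twisted_one hF hℓ hℓ4 hΨ k

theorem case_one {p : ℕ} [Fact p.Prime] [Algebra (ZMod p) F] (hF : ringChar F ≠ 2) {ℓ : ℕ}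
    (hℓ : ℓ.Prime) (hℓ4 : ℓ % 4 = 1) {q : ℕ} (hq : Fintype.card F = q ^ 2)
    (hsum : ∑ u : Fˣ, qc F ((((u ^ ℓ : Fˣ)) : F) + (((u ^ ℓ)⁻¹ : Fˣ) : F)) -
      ∑ u : Fˣ, qc F ((u : F) + ((u⁻¹ : Fˣ) : F)) = ((ℓ - 1 : ℕ) : ℂ) * (2 * (q : ℂ)))
    (ζ : ℂ) (hζ : IsPrimitiveRoot ζ p) (Ψ : MulChar F ℂ) (hΨ : orderOf Ψ = 4 * ℓ) :
    gaussSum Ψ (psi hζ.pow_eq_one) ^ 2 =
      gaussSum (Ψ ^ (2 * ℓ + 1)) (psi hζ.pow_eq_one) ^ 2 := by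
  have hℓ2 := hℓ.two_le
  have hqc : Ψ ^ (2 * ℓ) = qc F := pow_eq_qc hF (by omega) (by rw [hΨ]; ring)
  have hprim : (psi hζ.pow_eq_one : AddChar F ℂ).IsPrimitive := psi_prim hζ
  have hq0 : (0 : ℝ) < q := by
    have : 0 < Fintype.card F := Fintype.card_pos
    rw [hq] at this
    have : 0 < q := Nat.pos_of_ne_zero (by rintro rfl; simp at this)
    exact_mod_cast this
  have hnorm : ∀ n : ℕ, n % 2 = 1 → ‖KK (Ψ ^ n)‖ = q := by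
    intro n hn
    have h1 := norm_KK hF hprim (odd_pow_ne_one hΨ hn) (by
      rw [← hqc, ← pow_add]
      exact odd_pow_ne_one hΨ (by omega))
    rw [hq] at h1
    push_cast at h1
    exact (pow_left_inj₀ (norm_nonneg _) hq0.le two_ne_zero).mp h1
  have hnorm' : ∀ n : ℕ, n % 2 = 1 → ‖KK (Ψ ^ n * qc F)‖ = q := by
    intro n hn
    rw [← hqc, ← pow_add]
    exact hnorm _ (by omega)
  rw [split_sum hF hℓ hℓ4 hΨ] at hsum
  have hodd : ∀ k, ((ℓ + 1) * (k + 1) + ℓ) % 2 = 1 := by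
    intro k
    obtain ⟨c, hc⟩ : ∃ c, ℓ = 2 * c + 1 := ⟨ℓ / 2, by omega⟩
    have : (ℓ + 1) * (k + 1) + ℓ = 2 * ((c + 1) * (k + 1) + c) + 1 := by rw [hc]; ring
    rw [this]; omega
  have hcq : ‖(2 * (q : ℂ))‖ = 2 * q := by
    rw [norm_mul]; simp
  have h1 := eq_of_sum_eq (range (ℓ - 1)) (fun k => KK (Ψ ^ ((ℓ + 1) * (k + 1) + ℓ)) +
    KK (Ψ ^ ((ℓ + 1) * (k + 1) + ℓ) * qc F)) (2 * (q : ℂ)) (fun k _ => by
    rw [hcq]
    refine (norm_add_le _ _).trans ?_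
    rw [hnorm _ (hodd k), hnorm' _ (hodd k)]
    linarith) (by rw [hsum, card_range]) 0 (mem_range.mpr (by omega))
  simp only [zero_add, mul_one] at h1
  have hodd0 : (ℓ + 1 + ℓ) % 2 = 1 := by omega
  have hnq : ‖(q : ℂ)‖ = q := by simp
  obtain ⟨h2, h3⟩ := eq_of_add_eq (c := (q : ℂ)) (by rw [hnorm _ hodd0, hnq])
    (by rw [hnorm' _ hodd0, hnq]) h1
  have e1 : ℓ + 1 + ℓ = 2 * ℓ + 1 := by ring
  have e2 : Ψ ^ (2 * ℓ + 1) * qc F = Ψ := by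
    rw [← hqc, ← pow_add, show 2 * ℓ + 1 + 2 * ℓ = 4 * ℓ + 1 by ring, pow_succ, ← hΨ,
      pow_orderOf_eq_one, one_mul]
  rw [e1] at h2 h3
  rw [e2] at h3
  have e3 : Ψ * qc F = Ψ ^ (2 * ℓ + 1) := by rw [← hqc, pow_succ, mul_comm]
  -- the two Jacobi sum relations
  have k1 := KK_mul (ψ := psi hζ.pow_eq_one) (χ := Ψ) (by
    rw [e3]; exact odd_pow_ne_one hΨ (by omega))
  have k2 := KK_mul (ψ := psi hζ.pow_eq_one) (χ := Ψ ^ (2 * ℓ + 1)) (by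
    rw [e2]
    have := odd_pow_ne_one hΨ (n := 1) rfl
    rwa [pow_one] at this)
  rw [e3, h3] at k1
  rw [e2, h2] at k2
  have hneg : (Ψ ^ (2 * ℓ + 1)) (-1) = Ψ (-1) := by
    have h4 : Ψ (-1) ^ 2 = 1 := by
      rw [← map_pow]; norm_num
    rw [MulChar.pow_apply' _ (by omega), pow_succ, pow_mul, h4, one_pow, one_mul]
  rw [hneg] at k2
  have hqC : (q : ℂ) ≠ 0 := by
    have : (q : ℝ) ≠ 0 := hq0.ne'
    exact_mod_cast this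
  set A := gaussSum Ψ (psi hζ.pow_eq_one) with hA
  set B := gaussSum (Ψ ^ (2 * ℓ + 1)) (psi hζ.pow_eq_one) with hB
  apply mul_left_cancel₀ hqC
  linear_combination A * k2 - B * k1

end

end Pool.Agent.H310.CH
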