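import Pool.Agent.H310.CH.CaseOne

/-!
# The nonsplit case `ℓ ∣ Q + 1`
-/

set_option linter.unusedSectionVars false

namespace Pool.Agent.H310.CH

open Finset

section

variable {F E : Type} [Field F] [Fintype F] [DecidableEq F] [Field E] [Fintype E] [DecidableEq E]
  [Algebra F E] {Q : ℕ} (hQ : Fintype.card F = Q) (hE : Fintype.card E = Q ^ 2) (hodd : Q % 2 = 1)

include hQ hodd in
lemma hF2 : ringChar F ≠ 2 := by
  apply ringChar_ne_two_of_odd
  rw [hQ, hodd]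

include hE hodd in
lemma hE2 : ringChar E ≠ 2 := by
  apply ringChar_ne_two_of_odd
  rw [hE, sq, Nat.mul_mod, hodd]

include hQ hE in
lemma finrank_two : Module.finrank F E = 2 := by
  have h1 := Module.card_eq_pow_finrank (K := F) (V := E)
  rw [hQ, hE] at h1
  exact (Nat.pow_right_injective (two_le_Q hQ) h1).symm

include hQ hE in
lemma alg_trace (y : E) : algebraMap F E (Algebra.trace F E y) = y + y ^ Q := by
  have h1 := FiniteField.algebraMap_trace_eq_sum_pow F E y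
  rw [finrank_two hQ hE, sum_range_succ, sum_range_one, Nat.card_eq_fintype_card, hQ] at h1
  rw [h1]; simp

include hQ hE in
lemma alg_norm (y : E) : algebraMap F E (Algebra.norm F y) = y ^ (Q + 1) := by
  have h1 := FiniteField.algebraMap_norm_eq_pow (K := F) (x := y)
  rw [Nat.card_eq_fintype_card, Nat.card_eq_fintype_card, hQ, hE] at h1
  have h2 := two_le_Q hQ
  have h3 : (Q ^ 2 - 1) / (Q - 1) = Q + 1 := by
    have : Q ^ 2 - 1 = (Q + 1) * (Q - 1) := by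
      obtain ⟨c, rfl⟩ : ∃ c, Q = c + 1 := ⟨Q - 1, by omega⟩
      rw [Nat.add_sub_cancel]
      have : (c + 1) ^ 2 = (c + 1 + 1) * c + 1 := by ring
      rw [this]; omega
    rw [this, Nat.mul_div_cancel _ (by omega)]
  rw [h3] at h1
  exact h1

include hQ hE hodd in
lemma qc_norm (w : Eˣ) : qc F (Algebra.norm F (w : E)) = qc E (w : E) := by
  have hF := hF2 hQ hodd
  have hEE := hE2 hE hodd
  have hw0 : (w : E) ≠ 0 := w.ne_zero
  have hn0 : Algebra.norm F (w : E) ≠ 0 := by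
    intro h
    have := alg_norm hQ hE (w : E)
    rw [h, map_zero] at this
    exact (pow_ne_zero _ hw0) this.symm
  have h1 : (algebraMap F E) ((quadraticChar F (Algebra.norm F (w : E)) : ℤ) : F) =
      ((quadraticChar E (w : E) : ℤ) : E) := by
    rw [quadraticChar_eq_pow_of_char_ne_two' hF, quadraticChar_eq_pow_of_char_ne_two' hEE,
      map_pow, alg_norm hQ hE, ← pow_mul, hQ, hE]
    congr 1
    obtain ⟨c, rfl⟩ : ∃ c, Q = 2 * c + 1 := ⟨Q / 2, by omega⟩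
    have e1 : (2 * c + 1) / 2 = c := by omega
    have e2 : (2 * c + 1) ^ 2 = 2 * ((2 * c + 1 + 1) * c) + 1 := by ring
    rw [e1, e2]; omega
  have h2E : (2 : E) ≠ 0 := Ring.two_ne_zero hEE
  have h3 : quadraticChar F (Algebra.norm F (w : E)) = quadraticChar E (w : E) := by
    rw [map_intCast] at h1
    rcases quadraticChar_dichotomy hn0 with h | h <;>
      rcases quadraticChar_dichotomy hw0 with h' | h'
    · rw [h, h']
    · exfalso
      rw [h, h'] at h1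
      push_cast at h1
      apply h2E
      linear_combination h1
    · exfalso
      rw [h, h'] at h1
      push_cast at h1
      apply h2E
      linear_combination -h1
    · rw [h, h']
  rw [qc_apply, qc_apply, h3]

/-- the summand on the norm one torus -/
noncomputable def HH (F : Type) {E : Type} [Field F] [Fintype F] [DecidableEq F] [Field E]
    [Algebra F E] (t : Eˣ) : ℂ := qc F (RR F E ((t : E) + (t⁻¹ : Eˣ)))

include hQ hE hodd in
lemma HH_pow (w : Eˣ) :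
    HH F (w ^ (Q - 1)) = qc F (Algebra.trace F E ((w : E) ^ 2)) * qc E (w : E) := by
  have h2 := two_le_Q hQ
  have hw0 : (w : E) ≠ 0 := w.ne_zero
  set n := Algebra.norm F (w : E) with hn
  set τ := Algebra.trace F E ((w : E) ^ 2) with hτ
  have hnι : algebraMap F E n = (w : E) ^ (Q + 1) := alg_norm hQ hE _
  have hn0 : n ≠ 0 := by
    intro h
    rw [h, map_zero] at hnι
    exact (pow_ne_zero _ hw0) hnι.symm
  have h1 : (((w ^ (Q - 1) : Eˣ)) : E) + (((w ^ (Q - 1))⁻¹ : Eˣ) : E) =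
      algebraMap F E (τ * n⁻¹) := by
    rw [map_mul, map_inv₀, hnι, hτ, alg_trace hQ hE, Units.val_inv_eq_inv_val,
      Units.val_pow_eq_pow_val]
    obtain ⟨c, rfl⟩ : ∃ c, Q = c + 1 := ⟨Q - 1, by omega⟩
    rw [Nat.add_sub_cancel]
    field_simp
    ring
  unfold HH
  rw [h1, RR_alg, map_mul, ← qc_norm hQ hE hodd w, ← hn]
  congr 1
  have h3 : qc F n⁻¹ * qc F n = 1 := by rw [← map_mul, inv_mul_cancel₀ hn0, map_one]
  have h4 := qc_mul_self hn0
  have h5 : qc F n ≠ 0 := left_ne_zero_of_mul_eq_one h4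
  exact mul_right_cancel₀ h5 (by rw [h3, h4])

/-- the character sum `∑ Ψ(v) η(Tr v)` -/
noncomputable def EE (F : Type) {E : Type} [Field F] [Fintype F] [DecidableEq F] [Field E]
    [Fintype E] [Algebra F E] (Ψ : MulChar E ℂ) : ℂ := ∑ v : E, Ψ v * qc F (Algebra.trace F E v)

/-- the twisted sums on the nonsplit torus -/
lemma twisted_two (hQ : Fintype.card F = Q) (hE : Fintype.card E = Q ^ 2) (hodd : Q % 2 = 1)
    {ℓ : ℕ} (hℓ : ℓ.Prime) {Ψ : MulChar E ℂ} (hΨ : orderOf Ψ = 4 * ℓ) (k : ℕ) :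
    ∑ w : Eˣ, (Ψ ^ (2 * ℓ + 2)) (w : E) ^ (k + 1) * HH F (w ^ (Q - 1)) =
      EE F (Ψ ^ ((ℓ + 1) * (k + 1) + ℓ)) + EE F (Ψ ^ ((ℓ + 1) * (k + 1) + ℓ) * qc E) := by
  have hEE := hE2 hE hodd
  have hqc : Ψ ^ (2 * ℓ) = qc E := pow_eq_qc hEE (by have := hℓ.pos; omega) (by rw [hΨ]; ring)
  set n := (ℓ + 1) * (k + 1) + ℓ with hn
  have h1 : ∀ w : Eˣ, (Ψ ^ (2 * ℓ + 2)) (w : E) ^ (k + 1) * HH F (w ^ (Q - 1)) =
      (Ψ ^ n) ((w : E) ^ 2) * qc F (Algebra.trace F E ((w : E) ^ 2)) := by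
    intro w
    have h3 : (Ψ ^ n) ((w : E) ^ 2) = (Ψ ^ (2 * ℓ + 2)) (w : E) ^ (k + 1) * qc E (w : E) := by
      rw [← hqc, MulChar.pow_apply_coe, MulChar.pow_apply_coe, ← Units.val_pow_eq_pow_val,
        MulChar.pow_apply_coe, Units.val_pow_eq_pow_val, map_pow, ← pow_mul, ← pow_mul, ← pow_add]
      congr 1
      rw [hn]; ring
    rw [HH_pow hQ hE hodd, h3]
    ring
  rw [sum_congr rfl fun w _ => h1 w]
  have h2 := sum_units (fun y : E => (Ψ ^ n) (y ^ 2) * qc F (Algebra.trace F E (y ^ 2))) (by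
    simp [MulChar.map_zero])
  rw [← h2]
  have h3 := sum_sq hEE (fun y : E => (Ψ ^ n) y * qc F (Algebra.trace F E y))
  rw [h3]
  unfold EE
  rw [← sum_add_distrib]
  refine sum_congr rfl fun y _ => ?_
  rw [MulChar.mul_apply]; ring

lemma nonsplit_sum (hQ : Fintype.card F = Q) (hE : Fintype.card E = Q ^ 2) (hodd : Q % 2 = 1)
    {ℓ : ℕ} (hℓ : ℓ.Prime) (hℓ4 : ℓ % 4 = 1) {Ψ : MulChar E ℂ} (hΨ : orderOf Ψ = 4 * ℓ) :
    ((Q - 1 : ℕ) : ℂ) * (∑ t ∈ T2 E Q, HH F (t ^ ℓ) - ∑ t ∈ T2 E Q, HH F t) =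
      ∑ k ∈ range (ℓ - 1), (EE F (Ψ ^ ((ℓ + 1) * (k + 1) + ℓ)) +
        EE F (Ψ ^ ((ℓ + 1) * (k + 1) + ℓ) * qc E)) := by
  have h2 := two_le_Q hQ
  have hab : (Q - 1) * (Q + 1) = Fintype.card Eˣ := by
    rw [Fintype.card_units, hE]
    obtain ⟨c, rfl⟩ : ∃ c, Q = c + 1 := ⟨Q - 1, by omega⟩
    rw [Nat.add_sub_cancel]
    have : (c + 1) ^ 2 = c * (c + 1 + 1) + 1 := by ring
    rw [this]; omega
  have e1 := sum_pow_eq hab (fun t : Eˣ => HH F (t ^ ℓ))
  have e2 := sum_pow_eq hab (fun t : Eˣ => HH F t)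
  have e3 : ∑ w : Eˣ, HH F ((w ^ (Q - 1)) ^ ℓ) = ∑ w : Eˣ, HH F ((w ^ ℓ) ^ (Q - 1)) := by
    refine sum_congr rfl fun w _ => ?_
    rw [← pow_mul, ← pow_mul, mul_comm]
  unfold T2
  rw [mul_sub, ← e1, ← e2, e3]
  have h1 := fold (orderOf_theta hℓ hℓ4 hΨ) (fun w : Eˣ => HH F (w ^ (Q - 1)))
  rw [h1, show ℓ = ℓ - 1 + 1 by have := hℓ.pos; omega, sum_range_succ']
  simp only [pow_zero, one_mul, add_sub_cancel_right]
  rw [show ℓ - 1 + 1 = ℓ by have := hℓ.pos; omega]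
  exact sum_congr rfl fun k _ => twisted_two hQ hE hodd hℓ hΨ k

/-- the character sum over `F` -/
noncomputable def lam (F : Type) {E : Type} [Field F] [Fintype F] [DecidableEq F] [Field E]
    [Fintype E] [Algebra F E] (Ψ : MulChar E ℂ) : ℂ := ∑ c : F, qc F c * Ψ⁻¹ (algebraMap F E c)

include hQ in
lemma norm_lam (Ψ : MulChar E ℂ) : ‖lam F Ψ‖ ≤ (Q : ℝ) - 1 := by
  have h2 := two_le_Q hQ
  unfold lam
  rw [sum_units _ (by rw [MulChar.map_zero, zero_mul])]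
  refine (norm_sum_le _ _).trans ?_
  have h1 : ∀ u ∈ (univ : Finset Fˣ), ‖qc F (u : F) * Ψ⁻¹ (algebraMap F E (u : F))‖ ≤ 1 := by
    intro u _
    rw [norm_mul]
    exact mul_le_one₀ (norm_mulChar_le _ _) (norm_nonneg _) (norm_mulChar_le _ _)
  refine (sum_le_sum h1).trans ?_
  rw [sum_const, card_univ, Fintype.card_units, hQ, nsmul_eq_mul, mul_one, Nat.cast_sub (by omega)]
  simp

variable {p : ℕ} [Fact p.Prime] [Algebra (ZMod p) F] [Algebra (ZMod p) E]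
  [IsScalarTower (ZMod p) F E]

lemma psi_trace {ζ : ℂ} (hζ : ζ ^ p = 1) (y : E) :
    (psi hζ : AddChar E ℂ) y = (psi hζ : AddChar F ℂ) (Algebra.trace F E y) := by
  rw [psi_apply, psi_apply, Algebra.trace_trace]

/-- the relation between the sums and Gauss sums -/
lemma EE_gauss {ζ : ℂ} (hζ : IsPrimitiveRoot ζ p) (hF : ringChar F ≠ 2) (Ψ : MulChar E ℂ) :
    gaussSum (qc F) (psi hζ.pow_eq_one) * EE F Ψ =
      lam F Ψ * gaussSum Ψ (psi hζ.pow_eq_one) := by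
  have h1 : ∀ a : F, qc F a * gaussSum (qc F) (psi hζ.pow_eq_one) =
      ∑ c : F, qc F c * (psi hζ.pow_eq_one : AddChar F ℂ) (c * a) := by
    intro a
    by_cases ha : a = 0
    · rw [ha, MulChar.map_zero, zero_mul]
      simp only [mul_zero, AddChar.map_zero_eq_one, mul_one]
      exact (MulChar.sum_eq_zero_of_ne_one (qc_ne_one hF)).symm
    · have h2 := gaussSum_mulShift (qc F) (psi hζ.pow_eq_one) (Units.mk0 a ha)
      rw [Units.val_mk0] at h2
      have h3 : gaussSum (qc F) ((psi hζ.pow_eq_one : AddChar F ℂ).mulShift a) =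
          ∑ c : F, qc F c * (psi hζ.pow_eq_one : AddChar F ℂ) (c * a) := by
        unfold gaussSum
        refine sum_congr rfl fun c _ => ?_
        rw [AddChar.mulShift_apply, mul_comm a c]
      rw [← h3, ← h2, ← mul_assoc, qc_mul_self ha, one_mul]
  unfold EE
  rw [mul_sum]
  have h2 : ∀ v : E, gaussSum (qc F) (psi hζ.pow_eq_one) * (Ψ v * qc F (Algebra.trace F E v)) =
      ∑ c : F, qc F c * (Ψ v * (psi hζ.pow_eq_one : AddChar E ℂ) (algebraMap F E c * v)) := by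
    intro v
    have h3 := h1 (Algebra.trace F E v)
    calc gaussSum (qc F) (psi hζ.pow_eq_one) * (Ψ v * qc F (Algebra.trace F E v)) =
        Ψ v * (qc F (Algebra.trace F E v) * gaussSum (qc F) (psi hζ.pow_eq_one)) := by ring
      _ = _ := by
        rw [h3, mul_sum]
        refine sum_congr rfl fun c _ => ?_
        have h4 : (psi hζ.pow_eq_one : AddChar E ℂ) (algebraMap F E c * v) =
            (psi hζ.pow_eq_one : AddChar F ℂ) (c * Algebra.trace F E v) := by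
          rw [psi_trace (F := F), ← Algebra.smul_def, map_smul, smul_eq_mul]
        rw [h4]; ring
  rw [sum_congr rfl fun v _ => h2 v, sum_comm]
  unfold lam
  rw [sum_mul]
  refine sum_congr rfl fun c _ => ?_
  by_cases hc : c = 0
  · rw [hc, MulChar.map_zero]; simp
  · have hc' : algebraMap F E c ≠ 0 := by
      rw [Ne, map_eq_zero_iff _ (algebraMap F E).injective]; exact hc
    rw [← mul_sum, mul_assoc]
    congr 1
    have h3 := gaussSum_mulShift_eq Ψ (psi hζ.pow_eq_one) (Units.mk0 _ hc')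
    rw [Units.val_mk0] at h3
    rw [← h3]
    unfold gaussSum
    refine sum_congr rfl fun v _ => ?_
    rw [AddChar.mulShift_apply]

theorem case_two (hQ : Fintype.card F = Q) (hE : Fintype.card E = Q ^ 2) (hodd : Q % 2 = 1)
    {ℓ : ℕ} (hℓ : ℓ.Prime) (hℓ4 : ℓ % 4 = 1) {q : ℕ} (hq : Q = q ^ 2)
    (hsum : ∑ t ∈ T2 E Q, HH F (t ^ ℓ) - ∑ t ∈ T2 E Q, HH F t = ((ℓ - 1 : ℕ) : ℂ) * (2 * (q : ℂ)))
    (ζ : ℂ) (hζ : IsPrimitiveRoot ζ p) (Ψ : MulChar E ℂ) (hΨ : orderOf Ψ = 4 * ℓ) :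
    gaussSum Ψ (psi hζ.pow_eq_one) ^ 2 =
      gaussSum (Ψ ^ (2 * ℓ + 1)) (psi hζ.pow_eq_one) ^ 2 := by
  have hℓ2 := hℓ.two_le
  have h2Q := two_le_Q hQ
  have hF := hF2 hQ hodd
  have hEE := hE2 hE hodd
  have hqc : Ψ ^ (2 * ℓ) = qc E := pow_eq_qc hEE (by omega) (by rw [hΨ]; ring)
  have hprimE : (psi hζ.pow_eq_one : AddChar E ℂ).IsPrimitive := psi_prim hζ
  have hprimF : (psi hζ.pow_eq_one : AddChar F ℂ).IsPrimitive := psi_prim hζ
  have hq0 : (0 : ℝ) < q := by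
    have : 0 < q := Nat.pos_of_ne_zero (by rintro rfl; simp at hq; omega)
    exact_mod_cast this
  have hQR : (Q : ℝ) = (q : ℝ) ^ 2 := by rw [hq]; push_cast; ring
  set gF := gaussSum (qc F) (psi hζ.pow_eq_one : AddChar F ℂ) with hgF
  have hgFn : ‖gF‖ = q := by
    have h1 := norm_gauss hprimF (qc_ne_one hF)
    rw [hQ, hQR] at h1
    exact (pow_left_inj₀ (norm_nonneg _) hq0.le two_ne_zero).mp h1
  have hgF0 : gF ≠ 0 := by
    intro h; rw [h, norm_zero] at hgFn; exact hq0.ne hgFn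
  have hgE : ∀ n : ℕ, n % 2 = 1 → ‖gaussSum (Ψ ^ n) (psi hζ.pow_eq_one : AddChar E ℂ)‖ = Q := by
    intro n hn
    have h1 := norm_gauss hprimE (odd_pow_ne_one hΨ hn)
    rw [hE] at h1
    push_cast at h1
    exact (pow_left_inj₀ (norm_nonneg _) (Nat.cast_nonneg _) two_ne_zero).mp h1
  have hQ1 : (0 : ℝ) < (Q : ℝ) - 1 := by
    have : (2 : ℝ) ≤ Q := by exact_mod_cast h2Q
    linarith
  have hz : ∀ n : ℕ, n % 2 = 1 → ‖gF * EE F (Ψ ^ n)‖ ≤ ((Q : ℝ) - 1) * Q := by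
    intro n hn
    rw [hgF, EE_gauss hζ hF, norm_mul, hgE n hn]
    exact mul_le_mul_of_nonneg_right (norm_lam hQ _) (Nat.cast_nonneg _)
  have hz' : ∀ n : ℕ, n % 2 = 1 → ‖gF * EE F (Ψ ^ n * qc E)‖ ≤ ((Q : ℝ) - 1) * Q := by
    intro n hn
    rw [← hqc, ← pow_add]
    exact hz _ (by omega)
  have hoddk : ∀ k, ((ℓ + 1) * (k + 1) + ℓ) % 2 = 1 := by
    intro k
    obtain ⟨c, hc⟩ : ∃ c, ℓ = 2 * c + 1 := ⟨ℓ / 2, by omega⟩
    have : (ℓ + 1) * (k + 1) + ℓ = 2 * ((c + 1) * (k + 1) + c) + 1 := by rw [hc]; ring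
    rw [this]; omega
  set c : ℂ := ((Q : ℂ) - 1) * q * gF with hc
  have hcn : ‖c‖ = ((Q : ℝ) - 1) * Q := by
    have e1 : ‖(Q : ℂ) - 1‖ = (Q : ℝ) - 1 := by
      have : (Q : ℂ) - 1 = (((Q : ℝ) - 1 : ℝ) : ℂ) := by push_cast; ring
      rw [this, Complex.norm_real, Real.norm_of_nonneg hQ1.le]
    rw [hc, norm_mul, norm_mul, e1, hgFn, hQR]
    simp
    ring
  have hc2n : ‖2 * c‖ = 2 * (((Q : ℝ) - 1) * Q) := by
    rw [norm_mul, hcn]; simp
  have hkey := nonsplit_sum hQ hE hodd hℓ hℓ4 hΨ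
  rw [hsum] at hkey
  have h1 := eq_of_sum_eq (range (ℓ - 1)) (fun k => gF * EE F (Ψ ^ ((ℓ + 1) * (k + 1) + ℓ)) +
    gF * EE F (Ψ ^ ((ℓ + 1) * (k + 1) + ℓ) * qc E)) (2 * c) (fun k _ => by
    rw [hc2n]
    refine (norm_add_le _ _).trans ?_
    have := hz _ (hoddk k)
    have := hz' _ (hoddk k)
    linarith) (by
      rw [card_range]
      have : ∀ k, gF * EE F (Ψ ^ ((ℓ + 1) * (k + 1) + ℓ)) +
          gF * EE F (Ψ ^ ((ℓ + 1) * (k + 1) + ℓ) * qc E) =
          gF * (EE F (Ψ ^ ((ℓ + 1) * (k + 1) + ℓ)) +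
            EE F (Ψ ^ ((ℓ + 1) * (k + 1) + ℓ) * qc E)) := fun k => by ring
      rw [sum_congr rfl fun k _ => this k, ← mul_sum, ← hkey, hc, Nat.cast_sub (by omega : 1 ≤ Q)]
      push_cast
      ring) 0 (mem_range.mpr (by omega))
  simp only [zero_add, mul_one] at h1
  have hodd0 : (ℓ + 1 + ℓ) % 2 = 1 := by omega
  obtain ⟨h2, h3⟩ := eq_of_add_eq (c := c) (by rw [hcn]; exact hz _ hodd0)
    (by rw [hcn]; exact hz' _ hodd0) h1
  have e1 : ℓ + 1 + ℓ = 2 * ℓ + 1 := by ring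
  have e2 : Ψ ^ (2 * ℓ + 1) * qc E = Ψ := by
    rw [← hqc, ← pow_add, show 2 * ℓ + 1 + 2 * ℓ = 4 * ℓ + 1 by ring, pow_succ, ← hΨ,
      pow_orderOf_eq_one, one_mul]
  rw [e1] at h2 h3
  rw [e2] at h3
  have e3 : Ψ * qc E = Ψ ^ (2 * ℓ + 1) := by rw [← hqc, pow_succ, mul_comm]
  rw [hgF, EE_gauss hζ hF] at h2 h3
  have hlam : lam F (Ψ ^ (2 * ℓ + 1)) = lam F Ψ := by
    unfold lam
    refine sum_congr rfl fun x _ => ?_
    by_cases hx : x = 0
    · rw [hx, MulChar.map_zero, zero_mul, zero_mul]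
    · congr 1
      have hx' : algebraMap F E x ≠ 0 := by
        rw [Ne, map_eq_zero_iff _ (algebraMap F E).injective]; exact hx
      obtain ⟨s, hs⟩ := alg_square (E := E) hQ hE hodd x
      have hs0 : s ≠ 0 := by
        rintro rfl
        apply hx'
        rw [← hs]; ring
      rw [MulChar.inv_apply', MulChar.inv_apply', ← e3, MulChar.mul_apply, ← hs, ← inv_pow,
        qc_of_sq (inv_ne_zero hs0), mul_one]
  have hc0 : c ≠ 0 := by
    intro h
    rw [h, norm_zero] at hcn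
    have : (0 : ℝ) < ((Q : ℝ) - 1) * Q := by
      apply mul_pos hQ1
      rw [hQR]; positivity
    exact this.ne hcn
  rw [hlam] at h2
  have hl0 : lam F Ψ ≠ 0 := by
    intro h
    rw [h, zero_mul] at h3
    exact hc0 h3.symm
  have h4 : gaussSum Ψ (psi hζ.pow_eq_one) = gaussSum (Ψ ^ (2 * ℓ + 1)) (psi hζ.pow_eq_one) := by
    apply mul_left_cancel₀ hl0
    rw [h2, h3]
  rw [h4]

end

end Pool.Agent.H310.CH
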