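import Pool.Agent.H310.CH.Rel2

/-!
# Combinatorial consequences of the digit sum relations
-/

set_option linter.unusedSectionVars false

namespace Pool.Agent.H310.CH

open Finset Pool.Agent.H916K Pool.Agent.H916R2

/-- the character `χ₄` with complex values -/
noncomputable def chi4 : DirichletCharacter ℂ 4 := ZMod.χ₄.ringHomComp (Int.castRingHom ℂ)

lemma chi4_one {a : ℤ} (ha : a % 4 = 1) : chi4 (a : ZMod 4) = 1 := by
  unfold chi4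
  rw [MulChar.ringHomComp_apply, ZMod.χ₄_int_one_mod_four ha]; simp

lemma chi4_three {a : ℤ} (ha : a % 4 = 3) : chi4 (a : ZMod 4) = -1 := by
  unfold chi4
  rw [MulChar.ringHomComp_apply, ZMod.χ₄_int_three_mod_four ha]; simp

/-- the Stickelberger sum vanishes at a residue fixed by a unit with nontrivial value -/
lemma SS_fix {m : ℕ} [NeZero m] {χ : DirichletCharacter ℂ m} {a s : ZMod m}
    (hs : s * a = a) (h0 : χ s ≠ 0) (h1 : χ s ≠ 1) : SS χ a = 0 := by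
  obtain ⟨u, rfl⟩ := isUnit_of_char h0
  have e1 := SS_unit χ u a
  rw [hs] at e1
  have h2 : (1 - (χ (u : ZMod m))⁻¹) * SS χ a = 0 := by linear_combination e1
  refine (mul_eq_zero.mp h2).resolve_left ?_
  intro h3
  apply h1
  have h4 : (χ (u : ZMod m))⁻¹ = 1 := (sub_eq_zero.mp h3).symm
  exact inv_eq_one.mp h4

lemma SS_of_unit {m : ℕ} [NeZero m] {χ : DirichletCharacter ℂ m} (h : SS χ 1 = 0) {a : ZMod m}
    (ha : IsUnit a) : SS χ a = 0 := by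
  obtain ⟨A, rfl⟩ := ha
  have := SS_unit χ A 1
  rw [mul_one, h, mul_zero] at this
  exact this

lemma four_mul_eq_zero (e : ℕ) : (4 : ZMod (4 * e)) * (e : ZMod (4 * e)) = 0 := by
  have h1 : ((4 * e : ℕ) : ZMod (4 * e)) = 0 := ZMod.natCast_self _
  push_cast at h1
  exact h1

/-- no relation for a prime `ℓ ≡ 3 (mod 4)` -/
theorem no_three_mod_four {ℓ p r : ℕ} (hℓ : ℓ.Prime) (hℓ4 : ℓ % 4 = 3) (hp4 : p % 4 = 1)
    (hpℓ : ¬ ℓ ∣ p) (hr : r ≠ 0) (H : DigitRel ℓ p r) : False := by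
  have hℓ2 := hℓ.two_le
  have : NeZero (4 * ℓ) := ⟨by omega⟩
  have : Fact ℓ.Prime := ⟨hℓ⟩
  have hℓi : Prime (ℓ : ℤ) := Nat.prime_iff_prime_int.mp hℓ
  set χ : DirichletCharacter ℂ (4 * ℓ) :=
    DirichletCharacter.changeLevel (Dvd.intro ℓ rfl : 4 ∣ 4 * ℓ) chi4 with hχ
  have hcop : ∀ a : ℤ, IsCoprime a ((4 * ℓ : ℕ) : ℤ) ↔ ¬ (2 : ℤ) ∣ a ∧ ¬ (ℓ : ℤ) ∣ a := by
    intro a
    have h4 : ((4 * ℓ : ℕ) : ℤ) = 2 ^ 2 * (ℓ : ℤ) := by push_cast; ring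
    rw [h4, IsCoprime.mul_right_iff, IsCoprime.pow_right_iff (by norm_num)]
    rw [isCoprime_comm, Int.prime_two.coprime_iff_not_dvd, isCoprime_comm (x := a),
      hℓi.coprime_iff_not_dvd]
  have hval : ∀ a : ℤ, IsCoprime a ((4 * ℓ : ℕ) : ℤ) → χ (a : ZMod (4 * ℓ)) = chi4 (a : ZMod 4) :=
    fun a ha => DirichletCharacter.changeLevel_eq_cast_of_dvd' _ _ ha
  have hχp : χ (p : ZMod (4 * ℓ)) = 1 := by
    have h1 := hval (p : ℤ) ((hcop _).mpr ⟨by omega, by exact_mod_cast hpℓ⟩)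
    rw [chi4_one (by omega)] at h1
    exact_mod_cast h1
  have hχu : χ (1 + 2 * (ℓ : ZMod (4 * ℓ))) = -1 := by
    have h1 := hval (1 + 2 * (ℓ : ℤ)) ((hcop _).mpr ⟨by omega, by
      intro h
      have h1 : (ℓ : ℤ) ∣ 1 := by
        have := dvd_sub h (Dvd.intro_left 2 rfl : (ℓ : ℤ) ∣ 2 * (ℓ : ℤ))
        simpa using this
      exact hℓi.not_isUnit (isUnit_of_dvd_one h1)⟩)
    rw [chi4_three (by omega)] at h1
    push_cast at h1
    exact h1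
  have hodd : χ.Odd := by
    have h1 := hval (-1) ((hcop _).mpr ⟨by omega, by
      intro h
      exact hℓi.not_isUnit (isUnit_of_dvd_one ((dvd_neg).mp h))⟩)
    rw [chi4_three (by omega)] at h1
    push_cast at h1
    exact h1
  have hone := SS_one_zero (by omega) hr H χ hχp hχu
  obtain ⟨a, ha⟩ := exists_SS_ne_zero χ hodd
  apply ha
  have hfour := four_mul_eq_zero ℓ
  by_cases hau : IsUnit a
  · exact SS_of_unit hone hau
  by_cases h2 : 2 ∣ a.val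
  · apply SS_fix (s := 1 + 2 * (ℓ : ZMod (4 * ℓ)))
    · obtain ⟨c, hc⟩ := h2
      have ht : a = 2 * (c : ZMod (4 * ℓ)) := by
        rw [← ZMod.natCast_zmod_val a, hc]; push_cast; ring
      rw [ht]
      linear_combination (c : ZMod (4 * ℓ)) * hfour
    · rw [hχu]; norm_num
    · rw [hχu]; norm_num
  have hunit : ∀ n : ℕ, ¬ 2 ∣ n → ¬ ℓ ∣ n → IsUnit ((n : ℕ) : ZMod (4 * ℓ)) := by
    intro n h2 h3
    rw [ZMod.isUnit_iff_coprime]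
    apply Nat.isCoprime_iff_coprime.mp
    rw [hcop]
    exact ⟨by intro h; apply h2; exact_mod_cast h, by intro h; apply h3; exact_mod_cast h⟩
  have hℓa : ℓ ∣ a.val := by
    by_contra hℓa
    apply hau
    have := hunit a.val h2 hℓa
    rwa [ZMod.natCast_zmod_val] at this
  obtain ⟨c, hc⟩ := hℓa
  have hco : c % 2 = 1 := by
    rcases Nat.mod_two_eq_zero_or_one c with h | h
    · exfalso
      apply h2
      rw [hc]
      exact dvd_mul_of_dvd_right (Nat.dvd_of_mod_eq_zero h) _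
    · exact h
  have haeq : a = (ℓ : ZMod (4 * ℓ)) * (c : ZMod (4 * ℓ)) := by
    rw [← ZMod.natCast_zmod_val a, hc]; push_cast; ring
  have hdist := SS_dist χ (p := ℓ) (d := 4) (by ring) (c : ZMod (4 * ℓ))
  rw [← haeq] at hdist
  -- the unique index
  have h4ℓ : ((4 : ℕ) : ZMod ℓ) ≠ 0 := by
    rw [Ne, ZMod.natCast_eq_zero_iff]
    intro h
    have h1 : ℓ ∣ 2 ^ 2 := by norm_num; exact h
    have h2 := hℓ.dvd_of_dvd_pow h1
    have h3 := Nat.le_of_dvd (by norm_num) h2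
    omega
  set i0 : ℕ := (-(c : ZMod ℓ) / ((4 : ℕ) : ZMod ℓ)).val with hi0
  have hi0' : ((c + 4 * i0 : ℕ) : ZMod ℓ) = 0 := by
    rw [Nat.cast_add, Nat.cast_mul, hi0, ZMod.natCast_zmod_val]
    field_simp
    ring
  have hi0lt : i0 < ℓ := ZMod.val_lt _
  have hdvd0 : ℓ ∣ c + 4 * i0 := (ZMod.natCast_eq_zero_iff _ _).mp hi0'
  rw [Finset.sum_eq_single i0] at hdist
  · obtain ⟨c', hc'⟩ := hdvd0
    have h5 : (c' + c) % 4 = 0 := by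
      obtain ⟨k, hk⟩ : ∃ k, ℓ = 4 * k + 3 := ⟨ℓ / 4, by omega⟩
      have h6 : c + 4 * i0 = 4 * (k * c') + 3 * c' := by rw [hc', hk]; ring
      omega
    have h6 : (c : ZMod (4 * ℓ)) + (i0 : ZMod (4 * ℓ)) * ((4 : ℕ) : ZMod (4 * ℓ)) = -a := by
      obtain ⟨k, hk⟩ : ∃ k, c' + c = 4 * k := ⟨(c' + c) / 4, by omega⟩
      have h7 : ((c + 4 * i0 : ℕ) : ZMod (4 * ℓ)) + a = 0 := by
        rw [hc', haeq]
        have h8 : ((ℓ * c' : ℕ) : ZMod (4 * ℓ)) + (ℓ : ZMod (4 * ℓ)) * (c : ZMod (4 * ℓ)) =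
            (ℓ : ZMod (4 * ℓ)) * ((c' + c : ℕ) : ZMod (4 * ℓ)) := by push_cast; ring
        rw [h8, hk]
        push_cast
        linear_combination (k : ZMod (4 * ℓ)) * hfour
      push_cast at h7 ⊢
      linear_combination h7
    rw [h6, SS_neg] at hdist
    have h7 : 2 * SS χ a = 0 := by linear_combination -hdist
    exact (mul_eq_zero.mp h7).resolve_left two_ne_zero
  · intro i hi hne
    apply SS_of_unit hone
    have h8 : (c : ZMod (4 * ℓ)) + (i : ZMod (4 * ℓ)) * ((4 : ℕ) : ZMod (4 * ℓ)) =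
        ((c + 4 * i : ℕ) : ZMod (4 * ℓ)) := by push_cast; ring
    rw [h8]
    apply hunit
    · omega
    · intro h9
      apply hne
      have h10 : ((c + 4 * i : ℕ) : ZMod ℓ) = 0 := (ZMod.natCast_eq_zero_iff _ _).mpr h9
      have h11 : ((4 : ℕ) : ZMod ℓ) * (i : ZMod ℓ) = ((4 : ℕ) : ZMod ℓ) * (i0 : ZMod ℓ) := by
        push_cast at h10 hi0' ⊢
        linear_combination h10 - hi0'
      have h12 := mul_left_cancel₀ h4ℓ h11
      have h13 := congrArg ZMod.val h12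
      rw [ZMod.val_natCast, ZMod.val_natCast, Nat.mod_eq_of_lt (mem_range.mp hi),
        Nat.mod_eq_of_lt hi0lt] at h13
      exact h13
  · intro h
    exact absurd (mem_range.mpr hi0lt) h

lemma qc_primitive {ℓ p : ℕ} [Fact ℓ.Prime] (hℓ4 : ℓ % 4 = 1)
    (hp : orderOf (p : ZMod ℓ) = ℓ - 1) : qc (ZMod ℓ) (p : ZMod ℓ) = -1 := by
  have hℓ : ℓ.Prime := Fact.out
  have hℓ2 := hℓ.two_le
  have hp0 : (p : ZMod ℓ) ≠ 0 := by
    intro h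
    have h1 : (p : ZMod ℓ) ^ (ℓ - 1) = 1 := by rw [← hp]; exact pow_orderOf_eq_one _
    rw [h, zero_pow (by omega)] at h1
    exact zero_ne_one h1
  have hK : ringChar (ZMod ℓ) ≠ 2 := by
    apply ringChar_ne_two_of_odd
    rw [ZMod.card]; omega
  have h1 : qc (ZMod ℓ) (p : ZMod ℓ) * qc (ZMod ℓ) (p : ZMod ℓ) = 1 := qc_mul_self hp0
  rcases mul_self_eq_one_iff.mp h1 with h | h
  · exfalso
    rw [qc_apply] at h
    have h2 : quadraticChar (ZMod ℓ) (p : ZMod ℓ) = 1 := by exact_mod_cast h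
    obtain ⟨y, hy⟩ := (quadraticChar_one_iff_isSquare hp0).mp h2
    have hy0 : y ≠ 0 := by
      rintro rfl
      apply hp0
      rw [hy, mul_zero]
    have h3 : (p : ZMod ℓ) ^ ((ℓ - 1) / 2) = 1 := by
      rw [hy, ← sq, ← pow_mul, show 2 * ((ℓ - 1) / 2) = ℓ - 1 by omega,
        ZMod.pow_card_sub_one_eq_one hy0]
    have h4 := orderOf_dvd_of_pow_eq_one h3
    rw [hp] at h4
    have := Nat.le_of_dvd (by omega) h4
    omega
  · exact h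

/-- the key fixing unit for the two-prime case -/
lemma exists_fix {ℓ ℓ' p : ℕ} (hℓ : ℓ.Prime) (hℓ' : ℓ'.Prime) (hne : ℓ ≠ ℓ') (h2 : ℓ ≠ 2)
    : ∃ s : ℕ, s % 4 = 1 ∧ (s : ZMod ℓ) = (p : ZMod ℓ) ∧ (s : ZMod ℓ') = 1 ∧
      ∃ d, s = 4 * ℓ' * d + 1 := by
  have hc : Nat.Coprime (4 * ℓ') ℓ := by
    have h1 : Nat.Coprime 2 ℓ := (Nat.coprime_primes Nat.prime_two hℓ).mpr (Ne.symm h2)
    have h3 : Nat.Coprime ℓ' ℓ := (Nat.coprime_primes hℓ' hℓ).mpr (Ne.symm hne)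
    exact Nat.Coprime.mul_left (Nat.Coprime.pow_left 2 h1) h3
  obtain ⟨n, hn1, hn2⟩ := Nat.chineseRemainder hc 1 p
  have h0 := hℓ'.two_le
  have hn1' : n % (4 * ℓ') = 1 := by
    have : n % (4 * ℓ') = 1 % (4 * ℓ') := hn1
    rw [this, Nat.mod_eq_of_lt (by omega)]
  obtain ⟨d, hd⟩ : ∃ d, n = 4 * ℓ' * d + 1 := ⟨n / (4 * ℓ'), by
    rw [← hn1']; exact (Nat.div_add_mod _ _).symm⟩
  refine ⟨n, ?_, ?_, ?_, d, hd⟩
  · have : n = 4 * (ℓ' * d) + 1 := by rw [hd]; ring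
    omega
  · exact (ZMod.natCast_eq_natCast_iff _ _ _).mpr hn2
  · rw [hd]; push_cast; simp

/-- no relation for a product of two primes `≡ 1 (mod 4)` modulo which `p` is a primitive root -/
theorem no_two_primes {ℓ₁ ℓ₂ p r : ℕ} [Fact ℓ₁.Prime] [Fact ℓ₂.Prime] (hne : ℓ₁ ≠ ℓ₂)
    (h14 : ℓ₁ % 4 = 1) (h24 : ℓ₂ % 4 = 1) (hp4 : p % 4 = 1)
    (hp1 : orderOf (p : ZMod ℓ₁) = ℓ₁ - 1) (hp2 : orderOf (p : ZMod ℓ₂) = ℓ₂ - 1)
    (hr : r ≠ 0) (H : DigitRel (ℓ₁ * ℓ₂) p r) : False := by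
  have hℓ₁ : ℓ₁.Prime := Fact.out
  have hℓ₂ : ℓ₂.Prime := Fact.out
  have hq1 := qc_primitive h14 hp1
  have hq2 := qc_primitive h24 hp2
  have hK1 : ringChar (ZMod ℓ₁) ≠ 2 := by
    apply ringChar_ne_two_of_odd; rw [ZMod.card]; omega
  have hK2 : ringChar (ZMod ℓ₂) ≠ 2 := by
    apply ringChar_ne_two_of_odd; rw [ZMod.card]; omega
  have hn1 : qc (ZMod ℓ₁) (-1) = 1 := char_neg_one hK1 qc_sq (by rw [ZMod.card]; omega)
  have hn2 : qc (ZMod ℓ₂) (-1) = 1 := char_neg_one hK2 qc_sq (by rw [ZMod.card]; omega)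
  have hpos : 0 < ℓ₁ * ℓ₂ := Nat.mul_pos hℓ₁.pos hℓ₂.pos
  have : NeZero (4 * (ℓ₁ * ℓ₂)) := ⟨by omega⟩
  have hi1 : Prime (ℓ₁ : ℤ) := Nat.prime_iff_prime_int.mp hℓ₁
  have hi2 : Prime (ℓ₂ : ℤ) := Nat.prime_iff_prime_int.mp hℓ₂
  have hcop : ∀ a : ℤ, IsCoprime a ((4 * (ℓ₁ * ℓ₂) : ℕ) : ℤ) ↔
      ¬ (2 : ℤ) ∣ a ∧ ¬ (ℓ₁ : ℤ) ∣ a ∧ ¬ (ℓ₂ : ℤ) ∣ a := by
    intro a
    have h4 : ((4 * (ℓ₁ * ℓ₂) : ℕ) : ℤ) = 2 ^ 2 * ((ℓ₁ : ℤ) * (ℓ₂ : ℤ)) := by push_cast; ring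
    rw [h4, IsCoprime.mul_right_iff, IsCoprime.mul_right_iff, IsCoprime.pow_right_iff (by norm_num)]
    rw [isCoprime_comm, Int.prime_two.coprime_iff_not_dvd, isCoprime_comm (x := a),
      hi1.coprime_iff_not_dvd, isCoprime_comm (x := a), hi2.coprime_iff_not_dvd]
  have hd4 : 4 ∣ 4 * (ℓ₁ * ℓ₂) := Dvd.intro _ rfl
  have hd1 : ℓ₁ ∣ 4 * (ℓ₁ * ℓ₂) := ⟨4 * ℓ₂, by ring⟩
  have hd2 : ℓ₂ ∣ 4 * (ℓ₁ * ℓ₂) := ⟨4 * ℓ₁, by ring⟩
  set η₁ : DirichletCharacter ℂ ℓ₁ := qc (ZMod ℓ₁) with hη₁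
  set η₂ : DirichletCharacter ℂ ℓ₂ := qc (ZMod ℓ₂) with hη₂
  set χ : DirichletCharacter ℂ (4 * (ℓ₁ * ℓ₂)) :=
    DirichletCharacter.changeLevel hd4 chi4 * DirichletCharacter.changeLevel hd1 η₁ *
      DirichletCharacter.changeLevel hd2 η₂ with hχ
  have hval : ∀ a : ℤ, IsCoprime a ((4 * (ℓ₁ * ℓ₂) : ℕ) : ℤ) →
      χ (a : ZMod (4 * (ℓ₁ * ℓ₂))) = chi4 (a : ZMod 4) * η₁ (a : ZMod ℓ₁) * η₂ (a : ZMod ℓ₂) := by
    intro a ha
    rw [hχ, MulChar.mul_apply, MulChar.mul_apply,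
      DirichletCharacter.changeLevel_eq_cast_of_dvd' _ _ ha,
      DirichletCharacter.changeLevel_eq_cast_of_dvd' _ _ ha,
      DirichletCharacter.changeLevel_eq_cast_of_dvd' _ _ ha]
  have hpd1 : ¬ ℓ₁ ∣ p := by
    intro h
    have h1 : (p : ZMod ℓ₁) = 0 := (ZMod.natCast_eq_zero_iff _ _).mpr h
    rw [h1] at hq1
    rw [MulChar.map_zero] at hq1
    norm_num at hq1
  have hpd2 : ¬ ℓ₂ ∣ p := by
    intro h
    have h1 : (p : ZMod ℓ₂) = 0 := (ZMod.natCast_eq_zero_iff _ _).mpr h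
    rw [h1] at hq2
    rw [MulChar.map_zero] at hq2
    norm_num at hq2
  have hχp : χ (p : ZMod (4 * (ℓ₁ * ℓ₂))) = 1 := by
    have h1 := hval (p : ℤ) ((hcop _).mpr ⟨by omega, by exact_mod_cast hpd1,
      by exact_mod_cast hpd2⟩)
    rw [chi4_one (by omega)] at h1
    push_cast at h1
    rw [h1, hq1, hq2]; norm_num
  have h1mod : (ℓ₁ * ℓ₂) % 4 = 1 := by rw [Nat.mul_mod, h14, h24]
  have hu1 : ¬ (ℓ₁ : ℤ) ∣ 1 + 2 * ((ℓ₁ * ℓ₂ : ℕ) : ℤ) := by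
    intro h
    have h1 : (ℓ₁ : ℤ) ∣ 2 * ((ℓ₁ * ℓ₂ : ℕ) : ℤ) := ⟨2 * ℓ₂, by push_cast; ring⟩
    have h2 := dvd_sub h h1
    rw [add_sub_cancel_right] at h2
    exact hi1.not_isUnit (isUnit_of_dvd_one h2)
  have hu2 : ¬ (ℓ₂ : ℤ) ∣ 1 + 2 * ((ℓ₁ * ℓ₂ : ℕ) : ℤ) := by
    intro h
    have h1 : (ℓ₂ : ℤ) ∣ 2 * ((ℓ₁ * ℓ₂ : ℕ) : ℤ) := ⟨2 * ℓ₁, by push_cast; ring⟩
    have h2 := dvd_sub h h1
    rw [add_sub_cancel_right] at h2
    exact hi2.not_isUnit (isUnit_of_dvd_one h2)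
  have hχu : χ (1 + 2 * ((ℓ₁ * ℓ₂ : ℕ) : ZMod (4 * (ℓ₁ * ℓ₂)))) = -1 := by
    have h1 := hval (1 + 2 * ((ℓ₁ * ℓ₂ : ℕ) : ℤ)) ((hcop _).mpr ⟨by omega, hu1, hu2⟩)
    rw [chi4_three (by omega)] at h1
    push_cast at h1 ⊢
    rw [h1]
    simp
  have hodd : χ.Odd := by
    have h1 := hval (-1) ((hcop _).mpr ⟨by omega,
      fun h => hi1.not_isUnit (isUnit_of_dvd_one ((dvd_neg).mp h)),
      fun h => hi2.not_isUnit (isUnit_of_dvd_one ((dvd_neg).mp h))⟩)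
    rw [chi4_three (by omega)] at h1
    push_cast at h1
    unfold DirichletCharacter.Odd
    rw [h1, hn1, hn2]; norm_num
  have hone := SS_one_zero hpos hr H χ hχp hχu
  obtain ⟨a, ha⟩ := exists_SS_ne_zero χ hodd
  apply ha
  have hfour := four_mul_eq_zero (ℓ₁ * ℓ₂)
  by_cases hau : IsUnit a
  · exact SS_of_unit hone hau
  by_cases h2 : 2 ∣ a.val
  · apply SS_fix (s := 1 + 2 * ((ℓ₁ * ℓ₂ : ℕ) : ZMod (4 * (ℓ₁ * ℓ₂))))
    · obtain ⟨c, hc⟩ := h2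
      have ht : a = 2 * (c : ZMod (4 * (ℓ₁ * ℓ₂))) := by
        rw [← ZMod.natCast_zmod_val a, hc]; push_cast; ring
      rw [ht]
      linear_combination (c : ZMod (4 * (ℓ₁ * ℓ₂))) * hfour
    · rw [hχu]; norm_num
    · rw [hχu]; norm_num
  have hcast : ((ℓ₁ * ℓ₂ : ℕ) : ZMod (4 * (ℓ₁ * ℓ₂))) =
      (ℓ₁ : ZMod (4 * (ℓ₁ * ℓ₂))) * (ℓ₂ : ZMod (4 * (ℓ₁ * ℓ₂))) := by push_cast; rfl
  rw [hcast] at hfour
  have hpi1 : ¬ (ℓ₁ : ℤ) ∣ (p : ℤ) := by exact_mod_cast hpd1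
  have hpi2 : ¬ (ℓ₂ : ℤ) ∣ (p : ℤ) := by exact_mod_cast hpd2
  by_cases hℓ₁a : ℓ₁ ∣ a.val
  · obtain ⟨s, hs4, hs1, hs2, d, hsd⟩ := exists_fix (p := p) hℓ₁ hℓ₂ hne (by omega)
    have hs1' : ¬ ℓ₁ ∣ s := by
      intro h
      have : (s : ZMod ℓ₁) = 0 := (ZMod.natCast_eq_zero_iff _ _).mpr h
      rw [hs1] at this
      exact hpd1 ((ZMod.natCast_eq_zero_iff _ _).mp this)
    have hs2' : ¬ ℓ₂ ∣ s := by
      intro h
      have : (s : ZMod ℓ₂) = 0 := (ZMod.natCast_eq_zero_iff _ _).mpr h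
      rw [hs2] at this
      exact one_ne_zero this
    have hχs : χ (s : ZMod (4 * (ℓ₁ * ℓ₂))) = -1 := by
      have h1 := hval (s : ℤ) ((hcop _).mpr ⟨by omega, by exact_mod_cast hs1',
        by exact_mod_cast hs2'⟩)
      rw [chi4_one (by omega)] at h1
      push_cast at h1
      rw [h1, hs1, hs2, hq1, map_one]; norm_num
    apply SS_fix (s := (s : ZMod (4 * (ℓ₁ * ℓ₂))))
    · obtain ⟨c, hc⟩ := hℓ₁a
      have ht : a = (ℓ₁ : ZMod (4 * (ℓ₁ * ℓ₂))) * (c : ZMod (4 * (ℓ₁ * ℓ₂))) := by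
        rw [← ZMod.natCast_zmod_val a, hc]; push_cast; ring
      rw [ht, hsd]
      push_cast
      linear_combination (d : ZMod (4 * (ℓ₁ * ℓ₂))) * (c : ZMod (4 * (ℓ₁ * ℓ₂))) * hfour
    · rw [hχs]; norm_num
    · rw [hχs]; norm_num
  by_cases hℓ₂a : ℓ₂ ∣ a.val
  · obtain ⟨s, hs4, hs1, hs2, d, hsd⟩ := exists_fix (p := p) hℓ₂ hℓ₁ (Ne.symm hne) (by omega)
    have hs1' : ¬ ℓ₂ ∣ s := by
      intro h
      have : (s : ZMod ℓ₂) = 0 := (ZMod.natCast_eq_zero_iff _ _).mpr h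
      rw [hs1] at this
      exact hpd2 ((ZMod.natCast_eq_zero_iff _ _).mp this)
    have hs2' : ¬ ℓ₁ ∣ s := by
      intro h
      have : (s : ZMod ℓ₁) = 0 := (ZMod.natCast_eq_zero_iff _ _).mpr h
      rw [hs2] at this
      exact one_ne_zero this
    have hχs : χ (s : ZMod (4 * (ℓ₁ * ℓ₂))) = -1 := by
      have h1 := hval (s : ℤ) ((hcop _).mpr ⟨by omega, by exact_mod_cast hs2',
        by exact_mod_cast hs1'⟩)
      rw [chi4_one (by omega)] at h1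
      push_cast at h1
      rw [h1, hs1, hs2, hq2, map_one]; norm_num
    apply SS_fix (s := (s : ZMod (4 * (ℓ₁ * ℓ₂))))
    · obtain ⟨c, hc⟩ := hℓ₂a
      have ht : a = (ℓ₂ : ZMod (4 * (ℓ₁ * ℓ₂))) * (c : ZMod (4 * (ℓ₁ * ℓ₂))) := by
        rw [← ZMod.natCast_zmod_val a, hc]; push_cast; ring
      rw [ht, hsd]
      push_cast
      linear_combination (d : ZMod (4 * (ℓ₁ * ℓ₂))) * (c : ZMod (4 * (ℓ₁ * ℓ₂))) * hfour
    · rw [hχs]; norm_num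
    · rw [hχs]; norm_num
  exfalso
  apply hau
  rw [← ZMod.natCast_zmod_val a, ZMod.isUnit_iff_coprime]
  apply Nat.isCoprime_iff_coprime.mp
  rw [hcop]
  exact ⟨by intro h; apply h2; exact_mod_cast h, by intro h; apply hℓ₁a; exact_mod_cast h,
    by intro h; apply hℓ₂a; exact_mod_cast h⟩

/-- no relation modulo `8` for `p ≡ 1 (mod 8)` -/
theorem no_one_mod_eight {p r : ℕ} (hp8 : p % 8 = 1) (hr : r ≠ 0) (H : DigitRel 2 p r) :
    False := by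
  have h := H 1 (1 + 2 * ((2 : ℕ) : ZMod (4 * 2))) isUnit_one rfl
  have e1 : (1 : ZMod (4 * 2)).val = 1 := by decide
  have e2 : (1 + 2 * ((2 : ℕ) : ZMod (4 * 2))).val = 5 := by decide
  rw [e1, e2] at h
  have h1 : ∀ i c : ℕ, c < 8 → p ^ i * c % (4 * 2) = c := by
    intro i c hc
    rw [show 4 * 2 = 8 by norm_num, Nat.mul_mod, Nat.pow_mod, hp8, one_pow]
    simp [Nat.mod_eq_of_lt hc]
  rw [sum_congr rfl fun i _ => h1 i 1 (by norm_num), sum_congr rfl fun i _ => h1 i 5 (by norm_num),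
    sum_const, sum_const, card_range, smul_eq_mul, smul_eq_mul] at h
  omega

end Pool.Agent.H310.CH
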