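import Pool.Agent.H310.CH.Stick

/-!
# Digits of `j (Q - 1) / m`, and valuations of Gauss sums of characters of order dividing `m`
-/

set_option linter.unusedSectionVars false

namespace Pool.Agent.H310.CH

open Finset Pool.Agent.H916K

lemma digit_step (p m j i : ℕ) :
    p * (p ^ i * j % m) = m * (p * (p ^ i * j % m) / m) + (p ^ (i + 1) * j % m) := by
  have h1 : p ^ (i + 1) * j % m = p * (p ^ i * j % m) % m := by
    rw [pow_succ', mul_assoc, Nat.mul_mod, Nat.mul_mod p (p ^ i * j % m), Nat.mod_mod]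
  rw [h1]
  exact (Nat.div_add_mod _ _).symm

lemma digit_sum (p m j : ℕ) (hjm : j < m) (n : ℕ) :
    m * (∑ i ∈ range n, (p * (p ^ (n - 1 - i) * j % m) / m) * p ^ i) + (p ^ n * j % m) =
      p ^ n * j := by
  induction n with
  | zero => simp [Nat.mod_eq_of_lt hjm]
  | succ n ih =>
    rw [sum_range_succ']
    have h1 : ∀ i ∈ range n, (p * (p ^ (n + 1 - 1 - (i + 1)) * j % m) / m) * p ^ (i + 1) =
        p * ((p * (p ^ (n - 1 - i) * j % m) / m) * p ^ i) := by
      intro i _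
      rw [show n + 1 - 1 - (i + 1) = n - 1 - i by omega, pow_succ]
      ring
    rw [sum_congr rfl h1, ← mul_sum]
    have h2 := digit_step p m j n
    rw [show n + 1 - 1 - 0 = n by omega, pow_zero, mul_one]
    generalize ∑ i ∈ range n, (p * (p ^ (n - 1 - i) * j % m) / m) * p ^ i = D at ih ⊢
    generalize p ^ (n + 1) * j % m = c at h2 ⊢
    calc m * (p * D + p * (p ^ n * j % m) / m) + c
        = p * (m * D) + (m * (p * (p ^ n * j % m) / m) + c) := by ring
      _ = p * (m * D) + p * (p ^ n * j % m) := by rw [← h2]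
      _ = p * (m * D + p ^ n * j % m) := by ring
      _ = p * (p ^ n * j) := by rw [ih]
      _ = p ^ (n + 1) * j := by rw [pow_succ']; ring

lemma digit_total (p m j r : ℕ) (hjm : j < m) (hr : p ^ r * j % m = j) (hp : 1 ≤ p) :
    m * (∑ i ∈ range r, (p * (p ^ i * j % m) / m)) =
      (p - 1) * ∑ i ∈ range r, (p ^ i * j % m) := by
  have h1 : ∑ i ∈ range r, (p ^ (i + 1) * j % m) = ∑ i ∈ range r, (p ^ i * j % m) := by
    have h2 := sum_range_succ (fun i => p ^ i * j % m) r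
    rw [sum_range_succ' (fun i => p ^ i * j % m) r] at h2
    rw [hr, pow_zero, one_mul, Nat.mod_eq_of_lt hjm] at h2
    omega
  have h2 : p * ∑ i ∈ range r, (p ^ i * j % m) =
      m * (∑ i ∈ range r, (p * (p ^ i * j % m) / m)) + ∑ i ∈ range r, (p ^ (i + 1) * j % m) := by
    rw [mul_sum, mul_sum, ← sum_add_distrib]
    exact sum_congr rfl fun i _ => digit_step p m j i
  rw [h1] at h2
  obtain ⟨q, rfl⟩ : ∃ q, p = q + 1 := ⟨p - 1, by omega⟩
  rw [Nat.add_sub_cancel]
  nlinarith [h2]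

section

variable {p : ℕ} [Fact p.Prime] {L : Type} [Field L] [Fintype L] [Algebra (ZMod p) L]
  {k : Type} [Field k] [CharP k p] {φ : AI →+* k} {ι : L →+* k}
  {Γ : Type} [LinearOrderedCommGroupWithZero Γ] {v : Valuation ℂ Γ}
  (h : Above φ v) {ζ : AI} (hζ : IsPrimitiveRoot ζ p)
  {χ : MulChar L AI} (hχ : orderOf χ = Fintype.card L - 1)
  (hχφ : ∀ x : L, x ≠ 0 → φ (χ x) * ι x = 1) (hL3 : 3 ≤ Fintype.card L)

include h hζ hχ hχφ hL3 in
theorem v_gauss_order {m M : ℕ} (hM : m * M = Fintype.card L - 1) {j : ℕ} (hj : 0 < j)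
    (hjm : j < m) : ∃ s : ℕ, m * s = (p - 1) *
      ∑ i ∈ range (Module.finrank (ZMod p) L), (p ^ i * j % m) ∧
      v ((gaussSum (χ ^ (M * j)) (psi hζ.pow_eq_one) : AI) : ℂ) = v (((ζ - 1 : AI)) : ℂ) ^ s := by
  have hp : p.Prime := Fact.out
  set r := Module.finrank (ZMod p) L with hr
  have hcard : Fintype.card L = p ^ r := card_L (p := p)
  have hM0 : 0 < M := by
    rcases Nat.eq_zero_or_pos M with h0 | h0
    · rw [h0] at hM; omega
    · exact h0
  have hm0 : 0 < m := by omega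
  have hpow : p ^ r * j = m * (M * j) + j := by
    have : p ^ r = m * M + 1 := by omega
    rw [this]; ring
  have hmod : p ^ r * j % m = j := by
    rw [hpow, Nat.mul_add_mod, Nat.mod_eq_of_lt hjm]
  have h1 := digit_sum p m j hjm r
  rw [hmod, hpow] at h1
  have h2 : ∑ i ∈ range r, (p * (p ^ (r - 1 - i) * j % m) / m) * p ^ i = M * j :=
    Nat.eq_of_mul_eq_mul_left hm0 (by omega)
  have h3 : χ ^ (M * j) ≠ 1 := by
    intro h1
    have h2 := orderOf_dvd_of_pow_eq_one h1
    rw [hχ, ← hM] at h2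
    have h3 := Nat.le_of_dvd (Nat.mul_pos hM0 hj) h2
    rw [mul_comm m M] at h3
    have := Nat.le_of_mul_le_mul_left h3 hM0
    omega
  refine ⟨∑ i ∈ range r, (p * (p ^ i * j % m) / m), digit_total p m j r hjm hmod hp.one_le, ?_⟩
  have hd : ∀ i, p * (p ^ (r - 1 - i) * j % m) / m ≤ p - 1 := by
    intro i
    have h4 : p ^ (r - 1 - i) * j % m < m := Nat.mod_lt _ hm0
    have h5 : p * (p ^ (r - 1 - i) * j % m) / m < p := by
      rw [Nat.div_lt_iff_lt_mul hm0]
      exact Nat.mul_lt_mul_of_pos_left h4 hp.pos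
    omega
  have h4 := v_gauss h hζ hχ hχφ hL3 (fun i => p * (p ^ (r - 1 - i) * j % m) / m) hd
    (by rw [← hr, h2]; exact h3)
  rw [← hr, h2] at h4
  rw [h4]
  congr 1
  exact sum_range_reflect (fun i => p * (p ^ i * j % m) / m) r

include h hζ hχ hχφ hL3 in
/-- equality of valuations of Gauss sums is equality of digit sums -/
theorem sum_eq_of_v_eq {m M : ℕ} (hM : m * M = Fintype.card L - 1) {j j' : ℕ} (hj : 0 < j)
    (hjm : j < m) (hj' : 0 < j') (hjm' : j' < m)
    (hv : v ((gaussSum (χ ^ (M * j)) (psi hζ.pow_eq_one) : AI) : ℂ) =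
      v ((gaussSum (χ ^ (M * j')) (psi hζ.pow_eq_one) : AI) : ℂ)) :
    ∑ i ∈ range (Module.finrank (ZMod p) L), (p ^ i * j % m) =
      ∑ i ∈ range (Module.finrank (ZMod p) L), (p ^ i * j' % m) := by
  have hp : p.Prime := Fact.out
  obtain ⟨s, hs, hs'⟩ := v_gauss_order h hζ hχ hχφ hL3 hM hj hjm
  obtain ⟨t, ht, ht'⟩ := v_gauss_order h hζ hχ hχφ hL3 hM hj' hjm'
  rw [hs', ht'] at hv
  have h1 : s = t := pow_right_injective₀ (zero_lt_iff.mpr (v_pi_ne hζ)) (v_pi h hζ).ne hv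
  rw [← h1, hs] at ht
  exact Nat.eq_of_mul_eq_mul_left (by have := hp.two_le; omega) ht

end

end Pool.Agent.H310.CH
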