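import Pool.Agent.H310.CH.Gen

/-!
# Extremality of the torus sums for a maximal curve `y² = φ_d(x)`
-/

set_option linter.unusedSectionVars false

namespace Pool.Agent.H310.CH

open Finset

section

variable {F E : Type} [Field F] [Fintype F] [DecidableEq F] [Field E] [Fintype E] [DecidableEq E]
  [Algebra F E] {Q : ℕ}

lemma HH_map (u : Fˣ) : HH F (Units.map (algebraMap F E).toMonoidHom u) =
    qc F ((u : F) + ((u⁻¹ : Fˣ) : F)) := by
  unfold HH
  congr 1
  have h5 : ((Units.map (algebraMap F E).toMonoidHom u : Eˣ) : E) +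
      (((Units.map (algebraMap F E).toMonoidHom u)⁻¹ : Eˣ) : E) =
      algebraMap F E ((u : F) + ((u⁻¹ : Fˣ) : F)) := by
    rw [← map_inv, map_add]; rfl
  rw [h5, RR_alg]

lemma T1_sum (hQ : Fintype.card F = Q) {d d1 : ℕ} (hd1 : Nat.gcd (Q - 1) d = d1)
    {θ : MulChar F ℂ} (hθ : orderOf θ = d1) :
    ∑ t ∈ T1 E Q, HH F (t ^ d) = ∑ k ∈ range d1, AA (θ ^ k) := by
  have hcard : Fintype.card Fˣ = Q - 1 := by rw [Fintype.card_units, hQ]
  rw [sum_T1 hQ]
  set h : Fˣ → ℂ := fun u => qc F ((u : F) + ((u⁻¹ : Fˣ) : F)) with hh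
  have e1 : ∀ u : Fˣ, HH F ((Units.map (algebraMap F E).toMonoidHom u) ^ d) = h (u ^ d) := by
    intro u
    rw [← map_pow, HH_map]
  rw [sum_congr rfl fun u _ => e1 u, sum_pow_gcd h d, hcard, hd1, fold hθ h]
  refine sum_congr rfl fun k _ => ?_
  unfold AA
  refine sum_congr rfl fun u _ => ?_
  rw [MulChar.pow_apply_coe]

lemma card_units_E (hQ : Fintype.card F = Q) (hE : Fintype.card E = Q ^ 2) :
    (Q - 1) * (Q + 1) = Fintype.card Eˣ := by
  have h2 := two_le_Q hQ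
  rw [Fintype.card_units, hE]
  obtain ⟨c, rfl⟩ : ∃ c, Q = c + 1 := ⟨Q - 1, by omega⟩
  rw [Nat.add_sub_cancel]
  have : (c + 1) ^ 2 = c * (c + 1 + 1) + 1 := by ring
  rw [this]; omega

lemma T2_sum (hQ : Fintype.card F = Q) (hE : Fintype.card E = Q ^ 2) {d d2 : ℕ}
    (hd2 : Nat.gcd (Q + 1) d = d2) {θ : MulChar E ℂ} (hθ : orderOf θ = d2) :
    ((Q - 1 : ℕ) : ℂ) * ∑ t ∈ T2 E Q, HH F (t ^ d) = ∑ k ∈ range d2, BB F Q (θ ^ k) := by
  have hab := card_units_E (F := F) hQ hE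
  have e1 := sum_pow_eq hab (fun t : Eˣ => HH F (t ^ d))
  have e2 := sum_pow_gcd (HH F : Eˣ → ℂ) ((Q - 1) * d)
  rw [← hab, Nat.gcd_mul_left, hd2] at e2
  have e3 : ∑ w : Eˣ, HH F ((w ^ (Q - 1)) ^ d) = ∑ w : Eˣ, HH F (w ^ ((Q - 1) * d)) := by
    refine sum_congr rfl fun w _ => ?_
    rw [← pow_mul]
  have e4 : ∑ w : Eˣ, HH F (w ^ ((Q - 1) * d2)) = ∑ w : Eˣ, HH F ((w ^ d2) ^ (Q - 1)) := by
    refine sum_congr rfl fun w _ => ?_
    rw [← pow_mul, mul_comm]
  have e5 := fold hθ (fun w : Eˣ => HH F (w ^ (Q - 1)))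
  unfold T2
  rw [← e1, e3, e2, e4, e5]
  refine sum_congr rfl fun k _ => ?_
  unfold BB
  refine sum_congr rfl fun u _ => ?_
  rw [MulChar.pow_apply_coe]

/-- the relevant exponents -/
def RS (n : ℕ) : Finset ℕ := (range n).filter (fun k => k ≠ 0 ∧ 2 * k ≠ n)

lemma sum_range_split {n : ℕ} (hn : 0 < n) (f : ℕ → ℂ) :
    ∑ k ∈ range n, f k = f 0 + (if n % 2 = 0 then f (n / 2) else 0) + ∑ k ∈ RS n, f k := by
  rw [← sum_filter_add_sum_filter_not (range n) (fun k => k ≠ 0 ∧ 2 * k ≠ n), add_comm]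
  congr 1
  by_cases hev : n % 2 = 0
  · rw [if_pos hev]
    have h1 : (range n).filter (fun k => ¬ (k ≠ 0 ∧ 2 * k ≠ n)) = {0, n / 2} := by
      ext k
      rw [mem_filter, mem_range, mem_insert, mem_singleton]
      omega
    rw [h1, sum_pair (by omega)]
  · rw [if_neg hev, add_zero]
    have h1 : (range n).filter (fun k => ¬ (k ≠ 0 ∧ 2 * k ≠ n)) = {0} := by
      ext k
      rw [mem_filter, mem_range, mem_singleton]
      omega
    rw [h1, sum_singleton]

lemma card_RS {n : ℕ} (hn : 0 < n) :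
    (RS n).card + (1 + if n % 2 = 0 then 1 else 0) = n := by
  have h := sum_range_split hn (fun _ => (1 : ℂ))
  simp only [sum_const, card_range, nsmul_eq_mul, mul_one] at h
  split_ifs at h ⊢ with h1
  · have h2 : ((n : ℕ) : ℂ) = (((RS n).card + (1 + 1) : ℕ) : ℂ) := by
      rw [h]; push_cast; ring
    exact (Nat.cast_injective h2).symm
  · have h2 : ((n : ℕ) : ℂ) = (((RS n).card + (1 + 0) : ℕ) : ℂ) := by
      rw [h]; push_cast; ring
    exact (Nat.cast_injective h2).symm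

lemma ne_qc_of_RS {K : Type} [Field K] [Fintype K] [DecidableEq K] {θ : MulChar K ℂ} {n k : ℕ}
    (hθ : orderOf θ = n) (hk : k ∈ RS n) : θ ^ k ≠ qc K := by
  unfold RS at hk
  rw [mem_filter, mem_range] at hk
  obtain ⟨h1, h2, h3⟩ := hk
  intro h
  have h4 : θ ^ (k * 2) = 1 := by rw [pow_mul, h, qc_sq]
  have h5 := orderOf_dvd_of_pow_eq_one h4
  rw [hθ] at h5
  obtain ⟨c, hc⟩ := h5
  have : c = 0 ∨ c = 1 ∨ 2 ≤ c := by omega
  rcases this with rfl | rfl | h6
  · omega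
  · omega
  · have : n * 2 ≤ n * c := Nat.mul_le_mul_left n h6
    omega

lemma mem_RS_of {K : Type} [Field K] [Fintype K] [DecidableEq K] {θ η : MulChar K ℂ} {n : ℕ}
    (hθ : orderOf θ = n) (hn : 0 < n) (hη : η ^ n = 1) (hη2 : η ^ 2 ≠ 1) :
    ∃ k ∈ RS n, η = θ ^ k := by
  obtain ⟨k, hk, rfl⟩ := mem_powers hθ hn hη
  refine ⟨k, ?_, rfl⟩
  unfold RS
  rw [mem_filter, mem_range]
  refine ⟨hk, ?_, ?_⟩
  · rintro rfl
    apply hη2
    rw [pow_zero, one_pow]
  · intro h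
    apply hη2
    rw [← pow_mul, mul_comm, h, ← hθ, pow_orderOf_eq_one]

lemma zero_of_sums (hQ : Fintype.card F = Q) (hE : Fintype.card E = Q ^ 2) (hodd : Q % 2 = 1) :
    ((Q - 1 : ℕ) : ℂ) * AA (1 : MulChar F ℂ) + BB F Q (1 : MulChar E ℂ) = 0 := by
  have h1 := two_mul_sum (E := E) hQ hE hodd (fun x => qc F x)
  rw [MulChar.sum_eq_zero_of_ne_one (qc_ne_one (hF2 hQ hodd)), mul_zero] at h1
  have hT1 : ∑ t ∈ T1 E Q, HH F t = AA (1 : MulChar F ℂ) := by
    have := T1_sum (E := E) hQ (d := 1) (d1 := 1) (Nat.gcd_one_right _)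
      (θ := (1 : MulChar F ℂ)) orderOf_one
    simpa using this
  have hT2 : ((Q - 1 : ℕ) : ℂ) * ∑ t ∈ T2 E Q, HH F t = BB F Q (1 : MulChar E ℂ) := by
    have := T2_sum hQ hE (d := 1) (d2 := 1) (Nat.gcd_one_right _)
      (θ := (1 : MulChar E ℂ)) orderOf_one
    simpa using this
  have h2 : ∑ t ∈ T1 E Q, HH F t + ∑ t ∈ T2 E Q, HH F t = 0 := h1.symm
  rw [← hT1, ← hT2]
  linear_combination ((Q - 1 : ℕ) : ℂ) * h2

lemma arith_ext {a b m : ℕ} (ha : a ∣ m) (hb : b ∣ m) (hm : 0 < m) (hab : Nat.Coprime a b)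
    (h : m + 1 ≤ a + b) : (a = m ∧ b = 1) ∨ (a = 1 ∧ b = m) := by
  have h1 : a * b ∣ m := Nat.Coprime.mul_dvd_of_dvd_of_dvd hab ha hb
  have h2 := Nat.le_of_dvd hm h1
  have ha0 : 0 < a := Nat.pos_of_dvd_of_pos ha hm
  have hb0 : 0 < b := Nat.pos_of_dvd_of_pos hb hm
  have ham := Nat.le_of_dvd hm ha
  have hbm := Nat.le_of_dvd hm hb
  rcases Nat.lt_or_ge 1 a with h3 | h3
  · rcases Nat.lt_or_ge 1 b with h4 | h4
    · exfalso
      obtain ⟨a', rfl⟩ : ∃ a', a = a' + 2 := ⟨a - 2, by omega⟩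
      obtain ⟨b', rfl⟩ : ∃ b', b = b' + 2 := ⟨b - 2, by omega⟩
      nlinarith [Nat.zero_le (a' * b')]
    · left; omega
  · right; omega

theorem extremal (p : ℕ) [Fact p.Prime] [Algebra (ZMod p) F] [Algebra (ZMod p) E]
    [IsScalarTower (ZMod p) F E] {q : ℕ} (hQ : Fintype.card F = Q) (hE : Fintype.card E = Q ^ 2)
    (hq : Q = q ^ 2) (hq4 : q % 4 = 1) (hq5 : 1 < q) {d : ℕ} (hd : 3 ≤ d) {S : ℂ}
    (hS : 2 * S = ∑ t ∈ T1 E Q, HH F (t ^ d) + ∑ t ∈ T2 E Q, HH F (t ^ d))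
    (hmax : S = if d % 2 = 1 then ((d - 1 : ℕ) : ℂ) * q else ((d - 2 : ℕ) : ℂ) * q - 1) :
    (d ∣ Q - 1 ∧ ∀ η : MulChar F ℂ, η ^ d = 1 → η ^ 2 ≠ 1 → AA η = 2 * q) ∨
    (d ∣ Q + 1 ∧ ∀ η : MulChar E ℂ, η ^ d = 1 → η ^ 2 ≠ 1 →
      BB F Q η = ((Q - 1 : ℕ) : ℂ) * (2 * q)) := by
  have hQ4 : Q % 4 = 1 := by rw [hq, Nat.pow_mod, hq4, one_pow]; norm_num
  have hQ5 : 4 < Q := by
    have : 5 ≤ q := by omega
    rw [hq]; nlinarith
  have hodd : Q % 2 = 1 := by omega
  have hF := hF2 hQ hodd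
  have hneg : qc F (-1) = 1 := by
    apply char_neg_one hF qc_sq
    rw [hQ]; omega
  have hab := card_units_E (F := F) hQ hE
  have hEcard : Fintype.card E - 1 = (Q - 1) * (Q + 1) := by
    rw [hab, Fintype.card_units]
  set d1 := Nat.gcd (Q - 1) d with hd1
  set d2 := Nat.gcd (Q + 1) d with hd2
  have hd1d : d1 ∣ d := Nat.gcd_dvd_right _ _
  have hd2d : d2 ∣ d := Nat.gcd_dvd_right _ _
  have hd1Q : d1 ∣ Q - 1 := Nat.gcd_dvd_left _ _
  have hd2Q : d2 ∣ Q + 1 := Nat.gcd_dvd_left _ _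
  have hd10 : 0 < d1 := Nat.pos_of_dvd_of_pos hd1d (by omega)
  have hd20 : 0 < d2 := Nat.pos_of_dvd_of_pos hd2d (by omega)
  obtain ⟨θ1, hθ1⟩ := exists_order (K := F) (n := d1) hd10.ne' (by rw [hQ]; exact hd1Q)
  obtain ⟨θ2, hθ2⟩ := exists_order (K := E) (n := d2) hd20.ne' (by
    rw [hEcard]; exact dvd_mul_of_dvd_right hd2Q _)
  have e1 := T1_sum (E := E) hQ hd1.symm hθ1
  have e2 := T2_sum (F := F) hQ hE hd2.symm hθ2
  rw [sum_range_split hd10] at e1
  rw [sum_range_split hd20] at e2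
  rw [pow_zero] at e1 e2
  have e0 := zero_of_sums (F := F) (E := E) hQ hE hodd
  set N : ℂ := ((Q - 1 : ℕ) : ℂ) with hN
  have hN0 : N ≠ 0 := Nat.cast_ne_zero.mpr (by omega)
  have hNr : ‖N‖ = (Q : ℝ) - 1 := by
    rw [hN, Complex.norm_natCast, Nat.cast_sub (by omega)]; simp
  set I : Finset (ℕ ⊕ ℕ) := (RS d1).disjSum (RS d2) with hI
  set z : ℕ ⊕ ℕ → ℂ := Sum.elim (fun k => N * AA (θ1 ^ k)) (fun k => BB F Q (θ2 ^ k)) with hz
  set c : ℂ := N * (2 * q) with hc
  have hcn : ‖c‖ = ((Q : ℝ) - 1) * (2 * q) := by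
    rw [hc, norm_mul, hNr, norm_mul]; simp
  have hq0 : (0 : ℝ) < q := by exact_mod_cast (by omega : 0 < q)
  have hQr : (4 : ℝ) < Q := by exact_mod_cast hQ5
  have hc0 : 0 < ‖c‖ := by
    rw [hcn]
    apply mul_pos (by linarith) (by linarith)
  have hbound : ∀ i ∈ I, ‖z i‖ ≤ ‖c‖ := by
    intro i hi
    rw [hcn]
    rcases i with k | k
    · rw [hI, inl_mem_disjSum] at hi
      rw [hz, Sum.elim_inl, norm_mul, hNr]
      exact mul_le_mul_of_nonneg_left (norm_AA_le hF p (by rw [hQ, hq]) hneg (ne_qc_of_RS hθ1 hi))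
        (by linarith)
    · rw [hI, inr_mem_disjSum] at hi
      rw [hz, Sum.elim_inr]
      refine norm_BB_le p hQ hE hodd hq (by omega) hd2Q ?_
      rw [← pow_mul, mul_comm, pow_mul, ← hθ2, pow_orderOf_eq_one, one_pow]
  have hsumI : ∑ i ∈ I, z i = N * ∑ k ∈ RS d1, AA (θ1 ^ k) + ∑ k ∈ RS d2, BB F Q (θ2 ^ k) := by
    rw [hI, sum_disjSum, mul_sum]
    rfl
  -- the total
  have hcardI : I.card = (RS d1).card + (RS d2).card := by rw [hI, card_disjSum]
  have hc1 := card_RS hd10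
  have hc2 := card_RS hd20
  obtain ⟨M, hM, hMI, hfin⟩ : ∃ M : ℕ, ∑ i ∈ I, z i = (M : ℂ) * c ∧ (I.card ≤ M) ∧
      (M ≤ I.card → (d1 = d ∨ d2 = d)) := by
    by_cases hdo : d % 2 = 1
    · refine ⟨d - 1, ?_, ?_, ?_⟩
      · have h1 : ¬ d1 % 2 = 0 := by
          intro h
          have : 2 ∣ d := (Nat.dvd_of_mod_eq_zero h).trans hd1d
          omega
        have h2 : ¬ d2 % 2 = 0 := by
          intro h
          have : 2 ∣ d := (Nat.dvd_of_mod_eq_zero h).trans hd2d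
          omega
        rw [if_neg h1] at e1
        rw [if_neg h2] at e2
        rw [if_pos hdo] at hmax
        rw [hsumI, hc]
        linear_combination (-N) * e1 - e2 - e0 - N * hS + 2 * N * hmax
      · have h1 : d1 % 2 = 1 := by
          rcases Nat.mod_two_eq_zero_or_one d1 with h | h
          · have : 2 ∣ d := (Nat.dvd_of_mod_eq_zero h).trans hd1d
            omega
          · exact h
        have h2 : d2 % 2 = 1 := by
          rcases Nat.mod_two_eq_zero_or_one d2 with h | h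
          · have : 2 ∣ d := (Nat.dvd_of_mod_eq_zero h).trans hd2d
            omega
          · exact h
        rw [if_neg (by omega)] at hc1 hc2
        by_contra hcon
        have hcop : Nat.Coprime d1 d2 := by
          rw [Nat.coprime_iff_gcd_eq_one, ← Nat.dvd_one]
          have h3 : Nat.gcd d1 d2 ∣ (Q + 1) - (Q - 1) :=
            Nat.dvd_sub ((Nat.gcd_dvd_right _ _).trans hd2Q) ((Nat.gcd_dvd_left _ _).trans hd1Q)
          rw [show Q + 1 - (Q - 1) = 2 by omega] at h3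
          rcases (Nat.dvd_prime Nat.prime_two).mp h3 with h4 | h4
          · rw [h4]
          · exfalso
            have : 2 ∣ d1 := h4 ▸ Nat.gcd_dvd_left _ _
            omega
        have := arith_ext hd1d hd2d (by omega) hcop (by omega)
        omega
      · intro hle
        have h1 : d1 % 2 = 1 := by
          rcases Nat.mod_two_eq_zero_or_one d1 with h | h
          · have : 2 ∣ d := (Nat.dvd_of_mod_eq_zero h).trans hd1d
            omega
          · exact h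
        have h2 : d2 % 2 = 1 := by
          rcases Nat.mod_two_eq_zero_or_one d2 with h | h
          · have : 2 ∣ d := (Nat.dvd_of_mod_eq_zero h).trans hd2d
            omega
          · exact h
        rw [if_neg (by omega)] at hc1 hc2
        have hcop : Nat.Coprime d1 d2 := by
          rw [Nat.coprime_iff_gcd_eq_one, ← Nat.dvd_one]
          have h3 : Nat.gcd d1 d2 ∣ (Q + 1) - (Q - 1) :=
            Nat.dvd_sub ((Nat.gcd_dvd_right _ _).trans hd2Q) ((Nat.gcd_dvd_left _ _).trans hd1Q)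
          rw [show Q + 1 - (Q - 1) = 2 by omega] at h3
          rcases (Nat.dvd_prime Nat.prime_two).mp h3 with h4 | h4
          · rw [h4]
          · exfalso
            have : 2 ∣ d1 := h4 ▸ Nat.gcd_dvd_left _ _
            omega
        have := arith_ext hd1d hd2d (by omega) hcop (by omega)
        omega
    · have hdev : 2 ∣ d := by omega
      have h1 : 2 ∣ d1 := Nat.dvd_gcd (by omega) hdev
      have h2 : 2 ∣ d2 := Nat.dvd_gcd (by omega) hdev
      obtain ⟨m, hm⟩ := hdev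
      obtain ⟨a, ha⟩ := h1
      obtain ⟨b, hb⟩ := h2
      have ham : a ∣ m := by
        have := hd1d
        rw [ha, hm] at this
        exact Nat.dvd_of_mul_dvd_mul_left (by norm_num) this
      have hbm : b ∣ m := by
        have := hd2d
        rw [hb, hm] at this
        exact Nat.dvd_of_mul_dvd_mul_left (by norm_num) this
      have hcop : Nat.Coprime a b := by
        rw [Nat.coprime_iff_gcd_eq_one, ← Nat.dvd_one]
        have h3 : 2 * Nat.gcd a b ∣ (Q + 1) - (Q - 1) := by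
          apply Nat.dvd_sub
          · refine dvd_trans ?_ hd2Q
            rw [hb]
            exact Nat.mul_dvd_mul_left 2 (Nat.gcd_dvd_right _ _)
          · refine dvd_trans ?_ hd1Q
            rw [ha]
            exact Nat.mul_dvd_mul_left 2 (Nat.gcd_dvd_left _ _)
        rw [show Q + 1 - (Q - 1) = 2 * 1 by omega] at h3
        exact Nat.dvd_of_mul_dvd_mul_left (by norm_num) h3
      rw [if_pos (by omega)] at hc1 hc2
      refine ⟨d - 2, ?_, ?_, ?_⟩
      · have h1 : θ1 ^ (d1 / 2) = qc F := pow_eq_qc hF (by omega) (by rw [hθ1]; omega)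
        have h2 : θ2 ^ (d2 / 2) = qc E := pow_eq_qc (hE2 hE hodd) (by omega) (by rw [hθ2]; omega)
        rw [if_pos (by omega), h1, AA_qc hF] at e1
        rw [if_pos (by omega), h2, BB_qc p hQ hE hodd hq (by omega)] at e2
        rw [if_neg hdo] at hmax
        rw [hsumI, hc]
        linear_combination (-N) * e1 - e2 - e0 - N * hS + 2 * N * hmax
      · by_contra hcon
        have := arith_ext ham hbm (by omega) hcop (by omega)
        omega
      · intro hle
        have := arith_ext ham hbm (by omega) hcop (by omega)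
        omega
  have hMle : M ≤ I.card := by
    have h1 : ‖∑ i ∈ I, z i‖ ≤ I.card * ‖c‖ := by
      refine (norm_sum_le _ _).trans ?_
      refine (sum_le_sum hbound).trans ?_
      rw [sum_const, nsmul_eq_mul]
    rw [hM, norm_mul, Complex.norm_natCast] at h1
    have h2 := le_of_mul_le_mul_right h1 hc0
    exact_mod_cast h2
  have hMeq : M = I.card := le_antisymm hMle hMI
  have hall := eq_of_sum_eq I z c hbound (by rw [hM, hMeq])
  rcases hfin hMle with h | h
  · left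
    refine ⟨h ▸ hd1Q, ?_⟩
    intro η hη hη2
    obtain ⟨k, hk, rfl⟩ := mem_RS_of hθ1 hd10 (by rw [h]; exact hη) hη2
    have h1 := hall (Sum.inl k) (by rw [hI, inl_mem_disjSum]; exact hk)
    rw [hz, Sum.elim_inl, hc] at h1
    exact mul_left_cancel₀ hN0 h1
  · right
    refine ⟨h ▸ hd2Q, ?_⟩
    intro η hη hη2
    obtain ⟨k, hk, rfl⟩ := mem_RS_of hθ2 hd20 (by rw [h]; exact hη) hη2
    have h1 := hall (Sum.inr k) (by rw [hI, inr_mem_disjSum]; exact hk)
    rw [hz, Sum.elim_inr, hc] at h1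
    exact h1

end

end Pool.Agent.H310.CH
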