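import Pool.Agent.H310.CH.CaseTwo

/-!
# General tools for `y² = φ_d(x)`: characters, and sums over the two tori
-/

set_option linter.unusedSectionVars false

namespace Pool.Agent.H310.CH

open Finset

section group

variable {G : Type} [CommGroup G] [IsCyclic G] [Fintype G] [DecidableEq G]

lemma card_fiber' {d a b : ℕ} (had : Nat.gcd (Fintype.card G) d = a)
    (hab : a * b = Fintype.card G) (u : G) :
    (univ.filter (fun w : G => w ^ d = u)).card = if u ^ b = 1 then a else 0 := by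
  have hN : 0 < Fintype.card G := Fintype.card_pos
  have ha : 0 < a := Nat.pos_of_ne_zero (by rintro rfl; omega)
  have hb : 0 < b := Nat.pos_of_ne_zero (by rintro rfl; omega)
  have hdvd : Fintype.card G ∣ d * b := by
    obtain ⟨c, hc⟩ : a ∣ d := had ▸ Nat.gcd_dvd_right _ _
    rw [hc, ← hab]
    exact ⟨c, by ring⟩
  have hpow : ∀ w : G, w ^ (d * b) = 1 := by
    intro w
    obtain ⟨c, hc⟩ := hdvd
    rw [hc, pow_mul, pow_card_eq_one, one_pow]
  have hrange : (powMonoidHom d : G →* G).range = (powMonoidHom b : G →* G).ker := by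
    apply Subgroup.eq_of_le_of_card_ge
    · rintro x ⟨w, rfl⟩
      rw [MonoidHom.mem_ker, powMonoidHom_apply, powMonoidHom_apply, ← pow_mul]
      exact hpow w
    · rw [IsCyclic.card_powMonoidHom_ker, IsCyclic.card_powMonoidHom_range,
        Nat.card_eq_fintype_card, had, ← hab]
      rw [Nat.gcd_eq_right (Dvd.intro_left a rfl), Nat.mul_div_cancel_left _ ha]
  by_cases hu : u ^ b = 1
  · rw [if_pos hu]
    have h1 : u ∈ (powMonoidHom d : G →* G).range := by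
      rw [hrange, MonoidHom.mem_ker, powMonoidHom_apply, hu]
    obtain ⟨w0, hw0⟩ := h1
    rw [powMonoidHom_apply] at hw0
    have h2 : Nat.card (powMonoidHom d : G →* G).ker = a := by
      rw [IsCyclic.card_powMonoidHom_ker, Nat.card_eq_fintype_card, had]
    have h3 : Nat.card (powMonoidHom d : G →* G).ker =
        (univ.filter (fun w : G => (powMonoidHom d : G →* G) w = 1)).card :=
      Nat.subtype_card _ (by simp [MonoidHom.mem_ker])
    have h4 := MonoidHom.card_fiber_eq_of_mem_range (powMonoidHom d : G →* G) (x := u) (y := 1)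
      ⟨w0, hw0⟩ ⟨1, one_pow _⟩
    rw [h2] at h3
    rw [← h3] at h4
    exact h4
  · rw [if_neg hu, card_eq_zero, filter_eq_empty_iff]
    intro w _ hw
    apply hu
    rw [← hw, ← pow_mul]
    exact hpow w

lemma sum_pow_eq' {d a b : ℕ} (had : Nat.gcd (Fintype.card G) d = a)
    (hab : a * b = Fintype.card G) (H : G → ℂ) :
    ∑ w, H (w ^ d) = a * ∑ u ∈ univ.filter (fun u : G => u ^ b = 1), H u := by
  rw [← Finset.sum_fiberwise univ (fun w : G => w ^ d) (fun w => H (w ^ d)), mul_sum, sum_filter]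
  refine sum_congr rfl fun u _ => ?_
  rw [sum_congr rfl (g := fun _ => H u) (fun w hw => by rw [(mem_filter.mp hw).2]), sum_const,
    card_fiber' had hab, nsmul_eq_mul]
  split_ifs <;> simp

lemma sum_pow_gcd (H : G → ℂ) (d : ℕ) :
    ∑ w, H (w ^ d) = ∑ w, H (w ^ Nat.gcd (Fintype.card G) d) := by
  obtain ⟨b, hb⟩ := Nat.gcd_dvd_left (Fintype.card G) d
  rw [sum_pow_eq' rfl hb.symm, sum_pow_eq hb.symm]

end group

section chars

variable {K : Type} [Field K] [Fintype K] [DecidableEq K]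

lemma exists_order {n : ℕ} (hn : n ≠ 0) (h : n ∣ Fintype.card K - 1) :
    ∃ θ : MulChar K ℂ, orderOf θ = n :=
  MulChar.exists_mulChar_orderOf K h (Complex.isPrimitiveRoot_exp n hn)

lemma mem_powers {θ η : MulChar K ℂ} {n : ℕ} (hθ : orderOf θ = n) (hn : 0 < n)
    (hη : η ^ n = 1) : ∃ k < n, η = θ ^ k := by
  obtain ⟨g, hg⟩ := IsCyclic.exists_generator (α := Kˣ)
  have hprim : IsPrimitiveRoot (θ (g : K)) n := by
    refine ⟨?_, ?_⟩
    · rw [← MulChar.pow_apply_coe, ← hθ, pow_orderOf_eq_one, MulChar.one_apply_coe]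
    · intro l hl
      rw [← hθ, orderOf_dvd_iff_pow_eq_one, MulChar.eq_iff hg, MulChar.pow_apply_coe, hl,
        MulChar.one_apply_coe]
  have : NeZero n := ⟨hn.ne'⟩
  obtain ⟨k, hk, hk'⟩ := hprim.eq_pow_of_pow_eq_one (ξ := η (g : K)) (by
    rw [← MulChar.pow_apply_coe, hη, MulChar.one_apply_coe])
  refine ⟨k, hk, ?_⟩
  rw [MulChar.eq_iff hg, MulChar.pow_apply_coe, hk']

lemma neg_one_eq (_hK : ringChar K ≠ 2) {g : Kˣ} (hg : ∀ x, x ∈ Subgroup.zpowers g) {c : ℕ}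
    (hc : 2 * c = Fintype.card K - 1) : ((g ^ c : Kˣ) : K) = -1 := by
  have h2 := two_le_card (L := K)
  have hgcard : orderOf g = Fintype.card K - 1 := by
    rw [orderOf_eq_card_of_forall_mem_zpowers hg, Nat.card_eq_fintype_card, Fintype.card_units]
  have h1 : (g ^ c) ^ 2 = 1 := by
    rw [← pow_mul, mul_comm, hc, ← hgcard, pow_orderOf_eq_one]
  have h3 : g ^ c ≠ 1 := by
    intro h
    have h4 := orderOf_dvd_of_pow_eq_one h
    rw [hgcard] at h4
    have := Nat.le_of_dvd (by omega) h4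
    omega
  have h4 : ((g ^ c : Kˣ) : K) * ((g ^ c : Kˣ) : K) = 1 := by
    rw [← Units.val_mul, ← sq, h1, Units.val_one]
  rcases mul_self_eq_one_iff.mp h4 with h | h
  · exact absurd (Units.ext h) h3
  · exact h

lemma char_neg_one (hK : ringChar K ≠ 2) {η : MulChar K ℂ} {n : ℕ} (hη : η ^ n = 1)
    (hn : 2 * n ∣ Fintype.card K - 1) : η (-1) = 1 := by
  obtain ⟨g, hg⟩ := IsCyclic.exists_generator (α := Kˣ)
  obtain ⟨c, hc⟩ := hn
  rw [← neg_one_eq hK hg (c := n * c) (by rw [hc]; ring), Units.val_pow_eq_pow_val, map_pow,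
    pow_mul, ← MulChar.pow_apply_coe, hη, MulChar.one_apply_coe, one_pow]

lemma exists_sqrt (hK : ringChar K ≠ 2) {η : MulChar K ℂ} (h : η (-1) = 1) :
    ∃ ψ : MulChar K ℂ, ψ ^ 2 = η := by
  obtain ⟨g, hg⟩ := IsCyclic.exists_generator (α := Kˣ)
  have hodd : Fintype.card K % 2 = 1 := FiniteField.odd_card_of_char_ne_two hK
  have h2 := two_le_card (L := K)
  obtain ⟨c, hc⟩ : ∃ c, 2 * c = Fintype.card K - 1 := ⟨(Fintype.card K - 1) / 2, by omega⟩
  obtain ⟨s, hs⟩ := IsAlgClosed.exists_pow_nat_eq (η (g : K)) (n := 2) (by norm_num)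
  have hsN : s ^ Fintype.card Kˣ = 1 := by
    rw [Fintype.card_units, ← hc, pow_mul, hs, ← map_pow, ← Units.val_pow_eq_pow_val,
      neg_one_eq hK hg hc, h]
  have hcard : Fintype.card Kˣ ≠ 0 := Fintype.card_ne_zero
  have hs0 : s ≠ 0 := by
    rintro rfl
    rw [zero_pow hcard] at hsN
    exact zero_ne_one hsN
  have hmem : Units.mk0 s hs0 ∈ rootsOfUnity (Fintype.card Kˣ) ℂ := by
    rw [mem_rootsOfUnity]
    apply Units.ext
    rw [Units.val_pow_eq_pow_val, Units.val_mk0, hsN, Units.val_one]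
  refine ⟨MulChar.ofRootOfUnity hmem hg, ?_⟩
  rw [MulChar.eq_iff hg, MulChar.pow_apply_coe, MulChar.ofRootOfUnity_spec, Units.val_mk0, hs]

lemma exists_prim (p : ℕ) [Fact p.Prime] [Algebra (ZMod p) K] :
    ∃ ψ : AddChar K ℂ, ψ.IsPrimitive := by
  have hp : p.Prime := Fact.out
  exact ⟨_, psi_prim (Complex.isPrimitiveRoot_exp p hp.ne_zero)⟩

/-- sums on the split torus -/
noncomputable def AA (η : MulChar K ℂ) : ℂ :=
  ∑ u : Kˣ, η (u : K) * qc K ((u : K) + ((u⁻¹ : Kˣ) : K))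

lemma AA_neg (hq : qc K (-1) = 1) {η : MulChar K ℂ} (h : η (-1) = -1) : AA η = 0 := by
  have h1 : AA η = - AA η := by
    unfold AA
    rw [← sum_neg_distrib, ← Equiv.sum_comp (Equiv.neg Kˣ)]
    refine sum_congr rfl fun u _ => ?_
    rw [Equiv.neg_apply, inv_neg, Units.val_neg, Units.val_neg, ← neg_add, ← neg_one_mul (u : K),
      ← neg_one_mul ((u : K) + _), map_mul, map_mul, h, hq]
    ring
  have h2 : 2 * AA η = 0 := by linear_combination h1
  exact (mul_eq_zero.mp h2).resolve_left two_ne_zero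

lemma AA_sq (hK : ringChar K ≠ 2) (ψ : MulChar K ℂ) :
    AA (ψ ^ 2 * qc K) = KK ψ + KK (ψ * qc K) := by
  have h1 : ∀ u : Kˣ, (ψ ^ 2 * qc K) (u : K) * qc K ((u : K) + ((u⁻¹ : Kˣ) : K)) =
      ψ ((u : K) ^ 2) * qc K ((u : K) ^ 2 + 1) := by
    intro u
    have h2 : qc K ((u : K) ^ 2 + 1) = qc K (u : K) * qc K ((u : K) + ((u⁻¹ : Kˣ) : K)) := by
      rw [← map_mul]
      congr 1
      rw [Units.val_inv_eq_inv_val]
      have := u.ne_zero
      field_simp
    rw [h2, MulChar.mul_apply, MulChar.pow_apply_coe, map_pow]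
    ring
  unfold AA
  rw [sum_congr rfl fun u _ => h1 u]
  rw [← sum_units (fun y : K => ψ (y ^ 2) * qc K (y ^ 2 + 1)) (by simp [MulChar.map_zero]),
    sum_sq hK (fun y : K => ψ y * qc K (y + 1))]
  unfold KK
  rw [← sum_add_distrib]
  refine sum_congr rfl fun y _ => ?_
  rw [MulChar.mul_apply]; ring

lemma sum_shift (hK : ringChar K ≠ 2) : ∑ y : K, qc K (y + 1) = 0 := by
  rw [← MulChar.sum_eq_zero_of_ne_one (qc_ne_one hK)]
  exact Fintype.sum_equiv (Equiv.addRight 1) _ _ fun x => rfl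

lemma KK_one (hK : ringChar K ≠ 2) : KK (1 : MulChar K ℂ) = -1 := by
  have h1 : ∀ y : K, (1 : MulChar K ℂ) y * qc K (y + 1) =
      qc K (y + 1) - (if y = 0 then 1 else 0) := by
    intro y
    split_ifs with hy
    · rw [hy, MulChar.map_zero, zero_add, map_one]; ring
    · rw [MulChar.one_apply (Ne.isUnit hy)]; ring
  unfold KK
  rw [sum_congr rfl fun y _ => h1 y, sum_sub_distrib, sum_shift hK]
  simp

lemma KK_qc (hK : ringChar K ≠ 2) : KK (qc K) = -1 := by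
  have h1 : (qc K)⁻¹ = qc K := by
    rw [inv_eq_iff_mul_eq_one, ← sq, qc_sq]
  have h2 := jacobiSum_nontrivial_inv (qc_ne_one hK)
  rw [h1] at h2
  have h3 : qc K (-1) * qc K (-1) = 1 := qc_mul_self (neg_ne_zero.mpr one_ne_zero)
  rw [KK_eq, h2]
  linear_combination -h3

lemma AA_qc (hK : ringChar K ≠ 2) : AA (qc K) = -2 := by
  have h1 := AA_sq hK (1 : MulChar K ℂ)
  rw [one_pow, one_mul, KK_one hK, KK_qc hK] at h1
  rw [h1]; norm_num

lemma norm_AA_le (hK : ringChar K ≠ 2) (p : ℕ) [Fact p.Prime] [Algebra (ZMod p) K] {q : ℕ}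
    (hq : Fintype.card K = q ^ 2) (hneg : qc K (-1) = 1) {η : MulChar K ℂ} (hη : η ≠ qc K) :
    ‖AA η‖ ≤ 2 * q := by
  have hη1 : η (-1) * η (-1) = 1 := by rw [← map_mul]; norm_num
  rcases mul_self_eq_one_iff.mp hη1 with h | h
  · obtain ⟨ψ, hψ⟩ := exists_sqrt hK (η := η * qc K) (by rw [MulChar.mul_apply, h, hneg, one_mul])
    have h2 : η = ψ ^ 2 * qc K := by
      rw [hψ, mul_assoc, ← sq, qc_sq, mul_one]
    have hψ1 : ψ ≠ 1 := by
      rintro rfl
      apply hη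
      rw [h2, one_pow, one_mul]
    have hψ2 : ψ * qc K ≠ 1 := by
      intro h3
      apply hη
      have h4 : ψ ^ 2 = 1 := by
        have : (ψ * qc K) ^ 2 = ψ ^ 2 := by rw [mul_pow, qc_sq, mul_one]
        rw [← this, h3, one_pow]
      rw [h2, h4, one_mul]
    have hψ3 : ψ * qc K * qc K ≠ 1 := by
      rw [mul_assoc, ← sq, qc_sq, mul_one]; exact hψ1
    obtain ⟨ψ0, hψ0⟩ := exists_prim (K := K) p
    have hb : ∀ χ : MulChar K ℂ, χ ≠ 1 → χ * qc K ≠ 1 → ‖KK χ‖ = q := by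
      intro χ h1 h2
      have h3 := norm_KK hK hψ0 h1 h2
      rw [hq] at h3
      push_cast at h3
      exact (pow_left_inj₀ (norm_nonneg _) (Nat.cast_nonneg _) two_ne_zero).mp h3
    rw [h2, AA_sq hK]
    refine (norm_add_le _ _).trans ?_
    rw [hb ψ hψ1 hψ2, hb _ hψ2 hψ3]
    linarith
  · rw [AA_neg hneg h, norm_zero]
    positivity

end chars

section nonsplit

variable {F E : Type} [Field F] [Fintype F] [DecidableEq F] [Field E] [Fintype E] [DecidableEq E]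
  [Algebra F E] {Q : ℕ}

/-- sums on the nonsplit torus -/
noncomputable def BB (F : Type) {E : Type} [Field F] [Fintype F] [DecidableEq F] [Field E]
    [Fintype E] [DecidableEq E] [Algebra F E] (Q : ℕ) (η : MulChar E ℂ) : ℂ :=
  ∑ w : Eˣ, η (w : E) * HH F (w ^ (Q - 1))

lemma BB_sq (hQ : Fintype.card F = Q) (hE : Fintype.card E = Q ^ 2) (hodd : Q % 2 = 1)
    (Ψ : MulChar E ℂ) : BB F Q (Ψ ^ 2 * qc E) = EE F Ψ + EE F (Ψ * qc E) := by
  have hEE := hE2 hE hodd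
  have h1 : ∀ w : Eˣ, (Ψ ^ 2 * qc E) (w : E) * HH F (w ^ (Q - 1)) =
      Ψ ((w : E) ^ 2) * qc F (Algebra.trace F E ((w : E) ^ 2)) := by
    intro w
    rw [HH_pow hQ hE hodd, MulChar.mul_apply, MulChar.pow_apply_coe, map_pow Ψ (w : E) 2]
    linear_combination (Ψ (w : E) ^ 2 * qc F (Algebra.trace F E ((w : E) ^ 2))) *
      qc_mul_self w.ne_zero
  unfold BB
  rw [sum_congr rfl fun w _ => h1 w,
    ← sum_units (fun y : E => Ψ (y ^ 2) * qc F (Algebra.trace F E (y ^ 2))) (by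
      simp [MulChar.map_zero]),
    sum_sq hEE (fun y : E => Ψ y * qc F (Algebra.trace F E y))]
  unfold EE
  rw [← sum_add_distrib]
  refine sum_congr rfl fun y _ => ?_
  rw [MulChar.mul_apply]; ring

variable {p : ℕ} [Fact p.Prime] [Algebra (ZMod p) F] [Algebra (ZMod p) E]
  [IsScalarTower (ZMod p) F E]

lemma norm_gF {q : ℕ} (hQ : Fintype.card F = Q) (hodd : Q % 2 = 1) (hq : Q = q ^ 2) {ζ : ℂ}
    (hζ : IsPrimitiveRoot ζ p) :
    ‖gaussSum (qc F) (psi hζ.pow_eq_one : AddChar F ℂ)‖ = q := by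
  have h1 := norm_gauss (psi_prim (L := F) hζ) (qc_ne_one (hF2 hQ hodd))
  rw [hQ, hq] at h1
  push_cast at h1
  exact (pow_left_inj₀ (norm_nonneg _) (Nat.cast_nonneg _) two_ne_zero).mp h1

lemma norm_EE_le (p : ℕ) [Fact p.Prime] [Algebra (ZMod p) F] [Algebra (ZMod p) E]
    [IsScalarTower (ZMod p) F E] {q : ℕ} (hQ : Fintype.card F = Q) (hE : Fintype.card E = Q ^ 2)
    (hodd : Q % 2 = 1) (hq : Q = q ^ 2) (hq0 : 0 < q) (Ψ : MulChar E ℂ) :
    ‖EE F Ψ‖ ≤ ((Q : ℝ) - 1) * q := by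
  have hp : p.Prime := Fact.out
  have hζ := Complex.isPrimitiveRoot_exp p hp.ne_zero
  have h2Q := two_le_Q hQ
  have hQ2 : (2 : ℝ) ≤ Q := by exact_mod_cast h2Q
  have h1 := congrArg (fun z : ℂ => ‖z‖) (EE_gauss (E := E) hζ (hF2 hQ hodd) Ψ)
  simp only [norm_mul] at h1
  rw [norm_gF hQ hodd hq hζ] at h1
  have h2 : ‖gaussSum Ψ (psi hζ.pow_eq_one)‖ ≤ Q := by
    by_cases hΨ : Ψ = 1
    · rw [hΨ, gaussSum_one_left (psi_ne_one hζ), norm_neg, norm_one]
      linarith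
    · have h3 := norm_gauss (psi_prim (L := E) hζ) hΨ
      rw [hE] at h3
      push_cast at h3
      exact ((pow_left_inj₀ (norm_nonneg _) (Nat.cast_nonneg _) two_ne_zero).mp h3).le
  have h3 : (q : ℝ) * ‖EE F Ψ‖ ≤ ((Q : ℝ) - 1) * Q := by
    rw [h1]
    exact mul_le_mul (norm_lam hQ _) h2 (norm_nonneg _) (by linarith)
  have hq0' : (0 : ℝ) < q := by exact_mod_cast hq0
  have hQq : (Q : ℝ) = (q : ℝ) ^ 2 := by rw [hq]; push_cast; ring
  have h4 : (q : ℝ) * ‖EE F Ψ‖ ≤ q * (((Q : ℝ) - 1) * q) := by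
    calc (q : ℝ) * ‖EE F Ψ‖ ≤ ((Q : ℝ) - 1) * Q := h3
      _ = q * (((Q : ℝ) - 1) * q) := by
        nth_rewrite 2 [hQq]; ring
  exact le_of_mul_le_mul_left h4 hq0'

lemma norm_BB_le (p : ℕ) [Fact p.Prime] [Algebra (ZMod p) F] [Algebra (ZMod p) E]
    [IsScalarTower (ZMod p) F E] {q : ℕ} (hQ : Fintype.card F = Q) (hE : Fintype.card E = Q ^ 2)
    (hodd : Q % 2 = 1) (hq : Q = q ^ 2) (hq0 : 0 < q) {η : MulChar E ℂ} {d : ℕ}
    (hd : d ∣ Q + 1) (hη : η ^ d = 1) :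
    ‖BB F Q η‖ ≤ ((Q : ℝ) - 1) * (2 * q) := by
  have hEE := hE2 hE hodd
  have h2Q := two_le_Q hQ
  have hfac : Fintype.card E - 1 = (Q - 1) * (Q + 1) := by
    rw [hE]
    obtain ⟨c, hc⟩ : ∃ c, Q = c + 1 := ⟨Q - 1, by omega⟩
    rw [hc, Nat.add_sub_cancel]
    have : (c + 1) ^ 2 = c * (c + 1 + 1) + 1 := by ring
    rw [this]; omega
  have h1 : η (-1) = 1 := char_neg_one hEE hη (by
    rw [hfac]
    exact Nat.mul_dvd_mul (by omega) hd)
  have h2 : qc E (-1) = 1 := by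
    apply char_neg_one hEE qc_sq
    rw [hfac]
    have e1 : 2 ∣ Q - 1 := by omega
    have e2 : 2 ∣ Q + 1 := by omega
    exact Nat.mul_dvd_mul e1 e2
  obtain ⟨Ψ, hΨ⟩ := exists_sqrt hEE (η := η * qc E) (by rw [MulChar.mul_apply, h1, h2, one_mul])
  have h3 : η = Ψ ^ 2 * qc E := by
    rw [hΨ, mul_assoc, ← sq, qc_sq, mul_one]
  rw [h3, BB_sq hQ hE hodd]
  refine (norm_add_le _ _).trans ?_
  have e1 := norm_EE_le p hQ hE hodd hq hq0 Ψ
  have e2 := norm_EE_le p hQ hE hodd hq hq0 (Ψ * qc E)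
  linarith

lemma lam_eq_zero (hQ : Fintype.card F = Q) (hodd : Q % 2 = 1)
    {Ψ : MulChar E ℂ} (h : ∀ x : F, x ≠ 0 → Ψ (algebraMap F E x) = 1) : lam F Ψ = 0 := by
  unfold lam
  rw [← MulChar.sum_eq_zero_of_ne_one (qc_ne_one (hF2 hQ hodd))]
  refine sum_congr rfl fun x _ => ?_
  by_cases hx : x = 0
  · rw [hx, MulChar.map_zero, zero_mul]
  · rw [MulChar.inv_apply', ← map_inv₀, h _ (inv_ne_zero hx), mul_one]

lemma qc_alg (hQ : Fintype.card F = Q) (hE : Fintype.card E = Q ^ 2) (hodd : Q % 2 = 1)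
    {x : F} (hx : x ≠ 0) : qc E (algebraMap F E x) = 1 := by
  obtain ⟨s, hs⟩ := alg_square (E := E) hQ hE hodd x
  have hs0 : s ≠ 0 := by
    rintro rfl
    have : algebraMap F E x = 0 := by rw [← hs]; ring
    rw [map_eq_zero_iff _ (algebraMap F E).injective] at this
    exact hx this
  rw [← hs, qc_of_sq hs0]

lemma BB_qc (p : ℕ) [Fact p.Prime] [Algebra (ZMod p) F] [Algebra (ZMod p) E]
    [IsScalarTower (ZMod p) F E] {q : ℕ} (hQ : Fintype.card F = Q) (hE : Fintype.card E = Q ^ 2)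
    (hodd : Q % 2 = 1) (hq : Q = q ^ 2) (hq0 : 0 < q) : BB F Q (qc E) = 0 := by
  have hp : p.Prime := Fact.out
  have hζ := Complex.isPrimitiveRoot_exp p hp.ne_zero
  have hg0 : gaussSum (qc F) (psi hζ.pow_eq_one : AddChar F ℂ) ≠ 0 := by
    intro h
    have := norm_gF hQ hodd hq hζ
    rw [h, norm_zero] at this
    have : (0 : ℝ) < q := by exact_mod_cast hq0
    linarith
  have key : ∀ Ψ : MulChar E ℂ, (∀ x : F, x ≠ 0 → Ψ (algebraMap F E x) = 1) → EE F Ψ = 0 := by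
    intro Ψ h
    have h1 := EE_gauss (E := E) hζ (hF2 hQ hodd) Ψ
    rw [lam_eq_zero hQ hodd h, zero_mul] at h1
    exact (mul_eq_zero.mp h1).resolve_left hg0
  have h1 := BB_sq hQ hE hodd (1 : MulChar E ℂ)
  rw [one_pow, one_mul] at h1
  rw [h1, key 1 ?_, key (qc E) ?_, add_zero]
  · intro x hx
    exact qc_alg hQ hE hodd hx
  · intro x hx
    exact MulChar.one_apply (Ne.isUnit (by
      rw [Ne, map_eq_zero_iff _ (algebraMap F E).injective]; exact hx))

end nonsplit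

end Pool.Agent.H310.CH
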