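import Pool.Agent.H310.CH.Gen

/-!
# The quadratic Gauss sum over a quadratic extension
-/

set_option linter.unusedSectionVars false

namespace Pool.Agent.H310.CH

open Finset

lemma sum_mulShift_sq {K : Type} [Field K] [Fintype K] [DecidableEq K] (hK : ringChar K ≠ 2)
    {ψ : AddChar K ℂ} (hψ : ψ.IsPrimitive) {c : K} (hc : c ≠ 0) :
    ∑ t : K, ψ (c * t ^ 2) = qc K c * gaussSum (qc K) ψ := by
  rw [sum_sq hK (fun u => ψ (c * u))]
  have h1 : ∑ u : K, ψ (c * u) = 0 := by
    have h := AddChar.sum_mulShift c hψ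
    rw [if_neg hc] at h
    rw [← Nat.cast_zero (R := ℂ), ← h]
    exact sum_congr rfl fun x _ => by rw [mul_comm]
  have h2 := gaussSum_mulShift (qc K) ψ (Units.mk0 c hc)
  rw [Units.val_mk0] at h2
  have h3 : gaussSum (qc K) (ψ.mulShift c) = ∑ u : K, ψ (c * u) * qc K u := by
    unfold gaussSum
    exact sum_congr rfl fun x _ => by rw [AddChar.mulShift_apply, mul_comm]
  simp only [mul_add, mul_one, sum_add_distrib]
  rw [h1, zero_add, ← h3, ← h2, ← mul_assoc, qc_mul_self hc, one_mul]

section

variable {F E : Type} [Field F] [Fintype F] [DecidableEq F] [Field E] [Fintype E] [DecidableEq E]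
  [Algebra F E] {Q : ℕ} {p : ℕ} [Fact p.Prime] [Algebra (ZMod p) F] [Algebra (ZMod p) E]
  [IsScalarTower (ZMod p) F E]

/-- the quadratic Gauss sum over a quadratic extension of a field with `Q ≡ 1 (mod 4)` elements -/
theorem gauss_quad (hQ : Fintype.card F = Q) (hE : Fintype.card E = Q ^ 2) (hQ4 : Q % 4 = 1)
    {ζ : ℂ} (hζ : IsPrimitiveRoot ζ p) :
    gaussSum (qc E) (psi hζ.pow_eq_one : AddChar E ℂ) = -(Q : ℂ) := by
  have hodd : Q % 2 = 1 := by omega
  have hF := hF2 hQ hodd
  have hEE := hE2 hE hodd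
  have hprimF : (psi hζ.pow_eq_one : AddChar F ℂ).IsPrimitive := psi_prim hζ
  have hprimE : (psi hζ.pow_eq_one : AddChar E ℂ).IsPrimitive := psi_prim hζ
  obtain ⟨D, hD⟩ := quadraticChar_exists_neg_one' (F := F) hF
  have hD0 : (D : F) ≠ 0 := D.ne_zero
  obtain ⟨δ, hδ⟩ := alg_square (E := E) hQ hE hodd (D : F)
  have hδQ : δ ^ Q = -δ := by
    have h1 : δ ^ Q * δ ^ Q = δ * δ := by
      rw [← sq, ← sq, ← pow_mul, mul_comm Q 2, pow_mul, hδ, frob_alg hQ]
    rcases mul_self_eq_mul_self_iff.mp h1 with h | h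
    · exfalso
      obtain ⟨x, hx⟩ := mem_range_of_frob hQ h
      have h2 : (D : F) = x ^ 2 := by
        apply (algebraMap F E).injective
        rw [map_pow, hx, hδ]
      have h3 : quadraticChar F (D : F) = 1 := by
        rw [h2]
        apply quadraticChar_sq_one'
        rintro rfl
        apply hD0
        rw [h2]; ring
      rw [h3] at hD
      norm_num at hD
    · exact h
  have h2E : (2 : E) ≠ 0 := Ring.two_ne_zero hEE
  have h2F : (2 : F) ≠ 0 := Ring.two_ne_zero hF
  have hδ0 : δ ≠ 0 := by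
    rintro rfl
    apply hD0
    apply (algebraMap F E).injective
    rw [← hδ, map_zero]; ring
  let g : F × F → E := fun x => algebraMap F E x.1 + algebraMap F E x.2 * δ
  have hgQ : ∀ x : F × F, g x ^ Q = algebraMap F E x.1 - algebraMap F E x.2 * δ := by
    intro x
    change (algebraMap F E x.1 + algebraMap F E x.2 * δ) ^ Q = _
    rw [frob_add hQ, mul_pow, frob_alg hQ, frob_alg hQ, hδQ]; ring
  have hginj : Function.Injective g := by
    intro x y hxy
    have h1 : g x ^ Q = g y ^ Q := by rw [hxy]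
    rw [hgQ, hgQ] at h1
    have h2 : algebraMap F E x.1 + algebraMap F E x.2 * δ =
        algebraMap F E y.1 + algebraMap F E y.2 * δ := hxy
    have h3 : algebraMap F E x.1 = algebraMap F E y.1 := by
      apply mul_left_cancel₀ h2E
      linear_combination h1 + h2
    have h4 : algebraMap F E x.2 = algebraMap F E y.2 := by
      have : (2 * δ) * algebraMap F E x.2 = (2 * δ) * algebraMap F E y.2 := by
        linear_combination h2 - h1
      exact mul_left_cancel₀ (mul_ne_zero h2E hδ0) this
    exact Prod.ext ((algebraMap F E).injective h3) ((algebraMap F E).injective h4)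
  have hgbij : Function.Bijective g := by
    rw [Fintype.bijective_iff_injective_and_card]
    refine ⟨hginj, ?_⟩
    rw [Fintype.card_prod, hQ, hE, sq]
  have htr : ∀ x : F × F, Algebra.trace F E (g x ^ 2) = 2 * x.1 ^ 2 + (2 * D) * x.2 ^ 2 := by
    intro x
    apply (algebraMap F E).injective
    rw [alg_trace hQ hE, ← pow_mul, mul_comm 2 Q, pow_mul, hgQ]
    change (algebraMap F E x.1 + algebraMap F E x.2 * δ) ^ 2 + _ = _
    rw [map_add, map_mul, map_mul, map_mul, map_pow, map_pow, ← hδ, map_ofNat]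
    ring
  have h1 := sum_mulShift_sq hEE hprimE (c := 1) one_ne_zero
  simp only [one_mul, map_one] at h1
  rw [← h1]
  have h2 : ∑ t : E, (psi hζ.pow_eq_one : AddChar E ℂ) (t ^ 2) =
      ∑ x : F × F, (psi hζ.pow_eq_one : AddChar F ℂ) (2 * x.1 ^ 2) *
        (psi hζ.pow_eq_one : AddChar F ℂ) ((2 * D) * x.2 ^ 2) := by
    rw [← Function.Bijective.sum_comp hgbij]
    refine sum_congr rfl fun x _ => ?_
    rw [psi_trace (F := F), htr, AddChar.map_add_eq_mul]
  rw [h2, ← univ_product_univ, sum_product]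
  simp only [← mul_sum, ← sum_mul]
  rw [sum_mulShift_sq hF hprimF h2F, sum_mulShift_sq hF hprimF (mul_ne_zero h2F hD0), map_mul]
  have h3 : gaussSum (qc F) (psi hζ.pow_eq_one : AddChar F ℂ) ^ 2 = Q := by
    have hquad : (qc F).IsQuadratic := by
      intro a
      rcases quadraticChar_isQuadratic F a with h | h | h
      · left; rw [qc_apply, h]; simp
      · right; left; rw [qc_apply, h]; simp
      · right; right; rw [qc_apply, h]; simp
    have h4 := gaussSum_sq (qc_ne_one hF) hquad hprimF
    rw [h4, hQ, char_neg_one hF qc_sq (by rw [hQ]; omega), one_mul]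
  have h5 : qc F (D : F) = -1 := by rw [qc_apply, hD]; simp
  have h6 := qc_mul_self h2F
  rw [h5]
  linear_combination (-(qc F 2 * qc F 2)) * h3 - (Q : ℂ) * h6

end

end Pool.Agent.H310.CH
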