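import Pool.Agent.H310.CH.Gen
import Pool.Agent.H310.CH.Bridge

/-!
# Gauss sum relations from extremal torus sums, and the resulting digit sum relations
-/

set_option linter.unusedSectionVars false

namespace Pool.Agent.H310.CH

open Finset Pool.Agent.H916K Pool.Agent.H916R2

section one

variable {F : Type} [Field F] [Fintype F] [DecidableEq F]

lemma KK_of_AA (p : ℕ) [Fact p.Prime] [Algebra (ZMod p) F] (hF : ringChar F ≠ 2) {e q : ℕ}
    (he : 0 < e) (hq : Fintype.card F = q ^ 2) {Ψ : MulChar F ℂ} (hΨ : orderOf Ψ = 4 * e)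
    (hA : AA (Ψ ^ 2 * qc F) = 2 * q) : KK Ψ = q ∧ KK (Ψ * qc F) = q := by
  have hqc : Ψ ^ (2 * e) = qc F := pow_eq_qc hF (by omega) (by rw [hΨ]; ring)
  obtain ⟨ψ, hprim⟩ := exists_prim (K := F) p
  have hb : ∀ n : ℕ, n % 2 = 1 → ‖KK (Ψ ^ n)‖ = q := by
    intro n hn
    have h1 := norm_KK hF hprim (odd_pow_ne_one hΨ hn) (by
      rw [← hqc, ← pow_add]
      exact odd_pow_ne_one hΨ (by omega))
    rw [hq] at h1
    push_cast at h1
    exact (pow_left_inj₀ (norm_nonneg _) (Nat.cast_nonneg _) two_ne_zero).mp h1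
  have h1 : ‖KK Ψ‖ = q := by have := hb 1 rfl; rwa [pow_one] at this
  have h2 : ‖KK (Ψ * qc F)‖ = q := by
    rw [← hqc, ← pow_succ']
    exact hb _ (by omega)
  rw [AA_sq hF] at hA
  exact eq_of_add_eq (by rw [h1]; simp) (by rw [h2]; simp) hA

theorem gauss_of_AA {p : ℕ} [Fact p.Prime] [Algebra (ZMod p) F] (hF : ringChar F ≠ 2) {e q : ℕ}
    (he : 0 < e) (hq : Fintype.card F = q ^ 2) (hq0 : 0 < q) (ζ : ℂ) (hζ : IsPrimitiveRoot ζ p)
    {Ψ : MulChar F ℂ} (hΨ : orderOf Ψ = 4 * e) (hA : AA (Ψ ^ 2 * qc F) = 2 * q) :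
    gaussSum Ψ (psi hζ.pow_eq_one) ^ 2 =
      gaussSum (Ψ ^ (2 * e + 1)) (psi hζ.pow_eq_one) ^ 2 := by
  have hqc : Ψ ^ (2 * e) = qc F := pow_eq_qc hF (by omega) (by rw [hΨ]; ring)
  obtain ⟨h2, h3⟩ := KK_of_AA p hF he hq hΨ hA
  have e3 : Ψ * qc F = Ψ ^ (2 * e + 1) := by rw [← hqc, pow_succ, mul_comm]
  have e2 : Ψ ^ (2 * e + 1) * qc F = Ψ := by
    rw [← e3, mul_assoc, ← sq, qc_sq, mul_one]
  have k1 := KK_mul (ψ := psi hζ.pow_eq_one) (χ := Ψ) (by
    rw [e3]; exact odd_pow_ne_one hΨ (by omega))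
  have k2 := KK_mul (ψ := psi hζ.pow_eq_one) (χ := Ψ ^ (2 * e + 1)) (by
    rw [e2]
    have := odd_pow_ne_one hΨ (n := 1) rfl
    rwa [pow_one] at this)
  rw [e3] at h3
  rw [e3, h2] at k1
  rw [e2, h3] at k2
  have hneg : (Ψ ^ (2 * e + 1)) (-1) = Ψ (-1) := by
    have h4 : Ψ (-1) ^ 2 = 1 := by
      rw [← map_pow]; norm_num
    rw [MulChar.pow_apply' _ (by omega), pow_succ, pow_mul, h4, one_pow, one_mul]
  rw [hneg] at k2
  have hqC : (q : ℂ) ≠ 0 := Nat.cast_ne_zero.mpr hq0.ne'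
  set A := gaussSum Ψ (psi hζ.pow_eq_one) with hA
  set B := gaussSum (Ψ ^ (2 * e + 1)) (psi hζ.pow_eq_one) with hB
  apply mul_left_cancel₀ hqC
  linear_combination A * k2 - B * k1

end one

section two

variable {F E : Type} [Field F] [Fintype F] [DecidableEq F] [Field E] [Fintype E] [DecidableEq E]
  [Algebra F E] {Q : ℕ}

lemma lam_mul_qc (hQ : Fintype.card F = Q) (hE : Fintype.card E = Q ^ 2) (hodd : Q % 2 = 1)
    (Ψ : MulChar E ℂ) : lam F (Ψ * qc E) = lam F Ψ := by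
  unfold lam
  refine sum_congr rfl fun x _ => ?_
  by_cases hx : x = 0
  · rw [hx, MulChar.map_zero, zero_mul, zero_mul]
  · congr 1
    rw [MulChar.inv_apply', MulChar.inv_apply', MulChar.mul_apply, ← map_inv₀,
      qc_alg hQ hE hodd (inv_ne_zero hx), mul_one]

theorem gauss_of_BB {p : ℕ} [Fact p.Prime] [Algebra (ZMod p) F] [Algebra (ZMod p) E]
    [IsScalarTower (ZMod p) F E] {e q : ℕ} (he : 0 < e) (hQ : Fintype.card F = Q)
    (hE : Fintype.card E = Q ^ 2) (hodd : Q % 2 = 1) (hq : Q = q ^ 2) (hq0 : 0 < q) (ζ : ℂ)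
    (hζ : IsPrimitiveRoot ζ p) {Ψ : MulChar E ℂ} (hΨ : orderOf Ψ = 4 * e)
    (hB : BB F Q (Ψ ^ 2 * qc E) = ((Q - 1 : ℕ) : ℂ) * (2 * q)) :
    gaussSum Ψ (psi hζ.pow_eq_one) ^ 2 =
      gaussSum (Ψ ^ (2 * e + 1)) (psi hζ.pow_eq_one) ^ 2 := by
  have hEE := hE2 hE hodd
  have hqc : Ψ ^ (2 * e) = qc E := pow_eq_qc hEE (by omega) (by rw [hΨ]; ring)
  have h2Q := two_le_Q hQ
  have hQ2 : (2 : ℝ) ≤ Q := by exact_mod_cast h2Q
  have hq0' : (0 : ℝ) < q := by exact_mod_cast hq0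
  set c : ℂ := ((Q - 1 : ℕ) : ℂ) * q with hc
  have hcn : ‖c‖ = ((Q : ℝ) - 1) * q := by
    rw [hc, norm_mul, Complex.norm_natCast, Complex.norm_natCast, Nat.cast_sub (by omega)]
    simp
  rw [BB_sq hQ hE hodd] at hB
  obtain ⟨h2, h3⟩ := eq_of_add_eq (a := EE F Ψ) (b := EE F (Ψ * qc E)) (c := c)
    (by rw [hcn]; exact norm_EE_le p hQ hE hodd hq hq0 Ψ)
    (by rw [hcn]; exact norm_EE_le p hQ hE hodd hq hq0 _) (by rw [hB, hc]; ring)
  have e3 : Ψ * qc E = Ψ ^ (2 * e + 1) := by rw [← hqc, pow_succ, mul_comm]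
  have k1 := EE_gauss (E := E) hζ (hF2 hQ hodd) Ψ
  have k2 := EE_gauss (E := E) hζ (hF2 hQ hodd) (Ψ * qc E)
  rw [lam_mul_qc hQ hE hodd, h3, e3] at k2
  rw [h2] at k1
  have hl0 : lam F Ψ ≠ 0 := by
    intro h
    rw [h, zero_mul] at k1
    have h4 : ‖gaussSum (qc F) (psi hζ.pow_eq_one : AddChar F ℂ) * c‖ = 0 := by
      rw [k1, norm_zero]
    rw [norm_mul, norm_gF hQ hodd hq hζ, hcn] at h4
    have : (0 : ℝ) < q * (((Q : ℝ) - 1) * q) := by
      apply mul_pos hq0'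
      apply mul_pos (by linarith) hq0'
    linarith
  have h4 : gaussSum Ψ (psi hζ.pow_eq_one) = gaussSum (Ψ ^ (2 * e + 1)) (psi hζ.pow_eq_one) := by
    apply mul_left_cancel₀ hl0
    rw [← k1, ← k2]
  rw [h4]

end two

/-- equality of Gauss sums (up to sign) gives equality of digit sums -/
theorem sums_of_gauss {e p : ℕ} [Fact p.Prime] (he : 0 < e) {L : Type} [Field L] [Fintype L]
    [Algebra (ZMod p) L] (hdvd : 4 * e ∣ Fintype.card L - 1)
    (H : ∀ (ζ : ℂ) (hζ : IsPrimitiveRoot ζ p) (Ψ : MulChar L ℂ), orderOf Ψ = 4 * e →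
      gaussSum Ψ (psi hζ.pow_eq_one) ^ 2 = gaussSum (Ψ ^ (2 * e + 1)) (psi hζ.pow_eq_one) ^ 2)
    (t s : ZMod (4 * e)) (ht : IsUnit t) (hs : s = t + 2 * (e : ZMod (4 * e))) :
    ∑ i ∈ range (Module.finrank (ZMod p) L), (p ^ i * t.val % (4 * e)) =
      ∑ i ∈ range (Module.finrank (ZMod p) L), (p ^ i * s.val % (4 * e)) := by
  classical
  have hp : p.Prime := Fact.out
  obtain ⟨k, _, _, _, φ, Γ, _, v, hv⟩ := exists_val' hp
  let _ : Algebra (ZMod p) k := ZMod.algebra k p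
  let ι : L →ₐ[ZMod p] k := IsAlgClosed.lift
  have hL3 : 3 ≤ Fintype.card L := by
    have h1 := two_le_card (L := L)
    have := Nat.le_of_dvd (by omega) hdvd
    omega
  obtain ⟨χ, hχ, hχφ⟩ := exists_teich (L := L) φ ι.toRingHom p
  obtain ⟨ζ, hζ⟩ := exists_root p hp.ne_zero
  have hinj : Function.Injective (algebraMap AI ℂ) := Subtype.val_injective
  have hζC : IsPrimitiveRoot (algebraMap AI ℂ ζ) p := hζ.map_of_injective hinj
  obtain ⟨M, hM⟩ := hdvd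
  have hM0 : 0 < M := by
    rcases Nat.eq_zero_or_pos M with h0 | h0
    · rw [h0] at hM; omega
    · exact h0
  have hm0 : NeZero (4 * e) := ⟨by omega⟩
  have hfour : (4 : ZMod (4 * e)) * (e : ZMod (4 * e)) = 0 := by
    have h1 : ((4 * e : ℕ) : ZMod (4 * e)) = 0 := ZMod.natCast_self _
    push_cast at h1
    exact h1
  have hG : ∀ n : ℕ, gaussSum ((χ ^ n).ringHomComp (algebraMap AI ℂ)) (psi hζC.pow_eq_one) =
      ((gaussSum (χ ^ n) (psi hζ.pow_eq_one) : AI) : ℂ) := by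
    intro n
    have : gaussSum ((χ ^ n).ringHomComp (algebraMap AI ℂ)) (psi hζC.pow_eq_one) =
        algebraMap AI ℂ (gaussSum (χ ^ n) (psi hζ.pow_eq_one)) := by
      unfold gaussSum
      rw [map_sum]
      refine sum_congr rfl fun x _ => ?_
      rw [map_mul, MulChar.ringHomComp_apply, psi_apply, psi_apply, map_pow]
    rw [this]; rfl
  have hcM : orderOf (χ ^ M) = 4 * e := by
    rw [orderOf_pow_of_dvd hM0.ne' (by rw [hχ, hM]; exact dvd_mul_left M _), hχ, hM,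
      Nat.mul_div_cancel _ hM0]
  have hcop : Nat.Coprime t.val (4 * e) := by
    obtain ⟨u, rfl⟩ := ht
    exact ZMod.val_coe_unit_coprime u
  have hodd : t.val % 2 = 1 := by
    have h2 : Nat.Coprime t.val 2 := Nat.Coprime.coprime_dvd_right (by omega) hcop
    rw [Nat.coprime_comm, Nat.coprime_two_left] at h2
    exact Nat.odd_iff.mp h2
  have ht1 : s = t * (2 * e + 1) := by
    obtain ⟨c, hc⟩ : ∃ c, t.val = 2 * c + 1 := ⟨t.val / 2, by omega⟩
    have ht : t = 2 * (c : ZMod (4 * e)) + 1 := by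
      rw [← ZMod.natCast_zmod_val t, hc]; push_cast; ring
    rw [hs, ht]
    linear_combination (-(c : ZMod (4 * e))) * hfour
  have hsmod : t.val * (2 * e + 1) ≡ s.val [MOD 4 * e] := by
    rw [← ZMod.natCast_eq_natCast_iff]
    push_cast
    rw [ZMod.natCast_zmod_val, ZMod.natCast_zmod_val, ht1]
  have hs0 : 0 < s.val := by
    rw [Nat.pos_iff_ne_zero]
    intro h0
    rw [ZMod.val_eq_zero] at h0
    have h1 : s.val = 0 := by rw [h0]; simp
    rw [h1] at hsmod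
    have h2 := (Nat.modEq_zero_iff_dvd).mp hsmod
    have h3 : 4 * e ∣ 2 * e + 1 := hcop.symm.dvd_of_dvd_mul_left h2
    have h4 : 2 ∣ 2 * e + 1 := dvd_trans (by omega) h3
    omega
  have ht0 : 0 < t.val := by omega
  refine sum_eq_of_v_eq hv hζ hχ hχφ hL3 (M := M) (by rw [← hM]) ht0 (ZMod.val_lt t) hs0
    (ZMod.val_lt s) ?_
  have hord : orderOf ((χ ^ (M * t.val)).ringHomComp (algebraMap AI ℂ)) = 4 * e := by
    have h1 : orderOf ((χ ^ (M * t.val)).ringHomComp (algebraMap AI ℂ)) =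
        orderOf (χ ^ (M * t.val)) :=
      orderOf_injective (MulChar.ringHomCompHom (algebraMap AI ℂ))
        (MulChar.injective_ringHomComp hinj) _
    rw [h1, pow_mul, Nat.Coprime.orderOf_pow (by rw [hcM]; exact hcop.symm), hcM]
  have h1 := H _ hζC _ hord
  have h2 : ((χ ^ (M * t.val)).ringHomComp (algebraMap AI ℂ)) ^ (2 * e + 1) =
      (χ ^ (M * s.val)).ringHomComp (algebraMap AI ℂ) := by
    rw [MulChar.ringHomComp_pow, ← pow_mul]
    congr 1
    rw [pow_eq_pow_iff_modEq, hχ, hM, mul_comm (4 * e) M, mul_assoc M]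
    exact Nat.ModEq.mul_left' M hsmod
  rw [h2, hG, hG] at h1
  have h3 := congrArg v h1
  rw [map_pow, map_pow] at h3
  exact (pow_left_inj₀ zero_le zero_le (by norm_num)).mp h3

/-- the digit sum relation, for all units -/
def DigitRel (e p r : ℕ) : Prop :=
  ∀ t s : ZMod (4 * e), IsUnit t → s = t + 2 * (e : ZMod (4 * e)) →
    ∑ i ∈ range r, (p ^ i * t.val % (4 * e)) = ∑ i ∈ range r, (p ^ i * s.val % (4 * e))

lemma unit_mul_eq {e : ℕ} (he : 0 < e) {U : (ZMod (4 * e))ˣ}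
    (hU : (U : ZMod (4 * e)) = 1 + 2 * (e : ZMod (4 * e))) (t : (ZMod (4 * e))ˣ) :
    (t : ZMod (4 * e)) * (U : ZMod (4 * e)) = t + 2 * (e : ZMod (4 * e)) := by
  have hm0 : NeZero (4 * e) := ⟨by omega⟩
  have hfour : (4 : ZMod (4 * e)) * (e : ZMod (4 * e)) = 0 := by
    have h1 : ((4 * e : ℕ) : ZMod (4 * e)) = 0 := ZMod.natCast_self _
    push_cast at h1
    exact h1
  have hodd : (t : ZMod (4 * e)).val % 2 = 1 := by
    have h1 := ZMod.val_coe_unit_coprime t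
    have h2 : Nat.Coprime (t : ZMod (4 * e)).val 2 :=
      Nat.Coprime.coprime_dvd_right (by omega) h1
    rw [Nat.coprime_comm, Nat.coprime_two_left] at h2
    exact Nat.odd_iff.mp h2
  obtain ⟨c, hc⟩ : ∃ c, (t : ZMod (4 * e)).val = 2 * c + 1 :=
    ⟨(t : ZMod (4 * e)).val / 2, by omega⟩
  have ht : (t : ZMod (4 * e)) = 2 * (c : ZMod (4 * e)) + 1 := by
    rw [← ZMod.natCast_zmod_val (t : ZMod (4 * e)), hc]; push_cast; ring
  rw [hU, ht]
  linear_combination (c : ZMod (4 * e)) * hfour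

lemma isUnit_of_char {m : ℕ} {χ : DirichletCharacter ℂ m} {a : ZMod m} (h : χ a ≠ 0) :
    IsUnit a := by
  by_contra hn
  exact h (χ.map_nonunit hn)

/-- vanishing of the Stickelberger sum -/
theorem SS_one_zero {e p r : ℕ} [NeZero (4 * e)] (he : 0 < e) (hr : r ≠ 0)
    (H : DigitRel e p r) (χ : DirichletCharacter ℂ (4 * e)) (hχp : χ (p : ZMod (4 * e)) = 1)
    (hχu : χ (1 + 2 * (e : ZMod (4 * e))) = -1) : SS χ 1 = 0 := by
  obtain ⟨P, hP⟩ := isUnit_of_char (χ := χ) (a := (p : ZMod (4 * e))) (by rw [hχp]; exact one_ne_zero)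
  obtain ⟨U, hU⟩ := isUnit_of_char (χ := χ) (a := 1 + 2 * (e : ZMod (4 * e))) (by
    rw [hχu]; norm_num)
  have htU := unit_mul_eq he hU
  have hval : ∀ (t : ZMod (4 * e)) (i : ℕ), p ^ i * t.val % (4 * e) = ((p : ZMod (4 * e)) ^ i * t).val := by
    intro t i
    have h1 : (p : ZMod (4 * e)) ^ i * t = ((p ^ i * t.val : ℕ) : ZMod (4 * e)) := by
      push_cast
      rw [ZMod.natCast_zmod_val]
    rw [h1, ZMod.val_natCast]
  have hne : ∀ (t : (ZMod (4 * e))ˣ), (t : ZMod (4 * e)) ≠ 0 := by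
    intro t
    have : Fact (1 < 4 * e) := ⟨by omega⟩
    exact t.ne_zero
  have hH : ∀ t : (ZMod (4 * e))ˣ,
      ∑ i ∈ range r, (saw ((t : ZMod (4 * e)) * ((P ^ i : (ZMod (4 * e))ˣ) : ZMod (4 * e))) : ℂ) =
      ∑ i ∈ range r, (saw ((t : ZMod (4 * e)) * ((P ^ i * U : (ZMod (4 * e))ˣ) : ZMod (4 * e))) : ℂ) := by
    intro t
    have h1 := H (t : ZMod (4 * e)) ((t : ZMod (4 * e)) * (U : ZMod (4 * e))) t.isUnit (htU t)
    have h2 : ∀ s : (ZMod (4 * e))ˣ, (saw (s : ZMod (4 * e)) : ℂ) = 2 * (((s : ZMod (4 * e)).val : ℕ) : ℂ) - ((4 * e : ℕ) : ℂ) := by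
      intro s
      unfold saw
      rw [if_neg (hne s)]
      push_cast; ring
    have h3 : ∀ i, (saw ((t : ZMod (4 * e)) * ((P ^ i : (ZMod (4 * e))ˣ) : ZMod (4 * e))) : ℂ) =
        2 * (((p ^ i * (t : ZMod (4 * e)).val % (4 * e)) : ℕ) : ℂ) - ((4 * e : ℕ) : ℂ) := by
      intro i
      have h4 := h2 (t * P ^ i)
      rw [hval]
      rw [Units.val_mul, Units.val_pow_eq_pow_val, hP] at h4
      rw [Units.val_pow_eq_pow_val, hP, h4, mul_comm (t : ZMod (4 * e))]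
    have h5 : ∀ i, (saw ((t : ZMod (4 * e)) * ((P ^ i * U : (ZMod (4 * e))ˣ) : ZMod (4 * e))) : ℂ) =
        2 * (((p ^ i * ((t : ZMod (4 * e)) * (U : ZMod (4 * e))).val % (4 * e)) : ℕ) : ℂ) - ((4 * e : ℕ) : ℂ) := by
      intro i
      have h4 := h2 (t * (P ^ i * U))
      rw [hval]
      rw [Units.val_mul, Units.val_mul, Units.val_pow_eq_pow_val, hP] at h4
      rw [Units.val_mul, Units.val_pow_eq_pow_val, hP, h4]
      have : (t : ZMod (4 * e)) * ((p : ZMod (4 * e)) ^ i * (U : ZMod (4 * e))) =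
          (p : ZMod (4 * e)) ^ i * ((t : ZMod (4 * e)) * (U : ZMod (4 * e))) := by ring
      rw [this]
    rw [sum_congr rfl fun i _ => h3 i, sum_congr rfl fun i _ => h5 i, sum_sub_distrib,
      sum_sub_distrib, ← mul_sum, ← mul_sum, ← Nat.cast_sum, ← Nat.cast_sum, h1, Nat.cast_sum]
  have h1 : ∑ i ∈ range r, SS χ ((P ^ i : (ZMod (4 * e))ˣ) : ZMod (4 * e)) =
      ∑ i ∈ range r, SS χ ((P ^ i * U : (ZMod (4 * e))ˣ) : ZMod (4 * e)) := by
    unfold SS
    rw [sum_comm, sum_comm (s := range r)]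
    refine sum_congr rfl fun t _ => ?_
    rw [← mul_sum, ← mul_sum, hH t]
  have hP1 : χ (P : ZMod (4 * e)) = 1 := by rw [hP, hχp]
  have hU1 : χ (U : ZMod (4 * e)) = -1 := by rw [hU, hχu]
  have h2 : ∀ i, SS χ ((P ^ i : (ZMod (4 * e))ˣ) : ZMod (4 * e)) = SS χ 1 := by
    intro i
    have := SS_unit χ (P ^ i) 1
    rw [mul_one] at this
    rw [this, Units.val_pow_eq_pow_val, map_pow, hP1, one_pow, inv_one, one_mul]
  have h3 : ∀ i, SS χ ((P ^ i * U : (ZMod (4 * e))ˣ) : ZMod (4 * e)) = - SS χ 1 := by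
    intro i
    have := SS_unit χ (P ^ i * U) 1
    rw [mul_one] at this
    rw [this, Units.val_mul, map_mul, Units.val_pow_eq_pow_val, map_pow, hP1, hU1, one_pow]
    norm_num
  rw [sum_congr rfl fun i _ => h2 i, sum_congr rfl fun i _ => h3 i, sum_const, sum_const,
    card_range, nsmul_eq_mul, nsmul_eq_mul] at h1
  have h4 : (r : ℂ) * (2 * SS χ 1) = 0 := by linear_combination h1
  have h5 : (r : ℂ) ≠ 0 := Nat.cast_ne_zero.mpr hr
  have h6 := (mul_eq_zero.mp h4).resolve_left h5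
  exact (mul_eq_zero.mp h6).resolve_left two_ne_zero

end Pool.Agent.H310.CH
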