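import Pool.Agent.H916K.Val

/-!
# Stickelberger's theorem for arbitrary finite fields (valuations of Gauss sums)
-/

set_option linter.unusedSectionVars false

namespace Pool.Agent.H310.CH

open Finset Pool.Agent.H916K

lemma exists_root (n : ℕ) (hn : n ≠ 0) : ∃ ζ : AI, IsPrimitiveRoot ζ n := by
  have h1 := Complex.isPrimitiveRoot_exp n hn
  have h2 : IsIntegral ℤ (Complex.exp (2 * Real.pi * Complex.I / ((n : ℕ) : ℂ))) :=
    h1.isIntegral (by omega)
  exact ⟨⟨_, h2⟩, IsPrimitiveRoot.of_map_of_injective (f := algebraMap AI ℂ) h1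
    Subtype.val_injective⟩

lemma sum_units {L : Type*} [Field L] [Fintype L] [DecidableEq L] {M : Type*} [AddCommMonoid M]
    (f : L → M) (h0 : f 0 = 0) : ∑ x, f x = ∑ u : Lˣ, f u := by
  rw [← Finset.sum_subset (Finset.subset_univ
    ((Finset.univ : Finset Lˣ).map ⟨Units.val, Units.val_injective⟩))]
  · rw [Finset.sum_map]; rfl
  · intro x _ hx
    have : x = 0 := by
      by_contra h
      exact hx (Finset.mem_map.mpr ⟨Units.mk0 x h, Finset.mem_univ _, rfl⟩)
    rw [this, h0]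

section

variable {p : ℕ} [Fact p.Prime] {L : Type} [Field L] [Fintype L] [Algebra (ZMod p) L]
  {k : Type} [Field k] [CharP k p] (φ : AI →+* k) (ι : L →+* k)

lemma card_L : Fintype.card L = p ^ Module.finrank (ZMod p) L := by
  rw [Module.card_eq_pow_finrank (K := ZMod p), ZMod.card]

lemma finrank_ne : Module.finrank (ZMod p) L ≠ 0 := Module.finrank_pos.ne'

lemma two_le_card : 2 ≤ Fintype.card L := Fintype.one_lt_card

omit [Algebra (ZMod p) L] [CharP k p] [Fact p.Prime] in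
lemma card_sub_ne (p : ℕ) [Fact p.Prime] [Algebra (ZMod p) L] [CharP k p] :
    ((Fintype.card L - 1 : ℕ) : k) ≠ 0 := by
  have h2 := two_le_card (L := L)
  rw [Nat.cast_sub (by omega), card_L (p := p), Nat.cast_pow, CharP.cast_eq_zero,
    zero_pow (finrank_ne (p := p) (L := L)), Nat.cast_one, zero_sub]
  exact neg_ne_zero.mpr one_ne_zero

/-- the inverse of the Teichmüller character -/
theorem exists_teich (p : ℕ) [Fact p.Prime] [Algebra (ZMod p) L] [CharP k p] :
    ∃ χ : MulChar L AI, orderOf χ = Fintype.card L - 1 ∧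
    ∀ x : L, x ≠ 0 → φ (χ x) * ι x = 1 := by
  classical
  have h2 := two_le_card (L := L)
  have hn0 : Fintype.card L - 1 ≠ 0 := by omega
  have : NeZero (Fintype.card L - 1) := ⟨hn0⟩
  have hk0 := card_sub_ne (L := L) (k := k) p
  have : NeZero ((Fintype.card L - 1 : ℕ) : k) := ⟨hk0⟩
  obtain ⟨ξ0, hξ0⟩ := exists_root (Fintype.card L - 1) hn0
  obtain ⟨χ0, hχ0⟩ := MulChar.exists_mulChar_orderOf L (n := Fintype.card L - 1)
    dvd_rfl hξ0
  obtain ⟨g, hg⟩ := IsCyclic.exists_generator (α := Lˣ)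
  have hgord : orderOf g = Fintype.card L - 1 := by
    rw [orderOf_eq_card_of_forall_mem_zpowers hg, Nat.card_eq_fintype_card, Fintype.card_units]
  have hgen : ∀ x : Lˣ, ∃ n : ℕ, g ^ n = x := fun x =>
    (IsOfFinOrder.mem_powers_iff_mem_zpowers (isOfFinOrder_of_finite g)).mpr (hg x)
  set ξ : AI := χ0 (g : L) with hξ
  have hpowχ : ∀ (χ : MulChar L AI) (n : ℕ), (∀ x : Lˣ, χ x ^ n = 1) → χ ^ n = 1 := by
    intro χ n h
    ext x
    rw [MulChar.pow_apply_coe, h, MulChar.one_apply_coe]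
  have hξprim : IsPrimitiveRoot ξ (Fintype.card L - 1) := by
    refine ⟨?_, ?_⟩
    · rw [hξ, ← MulChar.pow_apply_coe, ← hχ0, pow_orderOf_eq_one, MulChar.one_apply_coe]
    · intro l hl
      rw [← hχ0]
      apply orderOf_dvd_of_pow_eq_one
      apply hpowχ
      intro x
      obtain ⟨n, rfl⟩ := hgen x
      rw [Units.val_pow_eq_pow_val, map_pow, ← pow_mul, mul_comm n l, pow_mul, hl, one_pow]
  have hφξ : IsPrimitiveRoot (φ ξ) (Fintype.card L - 1) := by
    rw [← Polynomial.isRoot_cyclotomic_iff]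
    have h1 : (Polynomial.cyclotomic (Fintype.card L - 1) AI).IsRoot ξ := by
      have : NeZero ((Fintype.card L - 1 : ℕ) : AI) := ⟨by exact_mod_cast hn0⟩
      exact Polynomial.isRoot_cyclotomic_iff.mpr hξprim
    have h2 := h1.map (f := φ)
    rwa [Polynomial.map_cyclotomic] at h2
  have hιg : ι (g : L) ≠ 0 := by
    rw [Ne, map_eq_zero_iff ι ι.injective]; exact g.ne_zero
  obtain ⟨i, _, hi⟩ := hφξ.eq_pow_of_pow_eq_one (ξ := (ι (g : L))⁻¹) (by
    rw [inv_pow, ← map_pow, FiniteField.pow_card_sub_one_eq_one _ g.ne_zero, map_one, inv_one])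
  have hmain : ∀ x : L, x ≠ 0 → φ ((χ0 ^ i) x) * ι x = 1 := by
    intro x hx
    obtain ⟨n, hn⟩ := hgen (Units.mk0 x hx)
    have hx' : x = (g : L) ^ n := by
      rw [← Units.val_pow_eq_pow_val, hn, Units.val_mk0]
    have hx2 : (χ0 ^ i) x = χ0 x ^ i := by
      have := MulChar.pow_apply_coe χ0 i (Units.mk0 x hx)
      simpa using this
    rw [hx2, hx', map_pow, map_pow, map_pow, map_pow]
    have h2 : φ (χ0 (g : L)) ^ n = (φ ξ) ^ n := rfl
    rw [← pow_mul, mul_comm n i, pow_mul, hi, ← mul_pow, inv_mul_cancel₀ hιg, one_pow]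
  refine ⟨χ0 ^ i, ?_, hmain⟩
  apply Nat.dvd_antisymm
  · rw [← hχ0]; exact orderOf_pow_dvd i
  · have h1 : ι (g : L) ^ orderOf (χ0 ^ i) = 1 := by
      have h2 := hmain _ g.ne_zero
      have h3 : φ ((χ0 ^ i) (g : L)) ^ orderOf (χ0 ^ i) = 1 := by
        rw [← map_pow, ← MulChar.pow_apply_coe, pow_orderOf_eq_one, MulChar.one_apply_coe, map_one]
      have h4 := congrArg (fun z => z ^ orderOf (χ0 ^ i)) h2
      simp only [mul_pow, h3, one_mul, one_pow] at h4
      exact h4
    rw [← map_pow] at h1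
    have h5 : (g : L) ^ orderOf (χ0 ^ i) = 1 := ι.injective (by rw [h1, map_one])
    rw [← hgord]
    apply orderOf_dvd_of_pow_eq_one
    apply Units.ext
    rw [Units.val_pow_eq_pow_val, h5]; rfl

/-- the additive character attached to a `p`-th root of unity -/
noncomputable def psi {R : Type} [CommRing R] {ζ : R} (hζ : ζ ^ p = 1) : AddChar L R :=
  (AddChar.zmodChar p hζ).compAddMonoidHom (Algebra.trace (ZMod p) L).toAddMonoidHom

lemma psi_apply {R : Type} [CommRing R] {ζ : R} (hζ : ζ ^ p = 1) (x : L) :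
    psi hζ x = ζ ^ (Algebra.trace (ZMod p) L x).val := by
  unfold psi
  rw [AddChar.compAddMonoidHom_apply]
  exact AddChar.zmodChar_apply hζ _

lemma psi_ne_one {R : Type} [CommRing R] {ζ : R} (hζ : IsPrimitiveRoot ζ p) :
    (psi hζ.pow_eq_one : AddChar L R) ≠ 1 := by
  have hp : p.Prime := Fact.out
  intro h
  obtain ⟨x, hx⟩ := Algebra.trace_surjective (ZMod p) L 1
  have h1 : (psi hζ.pow_eq_one : AddChar L R) x = 1 := by rw [h]; rfl
  rw [psi_apply, hx] at h1
  have : Fact (1 < p) := ⟨hp.one_lt⟩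
  rw [ZMod.val_one, pow_one] at h1
  exact hζ.ne_one hp.one_lt h1

lemma psi_prim {R : Type} [CommRing R] {ζ : R} (hζ : IsPrimitiveRoot ζ p) :
    (psi hζ.pow_eq_one : AddChar L R).IsPrimitive :=
  AddChar.IsPrimitive.of_ne_one (psi_ne_one hζ)

lemma gauss_frob {R : Type} [CommRing R] {ζ : R} (hζ : ζ ^ p = 1) (χ : MulChar L R) :
    gaussSum (χ ^ p) (psi hζ) = gaussSum χ (psi hζ) := by
  have hp : p.Prime := Fact.out
  have : CharP L p := charP_of_injective_algebraMap' (ZMod p) p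
  unfold gaussSum
  refine Fintype.sum_equiv (FiniteField.frobeniusAlgEquivOfAlgebraic (ZMod p) L).toEquiv _ _ ?_
  intro x
  have h1 : (FiniteField.frobeniusAlgEquivOfAlgebraic (ZMod p) L).toEquiv x = x ^ p := by
    have := congrFun (FiniteField.coe_frobeniusAlgEquivOfAlgebraic (ZMod p) L) x
    simp only [ZMod.card] at this
    exact this
  have h2 : psi hζ (x ^ p) = psi hζ x := by
    rw [psi_apply, psi_apply]
    have := Algebra.trace_eq_of_algEquiv (FiniteField.frobeniusAlgEquivOfAlgebraic (ZMod p) L) x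
    have h3 : (FiniteField.frobeniusAlgEquivOfAlgebraic (ZMod p) L) x = x ^ p := h1
    rw [h3] at this
    rw [this]
  rw [h1, h2, map_pow, MulChar.pow_apply' _ hp.ne_zero]

lemma gauss_frob_pow {R : Type} [CommRing R] {ζ : R} (hζ : ζ ^ p = 1) (χ : MulChar L R) (i : ℕ) :
    gaussSum (χ ^ p ^ i) (psi hζ) = gaussSum χ (psi hζ) := by
  induction i with
  | zero => simp
  | succ i ih => rw [pow_succ, pow_mul, gauss_frob, ih]

variable {Γ : Type} [LinearOrderedCommGroupWithZero Γ] (v : Valuation ℂ Γ)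

structure Above : Prop where
  le : ∀ x : AI, v (x : ℂ) ≤ 1
  lt : ∀ x : AI, φ x = 0 → v (x : ℂ) < 1
  eq : ∀ x : AI, φ x ≠ 0 → v (x : ℂ) = 1

variable {φ} {v}

lemma Above.root (h : Above φ v) {x : AI} {n : ℕ} (hn : n ≠ 0) (hx : x ^ n = 1) :
    v (x : ℂ) = 1 := by
  apply h.eq
  intro h0
  have h1 := congrArg φ hx
  rw [map_pow, h0, zero_pow hn, map_one] at h1
  exact zero_ne_one h1

lemma Above.mulChar (h : Above φ v) (χ : MulChar L AI) {x : L} (hx : x ≠ 0) :
    v ((χ x : AI) : ℂ) = 1 := by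
  have h2 := two_le_card (L := L)
  apply h.root (n := Fintype.card L - 1) (by omega)
  rw [← map_pow, FiniteField.pow_card_sub_one_eq_one _ hx, map_one]

variable (h : Above φ v) {ζ : AI} (hζ : IsPrimitiveRoot ζ p)

include hζ in
lemma red_zeta : φ ζ = 1 := by
  apply pow_one_of_char (q := p) (b := 1)
  rw [pow_one, ← map_pow, hζ.pow_eq_one, map_one]

include h hζ in
lemma v_pi : v (((ζ - 1 : AI)) : ℂ) < 1 := by
  apply h.lt
  rw [map_sub, red_zeta hζ, map_one, sub_self]

include hζ in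
lemma v_pi_ne : v (((ζ - 1 : AI)) : ℂ) ≠ 0 := by
  have hp : p.Prime := Fact.out
  rw [Valuation.ne_zero_iff]
  intro h0
  have h7 : (ζ : ℂ) = 1 := by
    have : ((ζ - 1 : AI) : ℂ) = (ζ : ℂ) - 1 := by push_cast; ring
    rw [this] at h0
    exact sub_eq_zero.mp h0
  exact hζ.ne_one hp.one_lt (Subtype.ext h7)

include h hζ in
lemma v_ell : v ((p : ℂ)) ≤ v (((ζ - 1 : AI)) : ℂ) ^ (p - 1) := by
  have hℓ : p.Prime := Fact.out
  have hℓ2 := hℓ.two_le
  obtain ⟨n, hn⟩ : ∃ n, p = n + 1 := ⟨p - 1, by omega⟩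
  have hζ' : IsPrimitiveRoot ζ (n + 1) := hn ▸ hζ
  have h1 := hζ'.prod_one_sub_pow_eq_order
  have h2 : ((p : ℕ) : ℂ) = ((∏ i ∈ range n, (1 - ζ ^ (i + 1)) : AI) : ℂ) := by
    rw [h1, hn]; push_cast; rfl
  have h3 : ∀ i : ℕ, (1 - ζ ^ (i + 1) : AI) = (ζ - 1) * (-(∑ j ∈ range (i + 1), ζ ^ j)) := by
    intro i
    have := mul_geom_sum ζ (i + 1)
    linear_combination this
  rw [h2, hn, Nat.add_sub_cancel]
  have h4 : ((∏ i ∈ range n, (1 - ζ ^ (i + 1)) : AI) : ℂ) =
      ((ζ - 1 : AI) : ℂ) ^ n * ((∏ i ∈ range n, (-(∑ j ∈ range (i + 1), ζ ^ j)) : AI) : ℂ) := by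
    rw [prod_congr rfl fun i _ => h3 i, prod_mul_distrib, prod_const, card_range]
    push_cast; ring
  rw [h4, map_mul, map_pow]
  exact mul_le_of_le_one_right' (h.le _)

variable {ι} {χ : MulChar L AI} (hχ : orderOf χ = Fintype.card L - 1)
  (hχφ : ∀ x : L, x ≠ 0 → φ (χ x) * ι x = 1) (hL3 : 3 ≤ Fintype.card L)

include h hζ hχ hχφ hL3 in
lemma v_gauss_one : v ((gaussSum χ (psi hζ.pow_eq_one) : AI) : ℂ) =
    v (((ζ - 1 : AI)) : ℂ) := by
  classical
  have hp : p.Prime := Fact.out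
  have hcL : CharP L p := charP_of_injective_algebraMap' (ZMod p) p
  have hχ1 : χ ≠ 1 := by
    intro h1
    rw [h1, orderOf_one] at hχ
    omega
  set tr : L → ZMod p := fun x => Algebra.trace (ZMod p) L x with htr
  set T : AI := ∑ x, χ x * ∑ i ∈ range (tr x).val, ζ ^ i with hT
  have h1 : gaussSum χ (psi hζ.pow_eq_one) = (ζ - 1) * T := by
    have h2 : ∑ x, χ x = 0 := MulChar.sum_eq_zero_of_ne_one hχ1
    have h3 : gaussSum χ (psi hζ.pow_eq_one) = ∑ x, χ x * (ζ ^ (tr x).val - 1) := by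
      simp only [mul_sub, mul_one, sum_sub_distrib, h2, sub_zero]
      unfold gaussSum
      exact sum_congr rfl fun x _ => by rw [psi_apply]
    rw [h3, hT, mul_sum]
    refine sum_congr rfl fun x _ => ?_
    rw [← mul_geom_sum]; ring
  have hφT : φ T ≠ 0 := by
    have h2 : φ T = -1 := by
      rw [hT, map_sum, sum_units _ (by rw [MulChar.map_zero, zero_mul, map_zero])]
      have h3 : ∀ u : Lˣ, φ (χ (u : L) * ∑ i ∈ range (tr (u : L)).val, ζ ^ i) =
          ∑ i ∈ range (Module.finrank (ZMod p) L), ι ((u : L) ^ (p ^ i - 1)) := by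
        intro u
        rw [map_mul, map_sum]
        have h4 : ∀ i ∈ range (tr (u : L)).val, φ (ζ ^ i) = 1 := by
          intro i _; rw [map_pow, red_zeta hζ, one_pow]
        rw [sum_congr rfl h4, sum_const, card_range, nsmul_eq_mul, mul_one]
        have h5 : (((tr (u : L)).val : ℕ) : k) = ι (algebraMap (ZMod p) L (tr (u : L))) := by
          have : (((tr (u : L)).val : ℕ) : k) = ι ((((tr (u : L)).val : ℕ) : L)) := by
            rw [map_natCast]
          rw [this]
          congr 1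
          have h6 : ((((tr (u : L)).val : ℕ)) : L) =
              algebraMap (ZMod p) L ((((tr (u : L)).val : ℕ)) : ZMod p) := by rw [map_natCast]
          rw [h6, ZMod.natCast_zmod_val]
        rw [h5]
        have h6 := FiniteField.algebraMap_trace_eq_sum_pow (ZMod p) L (u : L)
        rw [Nat.card_eq_fintype_card, ZMod.card] at h6
        rw [htr]
        simp only
        rw [h6, map_sum, mul_sum]
        refine sum_congr rfl fun i _ => ?_
        have h7 : (u : L) ^ p ^ i = u * (u : L) ^ (p ^ i - 1) := by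
          rw [← pow_succ', Nat.sub_add_cancel (Nat.one_le_pow _ _ hp.pos)]
        rw [h7, map_mul, ← mul_assoc, hχφ _ u.ne_zero, one_mul]
      rw [sum_congr rfl fun u _ => h3 u, sum_comm]
      have h4 : ∀ i ∈ range (Module.finrank (ZMod p) L),
          ∑ u : Lˣ, ι ((u : L) ^ (p ^ i - 1)) = if i = 0 then -1 else 0 := by
        intro i hi
        rw [← map_sum, FiniteField.sum_pow_units]
        by_cases hi0 : i = 0
        · rw [if_pos (by rw [hi0]; simp), if_pos hi0, map_neg, map_one]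
        · rw [if_neg hi0, if_neg, map_zero]
          intro hdvd
          have h5 : p ^ i < p ^ Module.finrank (ZMod p) L :=
            Nat.pow_lt_pow_right hp.one_lt (mem_range.mp hi)
          have h6 : p ^ 1 ≤ p ^ i := Nat.pow_le_pow_right hp.pos (by omega)
          rw [pow_one] at h6
          have h7 := hp.two_le
          have h8 := Nat.le_of_dvd (by omega) hdvd
          rw [card_L (p := p) (L := L)] at h8
          omega
      rw [sum_congr rfl h4, sum_ite_eq' (range _) 0, if_pos]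
      exact mem_range.mpr (Nat.pos_of_ne_zero (finrank_ne (p := p) (L := L)))
    rw [h2]; exact neg_ne_zero.mpr one_ne_zero
  rw [h1]
  have h6 : (((ζ - 1) * T : AI) : ℂ) = ((ζ - 1 : AI) : ℂ) * (T : ℂ) := by push_cast; ring
  rw [h6, map_mul, h.eq T hφT, mul_one]

include h hζ in
lemma v_super (a b : MulChar L AI) :
    v ((gaussSum a (psi hζ.pow_eq_one) : AI) : ℂ) * v ((gaussSum b (psi hζ.pow_eq_one) : AI) : ℂ) ≤
      v ((gaussSum (a * b) (psi hζ.pow_eq_one) : AI) : ℂ) := by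
  by_cases hab : a * b = 1
  · rw [hab, gaussSum_one_left (psi_ne_one hζ)]
    have h1 : (((-1 : AI)) : ℂ) = -1 := by push_cast; rfl
    rw [h1, Valuation.map_neg, map_one]
    exact mul_le_one' (h.le _) (h.le _)
  · have h1 := jacobiSum_mul_nontrivial hab (psi hζ.pow_eq_one)
    have h2 := congrArg (fun z : AI => v (z : ℂ)) h1
    push_cast at h2
    rw [map_mul, map_mul] at h2
    rw [← h2]
    exact mul_le_of_le_one_right' (h.le _)

include h hζ in
lemma v_super_pow (a : MulChar L AI) (n : ℕ) :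
    v ((gaussSum a (psi hζ.pow_eq_one) : AI) : ℂ) ^ n ≤
      v ((gaussSum (a ^ n) (psi hζ.pow_eq_one) : AI) : ℂ) := by
  induction n with
  | zero =>
    rw [pow_zero, pow_zero, gaussSum_one_left (psi_ne_one hζ)]
    have h1 : (((-1 : AI)) : ℂ) = -1 := by push_cast; rfl
    rw [h1, Valuation.map_neg, map_one]
  | succ n ih =>
    rw [pow_succ, pow_succ]
    exact (mul_le_mul_left ih _).trans (v_super h hζ _ _)

include h hζ hχ hχφ hL3 in
lemma v_gauss_ge (e : ℕ → ℕ) (r : ℕ) :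
    v (((ζ - 1 : AI)) : ℂ) ^ (∑ i ∈ range r, e i) ≤
      v ((gaussSum (χ ^ (∑ i ∈ range r, e i * p ^ i)) (psi hζ.pow_eq_one) : AI) : ℂ) := by
  induction r with
  | zero =>
    have := v_super_pow h hζ χ 0
    simpa using this
  | succ r ih =>
    rw [sum_range_succ, sum_range_succ, pow_add, pow_add]
    refine le_trans ?_ (v_super h hζ _ _)
    refine mul_le_mul' ih ?_
    have h1 := v_super_pow h hζ (χ ^ p ^ r) (e r)
    rw [gauss_frob_pow, v_gauss_one h hζ hχ hχφ hL3, ← pow_mul, mul_comm (p ^ r)] at h1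
    exact h1

include h hζ hχ hχφ hL3 in
/-- Stickelberger's theorem: the valuation of the Gauss sum of a power of the inverse
Teichmüller character is the digit sum. -/
theorem v_gauss (e : ℕ → ℕ) (he : ∀ i, e i ≤ p - 1)
    (hne : χ ^ (∑ i ∈ range (Module.finrank (ZMod p) L), e i * p ^ i) ≠ 1) :
    v ((gaussSum (χ ^ (∑ i ∈ range (Module.finrank (ZMod p) L), e i * p ^ i))
      (psi hζ.pow_eq_one) : AI) : ℂ) =
      v (((ζ - 1 : AI)) : ℂ) ^ (∑ i ∈ range (Module.finrank (ZMod p) L), e i) := by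
  classical
  have hp : p.Prime := Fact.out
  set r := Module.finrank (ZMod p) L with hr
  set a := ∑ i ∈ range r, e i * p ^ i with ha
  set a' := ∑ i ∈ range r, (p - 1 - e i) * p ^ i with ha'
  refine le_antisymm ?_ (v_gauss_ge h hζ hχ hχφ hL3 e r)
  have haa' : a + a' = Fintype.card L - 1 := by
    rw [ha, ha', ← sum_add_distrib]
    have h1 : ∀ i ∈ range r, e i * p ^ i + (p - 1 - e i) * p ^ i = (p - 1) * p ^ i := by
      intro i _
      rw [← add_mul, Nat.add_sub_cancel' (he i)]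
    rw [sum_congr rfl h1, ← mul_sum, card_L (p := p), ← hr]
    have h2 := Nat.geomSum_eq hp.two_le r
    rw [h2, Nat.mul_div_cancel']
    have := Nat.sub_dvd_pow_sub_pow p 1 r
    simpa using this
  have hinv : χ ^ a' = (χ ^ a)⁻¹ := by
    rw [eq_inv_iff_mul_eq_one, ← pow_add, add_comm, haa', ← hχ, pow_orderOf_eq_one]
  have hprim := psi_prim (L := L) hζ
  have h1 := gaussSum_mul_gaussSum_eq_card hne hprim
  have h2 := mul_gaussSum_inv_eq_gaussSum (χ ^ a)⁻¹ (psi hζ.pow_eq_one)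
  have h3 : v ((gaussSum (χ ^ a') (psi hζ.pow_eq_one) : AI) : ℂ) =
      v ((gaussSum (χ ^ a)⁻¹ (psi hζ.pow_eq_one)⁻¹ : AI) : ℂ) := by
    rw [hinv, ← h2]
    push_cast
    rw [map_mul, h.mulChar _ (neg_ne_zero.mpr one_ne_zero), one_mul]
  have h4 := congrArg (fun z : AI => v (z : ℂ)) h1
  push_cast at h4
  rw [map_mul, ← h3, card_L (p := p), Nat.cast_pow, map_pow, ← hr] at h4
  have h5 := v_gauss_ge h hζ hχ hχφ hL3 (fun i => p - 1 - e i) r
  rw [← ha'] at h5
  have h6 := v_ell h hζ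
  set π := v (((ζ - 1 : AI)) : ℂ) with hπ
  have hπ0 : π ≠ 0 := v_pi_ne hζ
  set s := ∑ i ∈ range r, e i with hs
  set s' := ∑ i ∈ range r, (p - 1 - e i) with hs'
  have hss : s + s' = (p - 1) * r := by
    rw [hs, hs', ← sum_add_distrib]
    have h1 : ∀ i ∈ range r, e i + (p - 1 - e i) = (p - 1) := by
      intro i _
      rw [Nat.add_sub_cancel' (he i)]
    rw [sum_congr rfl h1, sum_const, card_range, smul_eq_mul, mul_comm]
  have hπpos : 0 < π ^ s' := pow_pos (zero_lt_iff.mpr hπ0) _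
  have h7 : v ((gaussSum (χ ^ a) (psi hζ.pow_eq_one) : AI) : ℂ) * π ^ s' ≤ π ^ s * π ^ s' := by
    rw [← pow_add, hss]
    calc _ ≤ v ((gaussSum (χ ^ a) (psi hζ.pow_eq_one) : AI) : ℂ) *
          v ((gaussSum (χ ^ a') (psi hζ.pow_eq_one) : AI) : ℂ) := mul_le_mul_right h5 _
      _ = v ((p : ℂ)) ^ r := h4
      _ ≤ (π ^ (p - 1)) ^ r := pow_le_pow_left₀ zero_le h6 r
      _ = π ^ ((p - 1) * r) := by rw [← pow_mul]
  exact (mul_le_mul_iff_left₀ hπpos).mp h7

end

end Pool.Agent.H310.CH
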