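import Pool.Agent.H310.CH.Stick

/-!
# Elementary character sums
-/

set_option linter.unusedSectionVars false

namespace Pool.Agent.H310.CH

open Finset

section group

variable {G : Type} [CommGroup G] [IsCyclic G] [Fintype G] [DecidableEq G]

lemma card_fiber {a b : ℕ} (hab : a * b = Fintype.card G) (u : G) :
    (univ.filter (fun w : G => w ^ a = u)).card = if u ^ b = 1 then a else 0 := by
  have hN : 0 < Fintype.card G := Fintype.card_pos
  have ha : 0 < a := Nat.pos_of_ne_zero (by rintro rfl; omega)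
  have hb : 0 < b := Nat.pos_of_ne_zero (by rintro rfl; omega)
  have hrange : (powMonoidHom a : G →* G).range = (powMonoidHom b : G →* G).ker := by
    apply Subgroup.eq_of_le_of_card_ge
    · rintro x ⟨w, rfl⟩
      rw [MonoidHom.mem_ker, powMonoidHom_apply, powMonoidHom_apply, ← pow_mul, hab]
      exact pow_card_eq_one
    · rw [IsCyclic.card_powMonoidHom_ker, IsCyclic.card_powMonoidHom_range,
        Nat.card_eq_fintype_card, ← hab]
      rw [Nat.gcd_eq_right (Dvd.intro_left a rfl), Nat.gcd_eq_right (Dvd.intro b rfl),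
        Nat.mul_div_cancel_left _ ha]
  by_cases hu : u ^ b = 1
  · rw [if_pos hu]
    have h1 : u ∈ (powMonoidHom a : G →* G).range := by
      rw [hrange, MonoidHom.mem_ker, powMonoidHom_apply, hu]
    obtain ⟨w0, hw0⟩ := h1
    rw [powMonoidHom_apply] at hw0
    have h2 : Nat.card (powMonoidHom a : G →* G).ker = a := by
      rw [IsCyclic.card_powMonoidHom_ker, Nat.card_eq_fintype_card, ← hab,
        Nat.gcd_eq_right (Dvd.intro b rfl)]
    have h3 : Nat.card (powMonoidHom a : G →* G).ker =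
        (univ.filter (fun w : G => (powMonoidHom a : G →* G) w = 1)).card :=
      Nat.subtype_card _ (by simp [MonoidHom.mem_ker])
    have h4 := MonoidHom.card_fiber_eq_of_mem_range (powMonoidHom a : G →* G) (x := u) (y := 1)
      ⟨w0, hw0⟩ ⟨1, one_pow _⟩
    rw [h2] at h3
    rw [← h3] at h4
    exact h4
  · rw [if_neg hu, card_eq_zero, filter_eq_empty_iff]
    intro w _ hw
    apply hu
    rw [← hw, ← pow_mul, hab]
    exact pow_card_eq_one

lemma sum_pow_eq {a b : ℕ} (hab : a * b = Fintype.card G) (H : G → ℂ) :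
    ∑ w, H (w ^ a) = a * ∑ u ∈ univ.filter (fun u : G => u ^ b = 1), H u := by
  rw [← Finset.sum_fiberwise univ (fun w : G => w ^ a) (fun w => H (w ^ a)), mul_sum, sum_filter]
  refine sum_congr rfl fun u _ => ?_
  rw [sum_congr rfl (g := fun _ => H u) (fun w hw => by rw [(mem_filter.mp hw).2]), sum_const,
    card_fiber hab, nsmul_eq_mul]
  split_ifs <;> simp

lemma sum_coprime {n N : ℕ} (hn : Nat.Coprime n N) (hN : 1 < N) (H : G → ℂ) :
    ∑ u ∈ univ.filter (fun u : G => u ^ N = 1), H (u ^ n) =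
      ∑ u ∈ univ.filter (fun u : G => u ^ N = 1), H u := by
  obtain ⟨n', hn'⟩ : ∃ n' : ℕ, n * n' ≡ 1 [MOD N] := by
    obtain ⟨m, _, hm⟩ := Nat.exists_mul_mod_eq_one_of_coprime hn hN
    refine ⟨m, ?_⟩
    unfold Nat.ModEq
    rw [hm, Nat.mod_eq_of_lt hN]
  have hinv : ∀ u : G, u ^ N = 1 → u ^ (n * n') = u := by
    intro u hu
    have h1 : orderOf u ∣ N := orderOf_dvd_of_pow_eq_one hu
    have h2 : u ^ (n * n') = u ^ 1 := by
      rw [pow_eq_pow_iff_modEq]
      exact hn'.of_dvd h1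
    rw [h2, pow_one]
  have hmem : ∀ (k : ℕ), ∀ u ∈ univ.filter (fun u : G => u ^ N = 1),
      u ^ k ∈ univ.filter (fun u : G => u ^ N = 1) := by
    intro k u hu
    rw [mem_filter] at hu ⊢
    refine ⟨mem_univ _, ?_⟩
    rw [← pow_mul, mul_comm, pow_mul, hu.2, one_pow]
  refine Finset.sum_nbij' (fun u => u ^ n) (fun u => u ^ n') (hmem n) (hmem n') ?_ ?_ ?_
  · intro u hu
    rw [← pow_mul]
    exact hinv u (mem_filter.mp hu).2
  · intro u hu
    rw [← pow_mul, mul_comm]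
    exact hinv u (mem_filter.mp hu).2
  · intro u _; rfl

end group

section field

variable {K : Type} [Field K] [Fintype K] [DecidableEq K]

/-- the complex quadratic character -/
noncomputable def qc (K : Type) [Field K] [Fintype K] [DecidableEq K] : MulChar K ℂ :=
  (quadraticChar K).ringHomComp (Int.castRingHom ℂ)

lemma qc_apply (x : K) : qc K x = ((quadraticChar K x : ℤ) : ℂ) := rfl

lemma qc_ne_one (hK : ringChar K ≠ 2) : qc K ≠ 1 := by
  obtain ⟨a, ha⟩ := quadraticChar_exists_neg_one' (F := K) hK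
  intro h
  have h1 : qc K (a : K) = 1 := by rw [h, MulChar.one_apply_coe]
  rw [qc_apply, ha] at h1
  norm_num at h1

lemma qc_mul_self {x : K} (hx : x ≠ 0) : qc K x * qc K x = 1 := by
  rw [qc_apply]
  have := quadraticChar_sq_one hx
  rw [← Int.cast_mul, ← sq, this, Int.cast_one]

lemma qc_sq : qc K ^ 2 = 1 := by
  ext x
  rw [MulChar.pow_apply_coe, sq, qc_mul_self x.ne_zero, MulChar.one_apply_coe]

lemma qc_of_sq {x : K} (hx : x ≠ 0) : qc K (x ^ 2) = 1 := by
  rw [map_pow, sq, qc_mul_self hx]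

lemma eq_qc (hK : ringChar K ≠ 2) {θ : MulChar K ℂ} (h1 : θ ≠ 1) (h2 : θ ^ 2 = 1) : θ = qc K := by
  obtain ⟨g, hg⟩ := IsCyclic.exists_generator (α := Kˣ)
  have key : ∀ θ : MulChar K ℂ, θ ≠ 1 → θ ^ 2 = 1 → θ (g : K) = -1 := by
    intro θ h1 h2
    have h3 : θ (g : K) ^ 2 = 1 := by
      rw [← MulChar.pow_apply_coe, h2, MulChar.one_apply_coe]
    have h4 : θ (g : K) * θ (g : K) = 1 := by rw [← sq]; exact h3
    rcases mul_self_eq_one_iff.mp h4 with h | h
    · exfalso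
      apply h1
      rw [MulChar.eq_iff hg, h, MulChar.one_apply_coe]
    · exact h
  rw [MulChar.eq_iff hg, key θ h1 h2, key _ (qc_ne_one hK) qc_sq]

lemma pow_eq_qc (hK : ringChar K ≠ 2) {n : ℕ} (hn : 0 < n) {θ : MulChar K ℂ}
    (hθ : orderOf θ = 2 * n) : θ ^ n = qc K := by
  apply eq_qc hK
  · intro h
    have h1 := orderOf_dvd_of_pow_eq_one h
    rw [hθ] at h1
    have := Nat.le_of_dvd hn h1
    omega
  · rw [← pow_mul, mul_comm, ← hθ, pow_orderOf_eq_one]

lemma sum_sq (hK : ringChar K ≠ 2) (f : K → ℂ) :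
    ∑ t, f (t ^ 2) = ∑ u, f u * (1 + qc K u) := by
  rw [← Finset.sum_fiberwise univ (fun t : K => t ^ 2) (fun t => f (t ^ 2))]
  refine sum_congr rfl fun u _ => ?_
  rw [sum_congr rfl (g := fun _ => f u) (fun w hw => by rw [(mem_filter.mp hw).2]), sum_const,
    nsmul_eq_mul]
  have h1 := quadraticChar_card_sqrts hK u
  have h2 : ({x : K | x ^ 2 = u} : Set K).toFinset = univ.filter (fun t : K => t ^ 2 = u) := by
    ext x; simp
  rw [h2] at h1
  have h3 : (((univ.filter (fun t : K => t ^ 2 = u)).card : ℤ) : ℂ) = 1 + qc K u := by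
    rw [h1, qc_apply]; push_cast; ring
  rw [← h3, Int.cast_natCast, mul_comm]

/-- folding -/
lemma fold {θ : MulChar K ℂ} {n : ℕ} (hθ : orderOf θ = n) (H : Kˣ → ℂ) :
    ∑ w : Kˣ, H (w ^ n) = ∑ k ∈ range n, ∑ w : Kˣ, θ w ^ k * H w := by
  have hdvd : n ∣ Fintype.card Kˣ := by
    rw [← hθ]
    apply orderOf_dvd_of_pow_eq_one
    ext x
    rw [MulChar.pow_apply_coe, MulChar.one_apply_coe, ← map_pow, ← Units.val_pow_eq_pow_val,
      pow_card_eq_one, Units.val_one, map_one]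
  obtain ⟨b, hb⟩ := hdvd
  rw [sum_pow_eq hb.symm, sum_comm, mul_sum, sum_filter]
  refine sum_congr rfl fun u _ => ?_
  rw [← sum_mul]
  obtain ⟨g, hg⟩ := IsCyclic.exists_generator (α := Kˣ)
  have hgcard : orderOf g = Fintype.card Kˣ := by
    rw [orderOf_eq_card_of_forall_mem_zpowers hg, Nat.card_eq_fintype_card]
  obtain ⟨i, rfl⟩ : ∃ i : ℕ, g ^ i = u :=
    (IsOfFinOrder.mem_powers_iff_mem_zpowers (isOfFinOrder_of_finite g)).mpr (hg u)
  have hord : ∀ j : ℕ, θ (g : K) ^ j = 1 ↔ n ∣ j := by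
    intro j
    rw [← hθ, orderOf_dvd_iff_pow_eq_one, MulChar.eq_iff hg, MulChar.pow_apply_coe,
      MulChar.one_apply_coe]
  have hb0 : 0 < b := by
    rcases Nat.eq_zero_or_pos b with h0 | h0
    · rw [h0, mul_zero] at hb
      have : 0 < Fintype.card Kˣ := Fintype.card_pos
      omega
    · exact h0
  have h1 : (g ^ i) ^ b = 1 ↔ n ∣ i := by
    rw [← pow_mul, ← orderOf_dvd_iff_pow_eq_one, hgcard, hb]
    exact Nat.mul_dvd_mul_iff_right hb0
  have h2 : θ ((g ^ i : Kˣ) : K) = θ (g : K) ^ i := by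
    rw [Units.val_pow_eq_pow_val, map_pow]
  rw [h2]
  by_cases hi : n ∣ i
  · rw [if_pos (h1.mpr hi), (hord i).mpr hi]
    simp
  · rw [if_neg (fun h => hi (h1.mp h))]
    have h3 : θ (g : K) ^ i ≠ 1 := fun h => hi ((hord i).mp h)
    have h4 : (θ (g : K) ^ i) ^ n = 1 := by
      rw [← pow_mul, (hord _).mpr (Dvd.intro_left i rfl)]
    have h5 := geom_sum_mul (θ (g : K) ^ i) n
    rw [h4, sub_self] at h5
    rw [(mul_eq_zero.mp h5).resolve_right (sub_ne_zero.mpr h3), zero_mul]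

end field

/-- equality case of the triangle inequality -/
lemma eq_of_sum_eq {ι : Type} (s : Finset ι) (z : ι → ℂ) (c : ℂ) (hz : ∀ i ∈ s, ‖z i‖ ≤ ‖c‖)
    (hsum : ∑ i ∈ s, z i = s.card * c) : ∀ i ∈ s, z i = c := by
  have hle : ∀ i ∈ s, (z i * (starRingEnd ℂ) c).re ≤ ‖c‖ ^ 2 := by
    intro i hi
    calc (z i * (starRingEnd ℂ) c).re ≤ ‖z i * (starRingEnd ℂ) c‖ := Complex.re_le_norm _
      _ = ‖z i‖ * ‖c‖ := by rw [norm_mul, RCLike.norm_conj]
      _ ≤ ‖c‖ * ‖c‖ := mul_le_mul_of_nonneg_right (hz i hi) (norm_nonneg _)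
      _ = ‖c‖ ^ 2 := by ring
  have hsum' : ∑ i ∈ s, (z i * (starRingEnd ℂ) c).re = ∑ i ∈ s, ‖c‖ ^ 2 := by
    rw [← Complex.re_sum, ← sum_mul, hsum, sum_const, nsmul_eq_mul, mul_assoc, Complex.mul_conj,
      Complex.normSq_eq_norm_sq]
    norm_cast
  have heq := (Finset.sum_eq_sum_iff_of_le hle).mp hsum'
  intro i hi
  have h1 := heq i hi
  have h2 : ‖z i - c‖ ^ 2 ≤ 0 := by
    have h3 : ‖z i - c‖ ^ 2 = ‖z i‖ ^ 2 + ‖c‖ ^ 2 - 2 * (z i * (starRingEnd ℂ) c).re := by
      rw [← Complex.normSq_eq_norm_sq, ← Complex.normSq_eq_norm_sq, ← Complex.normSq_eq_norm_sq,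
        Complex.normSq_sub]
    rw [h3, h1]
    have h4 : ‖z i‖ ^ 2 ≤ ‖c‖ ^ 2 := pow_le_pow_left₀ (norm_nonneg _) (hz i hi) 2
    linarith
  have h3 : ‖z i - c‖ = 0 := by
    have := norm_nonneg (z i - c)
    nlinarith
  exact sub_eq_zero.mp (norm_eq_zero.mp h3)

end Pool.Agent.H310.CH
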