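import Pool.Agent.H310.CH.Sums

/-!
# The parametrisation `x = t + 1 / t` over a finite field
-/

set_option linter.unusedSectionVars false

namespace Pool.Agent.H310.CH

open Finset

section

variable {F E : Type} [Field F] [Fintype F] [DecidableEq F] [Field E] [Fintype E] [DecidableEq E]
  [Algebra F E] {Q : ℕ} (hQ : Fintype.card F = Q) (hE : Fintype.card E = Q ^ 2) (hodd : Q % 2 = 1)

/-- a left inverse of the inclusion -/
noncomputable def RR (F E : Type) [Field F] [Field E] [Algebra F E] : E → F :=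
  Function.invFun (algebraMap F E)

lemma RR_alg (x : F) : RR F E (algebraMap F E x) = x :=
  Function.leftInverse_invFun (algebraMap F E).injective x

include hQ in
lemma frob_add (a b : E) : (a + b) ^ Q = a ^ Q + b ^ Q := by
  have hc : ∀ y : E, FiniteField.frobeniusAlgHom F E y = y ^ Q := fun y => by
    rw [FiniteField.coe_frobeniusAlgHom, hQ]
  rw [← hc, ← hc, ← hc, map_add]

include hQ in
lemma frob_alg (x : F) : (algebraMap F E x) ^ Q = algebraMap F E x := by
  rw [← map_pow, ← hQ, FiniteField.pow_card]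

include hQ in
lemma two_le_Q : 2 ≤ Q := by rw [← hQ]; exact Fintype.one_lt_card

/-- the torus `F^*` inside `E^*` -/
noncomputable def T1 (E : Type) [Field E] [Fintype E] [DecidableEq E] (Q : ℕ) : Finset Eˣ :=
  univ.filter (fun t => t ^ (Q - 1) = 1)

/-- the norm one torus inside `E^*` -/
noncomputable def T2 (E : Type) [Field E] [Fintype E] [DecidableEq E] (Q : ℕ) : Finset Eˣ :=
  univ.filter (fun t => t ^ (Q + 1) = 1)

include hQ in
lemma T1_eq : T1 E Q = univ.map ⟨Units.map (algebraMap F E).toMonoidHom,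
    Units.map_injective (algebraMap F E).injective⟩ := by
  have h2 := two_le_Q hQ
  symm
  apply Finset.eq_of_subset_of_card_le
  · intro t ht
    obtain ⟨u, _, rfl⟩ := mem_map.mp ht
    unfold T1
    rw [mem_filter]
    refine ⟨mem_univ _, ?_⟩
    have h1 : u ^ (Q - 1) = 1 := by
      rw [← hQ, ← Fintype.card_units]
      exact pow_card_eq_one
    change (Units.map (algebraMap F E).toMonoidHom u) ^ (Q - 1) = 1
    rw [← map_pow, h1, map_one]
  · rw [card_map, card_univ, Fintype.card_units, hQ]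
    exact IsCyclic.card_pow_eq_one_le (by omega)

include hQ in
lemma sum_T1 (H : Eˣ → ℂ) :
    ∑ t ∈ T1 E Q, H t = ∑ u : Fˣ, H (Units.map (algebraMap F E).toMonoidHom u) := by
  rw [T1_eq hQ, sum_map]; rfl

include hQ in
lemma mem_range_of_frob {y : E} (hy : y ^ Q = y) : ∃ x : F, algebraMap F E x = y := by
  by_cases h0 : y = 0
  · exact ⟨0, by rw [h0, map_zero]⟩
  · have h2 := two_le_Q hQ
    have h1 : Units.mk0 y h0 ∈ T1 E Q := by
      unfold T1
      rw [mem_filter]
      refine ⟨mem_univ _, ?_⟩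
      apply Units.ext
      rw [Units.val_pow_eq_pow_val, Units.val_mk0, Units.val_one]
      have h3 : y ^ (Q - 1) * y = 1 * y := by
        rw [← pow_succ, Nat.sub_add_cancel (by omega), hy, one_mul]
      exact mul_right_cancel₀ h0 h3
    rw [T1_eq hQ] at h1
    obtain ⟨u, _, hu⟩ := mem_map.mp h1
    refine ⟨u, ?_⟩
    have := congrArg (fun t : Eˣ => (t : E)) hu
    exact this

include hQ in
lemma mem_of_T {t : Eˣ} (ht : t ∈ T1 E Q ∨ t ∈ T2 E Q) :
    ∃ x : F, algebraMap F E x = (t : E) + (t⁻¹ : Eˣ) := by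
  have h2 := two_le_Q hQ
  apply mem_range_of_frob hQ
  rw [frob_add hQ, ← Units.val_pow_eq_pow_val, ← Units.val_pow_eq_pow_val]
  rcases ht with ht | ht
  · have h1 := (mem_filter.mp ht).2
    have h3 : t ^ Q = t := by
      rw [show Q = Q - 1 + 1 by omega, pow_succ, h1, one_mul]
    have h4 : (t⁻¹) ^ Q = t⁻¹ := by rw [inv_pow, h3]
    rw [h3, h4]
  · have h1 := (mem_filter.mp ht).2
    have h3 : t ^ Q = t⁻¹ := by
      rw [pow_succ] at h1
      exact eq_inv_of_mul_eq_one_left h1
    have h4 : (t⁻¹) ^ Q = t := by rw [inv_pow, h3, inv_inv]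
    rw [h3, h4, add_comm]

include hQ in
lemma T_of_mem {t : Eˣ} {x : F} (hx : (t : E) + (t⁻¹ : Eˣ) = algebraMap F E x) :
    t ^ (Q - 1) = 1 ∨ t ^ (Q + 1) = 1 := by
  have h2 := two_le_Q hQ
  have h1 : ((t : E) + (t⁻¹ : Eˣ)) ^ Q = (t : E) + (t⁻¹ : Eˣ) := by
    rw [hx, frob_alg hQ]
  rw [frob_add hQ] at h1
  have ht0 : (t : E) ≠ 0 := t.ne_zero
  rw [Units.val_inv_eq_inv_val, inv_pow] at h1
  have hQ0 : (t : E) ^ Q ≠ 0 := pow_ne_zero _ ht0
  have h3 : ((t : E) ^ Q - t) * ((t : E) ^ Q * t - 1) = 0 := by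
    field_simp at h1
    linear_combination h1
  rcases mul_eq_zero.mp h3 with h | h
  · left
    apply Units.ext
    rw [Units.val_pow_eq_pow_val, Units.val_one]
    have h4 : (t : E) ^ (Q - 1) * t = 1 * t := by
      rw [← pow_succ, Nat.sub_add_cancel (by omega), one_mul]
      exact sub_eq_zero.mp h
    exact mul_right_cancel₀ ht0 h4
  · right
    apply Units.ext
    rw [Units.val_pow_eq_pow_val, Units.val_one, pow_succ]
    exact sub_eq_zero.mp h

lemma ringChar_ne_two_of_odd {K : Type} [Field K] [Fintype K] (h : Fintype.card K % 2 = 1) :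
    ringChar K ≠ 2 := by
  intro h2
  have := FiniteField.even_card_iff_char_two.mp h2
  omega

include hQ hE hodd in
/-- every element of `F` is a square in `E` -/
lemma alg_square (y : F) : ∃ s : E, s ^ 2 = algebraMap F E y := by
  by_cases h0 : y = 0
  · exact ⟨0, by rw [h0, map_zero]; ring⟩
  · have hE2 : ringChar E ≠ 2 := by
      apply ringChar_ne_two_of_odd
      rw [hE, sq, Nat.mul_mod, hodd]
    have h1 : algebraMap F E y ≠ 0 := by
      rw [Ne, map_eq_zero_iff _ (algebraMap F E).injective]; exact h0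
    have h2 := (FiniteField.isSquare_iff hE2 h1).mpr (by
      obtain ⟨c, hc⟩ : ∃ c, Q = 2 * c + 1 := ⟨Q / 2, by omega⟩
      have h3 : Fintype.card E / 2 = (Q - 1) * (c + 1) := by
        rw [hE, hc, Nat.add_sub_cancel]
        have : (2 * c + 1) ^ 2 = 2 * (2 * c * (c + 1)) + 1 := by ring
        rw [this]; omega
      rw [h3, pow_mul, ← map_pow, ← hQ, FiniteField.pow_card_sub_one_eq_one y h0, map_one,
        one_pow])
    obtain ⟨s, hs⟩ := h2
    exact ⟨s, by rw [hs, sq]⟩

include hQ hE hodd in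
lemma exists_alpha (x : F) : ∃ α : Eˣ, (α : E) + (α⁻¹ : Eˣ) = algebraMap F E x := by
  have hE2 : ringChar E ≠ 2 := by
    apply ringChar_ne_two_of_odd
    rw [hE, sq, Nat.mul_mod, hodd]
  have h2 : (2 : E) ≠ 0 := Ring.two_ne_zero hE2
  obtain ⟨s, hs⟩ := alg_square (E := E) hQ hE hodd (x ^ 2 - 4)
  rw [map_sub, map_pow, map_ofNat] at hs
  set X := algebraMap F E x with hX
  refine ⟨⟨(X + s) / 2, (X - s) / 2, ?_, ?_⟩, ?_⟩
  · field_simp
    linear_combination -hs
  · field_simp
    linear_combination -hs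
  · change (X + s) / 2 + (X - s) / 2 = X
    field_simp
    ring

lemma fiber_alpha {α t : Eˣ} (h : (t : E) + (t⁻¹ : Eˣ) = (α : E) + (α⁻¹ : Eˣ)) :
    t = α ∨ t = α⁻¹ := by
  have ht0 : (t : E) ≠ 0 := t.ne_zero
  have h1 : ((t : E) - α) * ((t : E) - (α⁻¹ : Eˣ)) = 0 := by
    have e1 : (α : E) * ((α⁻¹ : Eˣ) : E) = 1 := by simp
    have e2 : (t : E) * ((t⁻¹ : Eˣ) : E) = 1 := by simp
    linear_combination (t : E) * h - e2 + e1
  rcases mul_eq_zero.mp h1 with h | h
  · left; exact Units.ext (sub_eq_zero.mp h)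
  · right; exact Units.ext (sub_eq_zero.mp h)

include hQ hE hodd in
/-- The parametrisation: summing over `F` is summing over the two tori. -/
theorem two_mul_sum (h : F → ℂ) :
    2 * ∑ x, h x = ∑ t ∈ T1 E Q, h (RR F E ((t : E) + (t⁻¹ : Eˣ))) +
      ∑ t ∈ T2 E Q, h (RR F E ((t : E) + (t⁻¹ : Eˣ))) := by
  have h2 := two_le_Q hQ
  set W : Eˣ → ℂ := fun t => (if t ^ (Q - 1) = 1 then 1 else 0) + (if t ^ (Q + 1) = 1 then 1 else 0)
    with hW
  set r : Eˣ → F := fun t => RR F E ((t : E) + (t⁻¹ : Eˣ)) with hr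
  have h1 : ∑ t ∈ T1 E Q, h (r t) + ∑ t ∈ T2 E Q, h (r t) = ∑ t, W t * h (r t) := by
    unfold T1 T2
    rw [sum_filter, sum_filter, ← sum_add_distrib]
    refine sum_congr rfl fun t _ => ?_
    rw [hW]
    simp only [add_mul, ite_mul, one_mul, zero_mul]
  rw [h1, ← Finset.sum_fiberwise univ r (fun t => W t * h (r t)), mul_sum]
  refine sum_congr rfl fun x _ => ?_
  obtain ⟨α, hα⟩ := exists_alpha (E := E) hQ hE hodd x
  have h3 : ∀ t : Eˣ, W t ≠ 0 → r t = x → (t : E) + (t⁻¹ : Eˣ) = algebraMap F E x := by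
    intro t ht hx
    have h4 : t ∈ T1 E Q ∨ t ∈ T2 E Q := by
      by_contra hcon
      push Not at hcon
      apply ht
      unfold T1 T2 at hcon
      rw [mem_filter, mem_filter] at hcon
      rw [hW]
      simp only
      rw [if_neg (fun h => hcon.1 ⟨mem_univ _, h⟩), if_neg (fun h => hcon.2 ⟨mem_univ _, h⟩),
        add_zero]
    obtain ⟨y, hy⟩ := mem_of_T hQ h4
    rw [← hy]
    congr 1
    rw [← hx, hr]
    simp only
    rw [← hy, RR_alg]
  have hsub : ({α, α⁻¹} : Finset Eˣ) ⊆ univ.filter (fun t => r t = x) := by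
    intro t ht
    rw [mem_insert, mem_singleton] at ht
    rw [mem_filter]
    refine ⟨mem_univ _, ?_⟩
    rw [hr]
    simp only
    rcases ht with rfl | rfl
    · rw [hα, RR_alg]
    · rw [inv_inv, add_comm, hα, RR_alg]
  have h5 : ∑ t ∈ univ.filter (fun t => r t = x), W t * h (r t) =
      ∑ t ∈ univ.filter (fun t => r t = x), W t * h x :=
    sum_congr rfl fun t ht => by rw [(mem_filter.mp ht).2]
  rw [h5, ← sum_mul]
  congr 1
  rw [← Finset.sum_subset hsub]
  · -- the sum over the fibre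
    have hTα := T_of_mem hQ hα
    by_cases hαα : α = α⁻¹
    · rw [← hαα, pair_eq_singleton, sum_singleton]
      have hsq : α ^ 2 = 1 := by
        rw [sq]; nth_rewrite 2 [hαα]; exact mul_inv_cancel α
      obtain ⟨c, hc⟩ : ∃ c, Q = 2 * c + 1 := ⟨Q / 2, by omega⟩
      have e1 : α ^ (Q - 1) = 1 := by
        rw [hc, Nat.add_sub_cancel, pow_mul, hsq, one_pow]
      have e2 : α ^ (Q + 1) = 1 := by
        rw [hc, show 2 * c + 1 + 1 = 2 * (c + 1) by ring, pow_mul, hsq, one_pow]
      rw [hW]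
      simp only
      rw [if_pos e1, if_pos e2]; norm_num
    · rw [sum_pair hαα]
      have e0 : ¬ (α ^ (Q - 1) = 1 ∧ α ^ (Q + 1) = 1) := by
        rintro ⟨e1, e2⟩
        apply hαα
        rw [show Q + 1 = Q - 1 + 2 by omega, pow_add, e1, one_mul, sq] at e2
        exact eq_inv_of_mul_eq_one_left e2
      have e1 : W α = 1 := by
        rw [hW]
        simp only
        rcases hTα with h | h
        · rw [if_pos h, if_neg (fun h' => e0 ⟨h, h'⟩)]; norm_num
        · rw [if_neg (fun h' => e0 ⟨h', h⟩), if_pos h]; norm_num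
      have e2 : W α⁻¹ = W α := by
        rw [hW]
        simp only [inv_pow, inv_eq_one]
      rw [e2, e1]; norm_num
  · intro t ht hnt
    by_contra hWt
    apply hnt
    rw [mem_insert, mem_singleton]
    apply fiber_alpha
    rw [hα]
    exact h3 t hWt (mem_filter.mp ht).2

end

end Pool.Agent.H310.CH
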